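import Mathlib

set_option autoImplicit false

/-! Many sums of `t` positive `k`-th powers (Hardy and Littlewood). -/

namespace Pool.Agent.D0H17.MW

open Finset

lemma gap_aux (n x : ℕ) : x ^ (n + 2) + (n + 2) * x ^ (n + 1) ≤ (x + 1) ^ (n + 2) := by
  induction n with
  | zero =>
    have : (x + 1) ^ (0 + 2) = x ^ (0 + 2) + (0 + 2) * x ^ (0 + 1) + 1 := by ring
    omega
  | succ n ih =>
    have h1 : (x + 1) ^ (n + 1 + 2) = (x + 1) ^ (n + 2) * x + (x + 1) ^ (n + 2) := by ring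
    have h2 : (x ^ (n + 2) + (n + 2) * x ^ (n + 1)) * x ≤ (x + 1) ^ (n + 2) * x := Nat.mul_le_mul_right _ ih
    have h3 : x ^ (n + 2) ≤ (x + 1) ^ (n + 2) := Nat.pow_le_pow_left (by omega) _
    have h4 : (x ^ (n + 2) + (n + 2) * x ^ (n + 1)) * x = x ^ (n + 3) + (n + 2) * x ^ (n + 2) := by ring
    have h5 : (n + 1 + 2) * x ^ (n + 1 + 1) = (n + 2) * x ^ (n + 2) + x ^ (n + 2) := by ring
    have h6 : x ^ (n + 1 + 2) = x ^ (n + 3) := by ring
    rw [h1, h5, h6]
    omega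

/-- the density exponent -/
noncomputable def dl (n : ℕ) : ℝ := 1 - 1 / ((n : ℝ) + 2)

lemma dl_mem (n : ℕ) : 0 < dl n ∧ dl n < 1 := by
  have hn : (0 : ℝ) ≤ n := Nat.cast_nonneg n
  unfold dl
  constructor
  · have : 1 / ((n : ℝ) + 2) < 1 := by
      rw [div_lt_one (by positivity)]
      linarith
    linarith
  · have : 0 < 1 / ((n : ℝ) + 2) := by positivity
    linarith

theorem diag (n t : ℕ) : ∃ c X0 : ℝ, 0 < c ∧ 1 ≤ X0 ∧ ∀ X : ℝ, X0 ≤ X → ∃ 𝒟 : Finset ℕ,
    (∀ b ∈ 𝒟, (b : ℝ) ≤ X ∧ ∃ x : Fin t → ℕ, (∀ i, 1 ≤ x i) ∧ b = ∑ i, x i ^ (n + 2)) ∧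
    c * X ^ (1 - dl n ^ t) ≤ (𝒟.card : ℝ) := by
  induction t with
  | zero =>
    refine ⟨1, 1, one_pos, le_rfl, fun X hX => ⟨{0}, ?_, ?_⟩⟩
    · intro b hb
      rw [mem_singleton] at hb
      subst hb
      refine ⟨by push_cast; linarith, fun i => i.elim0, fun i => i.elim0, by simp⟩
    · simp
  | succ t ih =>
    obtain ⟨c, X0, hc, hX0, h⟩ := ih
    obtain ⟨hd0, hd1⟩ := dl_mem n
    set δ := dl n with hδ
    have hn : (0 : ℝ) ≤ n := Nat.cast_nonneg n
    have hk0 : (0 : ℝ) < (n : ℝ) + 2 := by positivity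
    set E : ℝ := 1 - δ ^ (t + 1) with hE
    have hE0 : 0 ≤ E := by
      have : δ ^ (t + 1) ≤ 1 := pow_le_one₀ hd0.le hd1.le
      simp only [hE]; linarith
    refine ⟨c * (1 / 4) ^ (((n : ℝ) + 2) * E) * (1 / 2) ^ E, max 1 (2 * (4 * X0) ^ (n + 2)), by positivity,
      le_max_left _ _, fun X hX => ?_⟩
    have hX1 : 1 ≤ X := (le_max_left _ _).trans hX
    have hX2 : 2 * (4 * X0) ^ (n + 2) ≤ X := (le_max_right _ _).trans hX
    set w : ℝ := (X / 2) ^ (1 / ((n : ℝ) + 2)) with hw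
    have hX20 : 0 ≤ X / 2 := by linarith
    have hwk : w ^ (n + 2) = X / 2 := by
      rw [hw, ← Real.rpow_natCast, ← Real.rpow_mul hX20]
      have : 1 / ((n : ℝ) + 2) * ((n + 2 : ℕ) : ℝ) = 1 := by
        push_cast
        field_simp
      rw [this, Real.rpow_one]
    have hw0 : 0 ≤ w := Real.rpow_nonneg hX20 _
    have hw1 : 4 * X0 ≤ w := by
      refine le_of_pow_le_pow_left₀ (n := n + 2) (by omega) hw0 ?_
      rw [hwk]
      linarith
    set W : ℕ := ⌊w / 2⌋₊ with hW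
    have hW1 : (W : ℝ) ≤ w / 2 := Nat.floor_le (by linarith)
    have hW2 : w / 4 ≤ W := by
      have := Nat.lt_floor_add_one (w / 2)
      rw [← hW] at this
      linarith
    have hWX0 : X0 ≤ W := by linarith
    have hW1' : (1 : ℝ) ≤ W := by linarith
    have hWn : 1 ≤ W := by exact_mod_cast hW1'
    have hWpow : X0 ≤ ((W ^ (n + 1) : ℕ) : ℝ) := by
      push_cast
      calc X0 ≤ (W : ℝ) := hWX0
        _ = (W : ℝ) ^ 1 := (pow_one _).symm
        _ ≤ (W : ℝ) ^ (n + 1) := pow_le_pow_right₀ hW1' (by omega)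
    obtain ⟨𝒟, h𝒟, hcard⟩ := h _ hWpow
    have h𝒟' : ∀ b ∈ 𝒟, b ≤ W ^ (n + 1) := by
      intro b hb
      exact_mod_cast (h𝒟 b hb).1
    have hinj : Set.InjOn (fun p : ℕ × ℕ => p.1 ^ (n + 2) + p.2) (((Ico W (2 * W)) ×ˢ 𝒟 : Finset (ℕ × ℕ)) : Set (ℕ × ℕ)) := by
      have key : ∀ x x' b b' : ℕ, W ≤ x → b ≤ W ^ (n + 1) → x < x' → x ^ (n + 2) + b < x' ^ (n + 2) + b' := by
        intro x x' b b' hx hb hlt
        have h1 := gap_aux n x
        have h2 : (x + 1) ^ (n + 2) ≤ x' ^ (n + 2) := Nat.pow_le_pow_left hlt _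
        have h3 : W ^ (n + 1) ≤ x ^ (n + 1) := Nat.pow_le_pow_left hx _
        have h4 : 0 < x ^ (n + 1) := Nat.pow_pos (by omega)
        have h5 : 2 * x ^ (n + 1) ≤ (n + 2) * x ^ (n + 1) := Nat.mul_le_mul_right _ (by omega)
        omega
      rintro ⟨x, b⟩ h1 ⟨x', b'⟩ h2 heq
      simp only [coe_product, Set.mem_prod, mem_coe, mem_Ico] at h1 h2
      have heq' : x ^ (n + 2) + b = x' ^ (n + 2) + b' := heq
      rcases lt_trichotomy x x' with hlt | rfl | hgt
      · exact absurd heq' (key x x' b b' h1.1.1 (h𝒟' b h1.2) hlt).ne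
      · have : b = b' := by omega
        rw [this]
      · exact absurd heq'.symm (key x' x b' b h2.1.1 (h𝒟' b' h2.2) hgt).ne
    refine ⟨((Ico W (2 * W)) ×ˢ 𝒟).image (fun p : ℕ × ℕ => p.1 ^ (n + 2) + p.2), ?_, ?_⟩
    · intro b hb
      rw [mem_image] at hb
      obtain ⟨⟨x0, b0⟩, hp, rfl⟩ := hb
      rw [mem_product, mem_Ico] at hp
      obtain ⟨⟨hx1, hx2⟩, hb0⟩ := hp
      obtain ⟨hbX, x, hx, hbx⟩ := h𝒟 b0 hb0
      refine ⟨?_, Fin.cons x0 x, ?_, ?_⟩
      · push_cast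
        have h1 : (x0 : ℝ) ≤ w := by
          have : (x0 : ℝ) < ((2 * W : ℕ) : ℝ) := by exact_mod_cast hx2
          push_cast at this
          linarith
        have h2 : (x0 : ℝ) ^ (n + 2) ≤ X / 2 := by
          rw [← hwk]
          exact pow_le_pow_left₀ (Nat.cast_nonneg _) h1 _
        have h3 : ((W ^ (n + 1) : ℕ) : ℝ) ≤ X / 2 := by
          push_cast
          rw [← hwk]
          have h4 : (W : ℝ) ≤ w := by linarith
          calc (W : ℝ) ^ (n + 1) ≤ (W : ℝ) ^ (n + 2) := pow_le_pow_right₀ hW1' (by omega)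
            _ ≤ w ^ (n + 2) := pow_le_pow_left₀ (Nat.cast_nonneg _) h4 _
        linarith
      · intro i
        refine Fin.cases ?_ (fun j => ?_) i
        · simp only [Fin.cons_zero]
          omega
        · simp only [Fin.cons_succ]
          exact hx j
      · rw [Fin.sum_univ_succ]
        simp only [Fin.cons_zero, Fin.cons_succ]
        rw [hbx]
    · rw [card_image_of_injOn hinj, card_product, Nat.card_Ico]
      have h1 : 2 * W - W = W := by omega
      rw [h1]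
      push_cast
      have hWpos : (0 : ℝ) < W := by linarith
      have h2 : c * (W : ℝ) ^ (((n : ℝ) + 2) * E) ≤ (W : ℝ) * (𝒟.card : ℝ) := by
        have h3 : (W : ℝ) ^ (((n : ℝ) + 2) * E) = (W : ℝ) * (((W ^ (n + 1) : ℕ) : ℝ)) ^ (1 - δ ^ t) := by
          push_cast
          rw [← Real.rpow_natCast, ← Real.rpow_mul hWpos.le]
          nth_rewrite 2 [← Real.rpow_one (W : ℝ)]
          rw [← Real.rpow_add hWpos]
          congr 1
          have hkδ : ((n : ℝ) + 2) * δ = n + 1 := by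
            rw [hδ]
            unfold dl
            field_simp
            ring
          have e1 : ((n : ℝ) + 2) * (1 - δ ^ (t + 1)) = ((n : ℝ) + 2) - (((n : ℝ) + 2) * δ) * δ ^ t := by ring
          simp only [hE]
          rw [e1, hkδ]
          push_cast
          ring
        rw [h3]
        calc c * ((W : ℝ) * (((W ^ (n + 1) : ℕ) : ℝ)) ^ (1 - δ ^ t)) =
              (W : ℝ) * (c * (((W ^ (n + 1) : ℕ) : ℝ)) ^ (1 - δ ^ t)) := by ring
          _ ≤ _ := mul_le_mul_of_nonneg_left hcard hWpos.le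
      refine le_trans ?_ h2
      have h4 : (w / 4) ^ (((n : ℝ) + 2) * E) ≤ (W : ℝ) ^ (((n : ℝ) + 2) * E) :=
        Real.rpow_le_rpow (by linarith) hW2 (by positivity)
      have h5 : (w / 4) ^ (((n : ℝ) + 2) * E) = (1 / 4) ^ (((n : ℝ) + 2) * E) * ((1 / 2) ^ E * X ^ E) := by
        have e7 : w / 4 = 1 / 4 * w := by ring
        rw [e7, Real.mul_rpow (by norm_num) hw0, ← Real.mul_rpow (z := E) (by norm_num : (0 : ℝ) ≤ 1 / 2) (by linarith)]
        have h6 : w ^ (((n : ℝ) + 2) * E) = (1 / 2 * X) ^ E := by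
          rw [Real.rpow_mul hw0]
          congr 1
          have : w ^ ((n : ℝ) + 2) = w ^ (n + 2) := by
            rw [← Real.rpow_natCast]
            push_cast
            rfl
          rw [this, hwk]
          ring
        rw [h6]
      calc c * (1 / 4) ^ (((n : ℝ) + 2) * E) * (1 / 2) ^ E * X ^ E = c * (w / 4) ^ (((n : ℝ) + 2) * E) := by
            rw [h5]; ring
        _ ≤ _ := mul_le_mul_of_nonneg_left h4 hc.le

end Pool.Agent.D0H17.MW
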