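import Pool.Agent.D0H17.MW.Dim
import Pool.Agent.D0H17.MW.Diag

set_option autoImplicit false

/-! The final theorem. -/

namespace Pool.Agent.D0H17.MW

open Finset MeasureTheory Filter
open scoped ENNReal

/-- every large real number is close to a sum of `t` positive `k`-th powers and `m` shifted `k`-th powers -/
def Cov (k t m : ℕ) (θ : Fin m → ℝ) : Prop :=
  ∀ η : ℝ, 0 < η → ∃ τ₀ : ℝ, ∀ τ : ℝ, τ₀ ≤ τ → ∃ (x : Fin t → ℕ) (y : Fin m → ℕ),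
    (∀ i, 1 ≤ x i) ∧ (∀ j, 1 ≤ y j) ∧ |∑ i, (x i : ℝ) ^ k + ∑ j, ((y j : ℝ) + θ j) ^ k - τ| < η

/-- the sets of sums of `t` powers at the scale `2 ^ j` -/
lemma sets (n t : ℕ) : ∃ (𝒟 : ℕ → Finset ℕ) (c : ℝ) (j0 : ℕ), 0 < c ∧
    (∀ j, ∀ b ∈ 𝒟 j, b ≤ (2 ^ j) ^ (n + 2) ∧ ∃ x : Fin t → ℕ, (∀ i, 1 ≤ x i) ∧ b = ∑ i, x i ^ (n + 2)) ∧
    ∀ j, j0 ≤ j → c * ((2 : ℝ) ^ j) ^ (((n : ℝ) + 2) * (1 - dl n ^ t)) ≤ ((𝒟 j).card : ℝ) := by
  classical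
  obtain ⟨c, X0, hc, hX0, h⟩ := diag n t
  obtain ⟨j0, hj0⟩ := pow_unbounded_of_one_lt X0 (show (1 : ℝ) < 2 by norm_num)
  set 𝒟 : ℕ → Finset ℕ := fun j => if hj : X0 ≤ ((2 : ℝ) ^ j) ^ (n + 2) then (h _ hj).choose else ∅ with h𝒟
  refine ⟨𝒟, c, j0, hc, ?_, ?_⟩
  · intro j b hb
    simp only [h𝒟] at hb
    split_ifs at hb with hj
    · obtain ⟨h1, h2⟩ := (h _ hj).choose_spec.1 b hb
      refine ⟨?_, h2⟩
      exact_mod_cast h1
    · simp at hb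
  · intro j hj
    have hX : X0 ≤ ((2 : ℝ) ^ j) ^ (n + 2) := by
      have h1 : (2 : ℝ) ^ j0 ≤ 2 ^ j := pow_le_pow_right₀ (by norm_num) hj
      have h2 : (1 : ℝ) ≤ 2 ^ j := one_le_pow₀ (by norm_num)
      calc X0 ≤ (2 : ℝ) ^ j := by linarith
        _ = ((2 : ℝ) ^ j) ^ 1 := (pow_one _).symm
        _ ≤ _ := pow_le_pow_right₀ h2 (by omega)
    have h1 := (h _ hX).choose_spec.2
    have h2 : 𝒟 j = (h _ hX).choose := by
      simp only [h𝒟]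
      rw [dif_pos hX]
    rw [h2]
    refine le_trans (le_of_eq ?_) h1
    congr 1
    rw [← Real.rpow_natCast ((2 : ℝ) ^ j) (n + 2), ← Real.rpow_mul (by positivity)]
    push_cast
    rfl

theorem fin_core (n t₁ t₂ m : ℕ) (hm : 1 ≤ m)
    (h1 : ((n : ℝ) + 2) * dl n ^ t₁ + ((n : ℝ) + 2) * dl n ^ t₂ < m + 1) (h2 : ((n : ℝ) + 2) * dl n ^ t₂ ≤ m - 1) :
    dimH {θ : Fin (m + 1) → ℝ | ¬ Cov (n + 2) (t₁ + t₂) (m + 1) θ} < ((m + 1 : ℕ) : ℝ≥0∞) := by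
  obtain ⟨𝒟₁, c₁, j₁, hc₁, h𝒟₁, hcard₁⟩ := sets n t₁
  obtain ⟨𝒟₂, c₂, j₂, hc₂, h𝒟₂, hcard₂⟩ := sets n t₂
  obtain ⟨D, hD0, hD1, hD⟩ := dim_core n m hm (((n : ℝ) + 2) * (1 - dl n ^ t₁)) (((n : ℝ) + 2) * (1 - dl n ^ t₂))
    c₁ c₂ hc₁ hc₂ (by linarith) (by linarith) 𝒟₁ 𝒟₂ (fun j b hb => (h𝒟₁ j b hb).1) (fun j b hb => (h𝒟₂ j b hb).1)
    (max j₁ j₂) (fun j hj => hcard₁ j ((le_max_left _ _).trans hj)) (fun j hj => hcard₂ j ((le_max_right _ _).trans hj))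
  have hsub : {θ : Fin (m + 1) → ℝ | ¬ Cov (n + 2) (t₁ + t₂) (m + 1) θ} ⊆
      ⋃ z : Fin (m + 1) → ℤ, ⋃ H : ℕ, (IsometryEquiv.subRight (fun j => (z j : ℝ)) : (Fin (m + 1) → ℝ) ≃ᵢ (Fin (m + 1) → ℝ)) ⁻¹'
        {θ | ∃ᶠ j in atTop, θ ∈ UU n m (2 ^ j) (H + 1) (𝒟₁ j) (𝒟₂ j)} := by
    intro θ hθ
    by_contra hcon
    apply hθ
    simp only [Set.mem_iUnion, not_exists] at hcon
    set z : Fin (m + 1) → ℤ := fun j => ⌊θ j⌋ with hz
    set θ0 : Fin (m + 1) → ℝ := fun j => θ j - z j with hθ0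
    have h01 : ∀ j, 0 ≤ θ0 j ∧ θ0 j < 1 := by
      intro j
      simp only [hθ0, hz]
      have e1 := Int.floor_le (θ j)
      have e2 := Int.lt_floor_add_one (θ j)
      constructor <;> linarith
    have hev : ∀ H : ℕ, ∀ᶠ j in atTop, θ0 ∉ UU n m (2 ^ j) (H + 1) (𝒟₁ j) (𝒟₂ j) := by
      intro H
      have h3 := hcon z H
      simp only [Set.mem_preimage, Set.mem_ofPred_eq, not_frequently] at h3
      have h4 : (IsometryEquiv.subRight (fun j => (z j : ℝ)) : (Fin (m + 1) → ℝ) ≃ᵢ (Fin (m + 1) → ℝ)) θ = θ0 := by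
        rfl
      rw [h4] at h3
      exact h3
    intro η hη
    obtain ⟨H, hH⟩ := exists_nat_one_div_lt hη
    obtain ⟨J, hJ⟩ := eventually_atTop.1 (hev H)
    set Z : ℕ := ∑ j, (z j).natAbs + 1 with hZ
    set J' : ℕ := max J Z with hJ'
    refine ⟨(m + 1) * (2 * (2 : ℝ) ^ J') ^ (n + 2), fun τ hτ => ?_⟩
    have hm1 : (0 : ℝ) < (m : ℝ) + 1 := by positivity
    have hB : (0 : ℝ) < (m + 1) * 2 ^ (n + 2) := by positivity
    have hy1 : (1 : ℝ) < 2 ^ (n + 2) := one_lt_pow₀ (by norm_num) (by omega)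
    have hτx : ((2 : ℝ) ^ (n + 2)) ^ J' ≤ τ / ((m + 1) * 2 ^ (n + 2)) := by
      rw [le_div_iff₀ hB]
      refine le_trans (le_of_eq ?_) hτ
      rw [mul_pow, ← pow_mul, ← pow_mul, mul_comm J']
      ring
    have hx1 : 1 ≤ τ / ((m + 1) * 2 ^ (n + 2)) := le_trans (one_le_pow₀ hy1.le) hτx
    obtain ⟨j, hj1, hj2⟩ := exists_nat_pow_near hx1 hy1
    have hJj : J' ≤ j := by
      by_contra hlt
      have h3 : ((2 : ℝ) ^ (n + 2)) ^ (j + 1) ≤ ((2 : ℝ) ^ (n + 2)) ^ J' := pow_le_pow_right₀ hy1.le (by omega)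
      linarith
    have hτ1 : (m + 1) * (2 * (2 : ℝ) ^ j) ^ (n + 2) ≤ τ := by
      rw [le_div_iff₀ hB] at hj1
      refine le_trans (le_of_eq ?_) hj1
      rw [mul_pow, ← pow_mul, ← pow_mul, mul_comm j]
      ring
    have hτ2 : τ < (m + 1) * (4 * (2 : ℝ) ^ j) ^ (n + 2) := by
      rw [div_lt_iff₀ hB] at hj2
      refine lt_of_lt_of_le hj2 (le_of_eq ?_)
      rw [show (4 : ℝ) = 2 * 2 by norm_num, mul_pow, mul_pow, ← pow_mul, ← pow_mul, mul_add, mul_one, pow_add,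
        mul_comm j]
      ring
    have hτ0 : 0 ≤ τ := le_trans (by positivity) hτ1
    have hH1 : (0 : ℝ) < (H : ℝ) + 1 := by positivity
    set i : ℕ := ⌊((H : ℝ) + 1) * τ⌋₊ with hi
    have hi1 : (i : ℝ) ≤ ((H : ℝ) + 1) * τ := Nat.floor_le (by positivity)
    have hi2 : ((H : ℝ) + 1) * τ < i + 1 := Nat.lt_floor_add_one _
    have hnot := hJ j ((le_max_left _ _).trans hJj)
    have hex : ∃ b ∈ 𝒟₁ j, ∃ d ∈ 𝒟₂ j, ∃ y : Fin (m + 1) → ℕ, (∀ l, 2 ^ j ≤ y l) ∧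
        0 < ((H + 1 : ℕ) : ℝ) * (∑ l, ((y l : ℝ) + θ0 l) ^ (n + 2) + b + d) - i ∧
        ((H + 1 : ℕ) : ℝ) * (∑ l, ((y l : ℝ) + θ0 l) ^ (n + 2) + b + d) - i < 1 := by
      by_contra hno
      apply hnot
      refine ⟨h01, i, ?_, ?_, ?_⟩
      · refine Nat.le_floor ?_
        push_cast
        exact mul_le_mul_of_nonneg_left hτ1 hH1.le
      · have h3 : (i : ℝ) ≤ (((H + 1) * ((m + 1) * (4 * 2 ^ j) ^ (n + 2)) : ℕ) : ℝ) := by
          refine hi1.trans ?_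
          push_cast
          exact mul_le_mul_of_nonneg_left hτ2.le hH1.le
        exact_mod_cast h3
      · intro b hb d hd y hy hc
        exact hno ⟨b, hb, d, hd, y, hy, hc.1, hc.2⟩
    obtain ⟨b, hb, d, hd, y, hy, hc1, hc2⟩ := hex
    obtain ⟨x1, hx1', hbx⟩ := (h𝒟₁ j b hb).2
    obtain ⟨x2, hx2', hdx⟩ := (h𝒟₂ j d hd).2
    have hZy : ∀ l, (z l).natAbs + 1 ≤ y l := by
      intro l
      have h3 : (z l).natAbs ≤ ∑ j, (z j).natAbs :=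
        Finset.single_le_sum (f := fun j => (z j).natAbs) (fun _ _ => Nat.zero_le _) (mem_univ l)
      have h4 : Z < 2 ^ Z := Nat.lt_two_pow_self
      have h5 : 2 ^ Z ≤ 2 ^ j := Nat.pow_le_pow_right (by norm_num) ((le_max_right _ _).trans hJj)
      have h6 := hy l
      omega
    refine ⟨Fin.append x1 x2, fun l => ((y l : ℤ) - z l).toNat, ?_, ?_, ?_⟩
    · intro l
      refine Fin.addCases (fun a => ?_) (fun a => ?_) l
      · rw [Fin.append_left]; exact hx1' a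
      · rw [Fin.append_right]; exact hx2' a
    · intro l
      have := hZy l
      show 1 ≤ ((y l : ℤ) - z l).toNat
      omega
    · have e1 : ∑ l, ((((((y l : ℤ) - z l).toNat : ℕ)) : ℝ) + θ l) ^ (n + 2) = ∑ l, ((y l : ℝ) + θ0 l) ^ (n + 2) := by
        refine sum_congr rfl fun l _ => ?_
        congr 1
        have h3 := hZy l
        have h4 : ((((y l : ℤ) - z l).toNat : ℕ) : ℤ) = (y l : ℤ) - z l := Int.toNat_of_nonneg (by omega)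
        have h5 : ((((y l : ℤ) - z l).toNat : ℕ) : ℝ) = (y l : ℝ) - z l := by
          have : (((((y l : ℤ) - z l).toNat : ℕ) : ℤ) : ℝ) = (((y l : ℤ) - z l : ℤ) : ℝ) := by rw [h4]
          push_cast at this
          exact this
        rw [h5]
        simp only [hθ0]
        ring
      have e2 : ∑ l, ((Fin.append x1 x2 l : ℕ) : ℝ) ^ (n + 2) = (b : ℝ) + d := by
        rw [Fin.sum_univ_add]
        simp only [Fin.append_left, Fin.append_right]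
        rw [hbx, hdx]
        push_cast
        rfl
      rw [e1, e2]
      push_cast at hc1 hc2
      set F := ∑ l, ((y l : ℝ) + θ0 l) ^ (n + 2)
      have h3 : ((H : ℝ) + 1) * |(b : ℝ) + d + F - τ| < 1 := by
        have e3 : ((H : ℝ) + 1) * ((b : ℝ) + d + F - τ) = ((H : ℝ) + 1) * (F + b + d) - ((H : ℝ) + 1) * τ := by ring
        have e4 : ((H : ℝ) + 1) * |(b : ℝ) + d + F - τ| = |((H : ℝ) + 1) * ((b : ℝ) + d + F - τ)| := by
          rw [abs_mul, abs_of_pos hH1]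
        rw [e4, e3, abs_lt]
        constructor <;> linarith
      have h4 : |(b : ℝ) + d + F - τ| < 1 / ((H : ℝ) + 1) := by
        rw [lt_div_iff₀ hH1]
        linarith
      linarith
  refine lt_of_le_of_lt (dimH_mono hsub) ?_
  have hle : dimH (⋃ z : Fin (m + 1) → ℤ, ⋃ H : ℕ, (IsometryEquiv.subRight (fun j => (z j : ℝ)) : (Fin (m + 1) → ℝ) ≃ᵢ (Fin (m + 1) → ℝ)) ⁻¹'
        {θ | ∃ᶠ j in atTop, θ ∈ UU n m (2 ^ j) (H + 1) (𝒟₁ j) (𝒟₂ j)}) ≤ ENNReal.ofReal D := by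
    rw [dimH_iUnion]
    refine iSup_le fun z => ?_
    rw [dimH_iUnion]
    refine iSup_le fun H => ?_
    rw [IsometryEquiv.dimH_preimage]
    exact hD (H + 1) (by omega)
  refine lt_of_le_of_lt hle ?_
  rw [← ENNReal.ofReal_natCast, ENNReal.ofReal_lt_ofReal_iff (by positivity)]
  push_cast
  exact hD1

/-- from real targets to integers -/
lemma Cov.floor {k t m : ℕ} {θ : Fin m → ℝ} (h : Cov k t m θ) : ∃ n₀ : ℕ, ∀ n : ℕ, n₀ ≤ n →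
    ∃ (x : Fin t → ℕ) (y : Fin m → ℕ), (∀ i, 1 ≤ x i) ∧ (∀ j, 1 ≤ y j) ∧
      (n : ℤ) = ∑ i, (x i : ℤ) ^ k + ⌊∑ j, ((y j : ℝ) + θ j) ^ k⌋ := by
  obtain ⟨τ₀, h⟩ := h (1 / 2) (by norm_num)
  refine ⟨⌈τ₀⌉₊, fun n hn => ?_⟩
  have h1 : τ₀ ≤ (n : ℝ) + 1 / 2 := by
    have h2 : τ₀ ≤ (⌈τ₀⌉₊ : ℝ) := Nat.le_ceil _
    have h3 : ((⌈τ₀⌉₊ : ℕ) : ℝ) ≤ n := by exact_mod_cast hn
    linarith
  obtain ⟨x, y, hx, hy, hxy⟩ := h _ h1
  refine ⟨x, y, hx, hy, ?_⟩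
  rw [abs_lt] at hxy
  have h2 : ⌊∑ j, ((y j : ℝ) + θ j) ^ k⌋ = (n : ℤ) - ∑ i, (x i : ℤ) ^ k := by
    rw [Int.floor_eq_iff]
    push_cast
    constructor <;> linarith [hxy.1, hxy.2]
  rw [h2]
  ring

/-- the general theorem -/
theorem general (k t₁ t₂ m : ℕ) (hk : 2 ≤ k) (hm : 2 ≤ m)
    (h1 : (k : ℝ) * (1 - 1 / (k : ℝ)) ^ t₁ + (k : ℝ) * (1 - 1 / (k : ℝ)) ^ t₂ < m)
    (h2 : (k : ℝ) * (1 - 1 / (k : ℝ)) ^ t₂ ≤ (m : ℝ) - 2) :
    dimH {θ : Fin m → ℝ | ¬ Cov k (t₁ + t₂) m θ} < (m : ℝ≥0∞) := by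
  obtain ⟨n, rfl⟩ : ∃ n, k = n + 2 := ⟨k - 2, by omega⟩
  obtain ⟨m, rfl⟩ : ∃ m', m = m' + 1 := ⟨m - 1, by omega⟩
  have e1 : (1 - 1 / (((n + 2 : ℕ)) : ℝ)) = dl n := by
    unfold dl
    push_cast
    rfl
  rw [e1] at h1 h2
  push_cast at h1 h2
  exact fin_core n t₁ t₂ m (by omega) h1 (by linarith)

lemma exp_num : 2 * Real.exp (-(11 / 6)) < 0.32 := by
  have h1 : Real.exp 1 > 2.7182818283 := Real.exp_one_gt_d9
  have h2 : Real.exp (-(11 / 6 : ℝ)) ^ 6 = 1 / Real.exp 1 ^ 11 := by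
    rw [← Real.exp_nat_mul, ← Real.exp_nat_mul, one_div, ← Real.exp_neg]
    congr 1
    norm_num
  by_contra hcon
  have h3 : (0.16 : ℝ) ≤ Real.exp (-(11 / 6 : ℝ)) := by linarith
  have h4 : (0.16 : ℝ) ^ 6 ≤ Real.exp (-(11 / 6 : ℝ)) ^ 6 := pow_le_pow_left₀ (by norm_num) h3 6
  rw [h2] at h4
  have h5 : (2.7182818283 : ℝ) ^ 11 ≤ Real.exp 1 ^ 11 := pow_le_pow_left₀ (by norm_num) h1.le 11
  have h6 : 1 / Real.exp 1 ^ 11 ≤ 1 / (2.7182818283 : ℝ) ^ 11 := one_div_le_one_div_of_le (by norm_num) h5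
  have h7 : (0.16 : ℝ) ^ 6 ≤ 1 / (2.7182818283 : ℝ) ^ 11 := h4.trans h6
  norm_num at h7

lemma numer (k : ℕ) (hk : 6 ≤ k) (t₁ : ℕ) (ht : 4 * k ≤ 2 * t₁ + (k / 3 + 2) + 1) :
    2 * ((k : ℝ) * (1 - 1 / (k : ℝ)) ^ t₁) < ((k / 3 + 2 : ℕ) : ℝ) := by
  have hk0 : (6 : ℝ) ≤ k := by exact_mod_cast hk
  set q : ℕ := k / 3 with hq
  have hq1 : (k : ℝ) ≤ 3 * q + 2 := by
    have : k ≤ 3 * q + 2 := by omega
    exact_mod_cast this
  have hq2 : 3 * (q : ℝ) ≤ k := by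
    have : 3 * q ≤ k := by omega
    exact_mod_cast this
  have ht' : 4 * (k : ℝ) ≤ 2 * t₁ + (q + 2) + 1 := by exact_mod_cast ht
  have h1 : (1 - 1 / (k : ℝ)) ^ t₁ ≤ Real.exp (-(t₁ / k)) := by
    have h2 : 1 - 1 / (k : ℝ) ≤ Real.exp (-(1 / k)) := by
      have := Real.add_one_le_exp (-(1 / (k : ℝ)))
      linarith
    have h3 : 0 ≤ 1 - 1 / (k : ℝ) := by
      have : 1 / (k : ℝ) ≤ 1 := by
        rw [div_le_one (by linarith)]
        linarith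
      linarith
    refine (pow_le_pow_left₀ h3 h2 _).trans (le_of_eq ?_)
    rw [← Real.exp_nat_mul]
    congr 1
    ring
  have h2 : -((t₁ : ℝ) / k) ≤ -(11 / 6) + 3 / 2 / k := by
    have h3 : (4 * (k : ℝ) - q - 3) / 2 ≤ t₁ := by linarith
    have h4 : (4 * (k : ℝ) - q - 3) / 2 / k ≤ t₁ / k := div_le_div_of_nonneg_right h3 (by linarith)
    have h5 : (4 * (k : ℝ) - q - 3) / 2 / k = 2 - (q : ℝ) / k / 2 - 3 / 2 / k := by
      field_simp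
      ring
    have h6 : (q : ℝ) / k ≤ 1 / 3 := by
      rw [div_le_iff₀ (by linarith)]
      linarith
    rw [h5] at h4
    linarith
  have h3 : Real.exp (3 / 2 / (k : ℝ)) ≤ 1 / (1 - 3 / 2 / k) := by
    have h4 : 1 - 3 / 2 / (k : ℝ) ≤ Real.exp (-(3 / 2 / k)) := by
      have := Real.add_one_le_exp (-(3 / 2 / (k : ℝ)))
      linarith
    have h5 : 0 < 1 - 3 / 2 / (k : ℝ) := by
      have : 3 / 2 / (k : ℝ) < 1 := by
        rw [div_lt_one (by linarith)]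
        linarith
      linarith
    rw [le_div_iff₀ h5]
    calc Real.exp (3 / 2 / (k : ℝ)) * (1 - 3 / 2 / (k : ℝ)) ≤ Real.exp (3 / 2 / (k : ℝ)) * Real.exp (-(3 / 2 / k)) :=
          mul_le_mul_of_nonneg_left h4 (Real.exp_pos _).le
      _ = 1 := by rw [← Real.exp_add]; simp
  have h4 : (k : ℝ) * (1 / (1 - 3 / 2 / k)) ≤ k + 2 := by
    have h5 : 0 < 1 - 3 / 2 / (k : ℝ) := by
      have : 3 / 2 / (k : ℝ) < 1 := by
        rw [div_lt_one (by linarith)]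
        linarith
      linarith
    rw [mul_one_div, div_le_iff₀ h5]
    have h6 : ((k : ℝ) + 2) * (1 - 3 / 2 / k) = k + 2 - 3 / 2 - 3 / k := by
      field_simp
      ring
    rw [h6]
    have h7 : 3 / (k : ℝ) ≤ 1 / 2 := by
      rw [div_le_iff₀ (by linarith)]
      linarith
    linarith
  have h5 := exp_num
  have h6 : (1 - 1 / (k : ℝ)) ^ t₁ ≤ Real.exp (-(11 / 6)) * Real.exp (3 / 2 / (k : ℝ)) := by
    rw [← Real.exp_add]
    exact h1.trans (Real.exp_le_exp.2 h2)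
  have hE : 0 < Real.exp (-(11 / 6 : ℝ)) := Real.exp_pos _
  calc 2 * ((k : ℝ) * (1 - 1 / (k : ℝ)) ^ t₁) ≤ 2 * ((k : ℝ) * (Real.exp (-(11 / 6)) * Real.exp (3 / 2 / (k : ℝ)))) := by
        refine mul_le_mul_of_nonneg_left (mul_le_mul_of_nonneg_left h6 (by linarith)) (by norm_num)
    _ ≤ 2 * ((k : ℝ) * (Real.exp (-(11 / 6)) * (1 / (1 - 3 / 2 / k)))) := by
        refine mul_le_mul_of_nonneg_left (mul_le_mul_of_nonneg_left (mul_le_mul_of_nonneg_left h3 hE.le) (by linarith))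
          (by norm_num)
    _ = (2 * Real.exp (-(11 / 6))) * ((k : ℝ) * (1 / (1 - 3 / 2 / k))) := by ring
    _ ≤ (2 * Real.exp (-(11 / 6))) * (k + 2) := mul_le_mul_of_nonneg_left h4 (by linarith)
    _ ≤ 0.32 * (k + 2) := mul_le_mul_of_nonneg_right h5.le (by linarith)
    _ < (q : ℝ) + 2 := by
        norm_num
        linarith
    _ = _ := by push_cast; ring

/-- four `k` summands -/
theorem fourk (k m t : ℕ) (hk : 6 ≤ k) (hm : m = k / 3 + 2) (ht : t + m = 4 * k) :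
    dimH {θ : Fin m → ℝ | ¬ Cov k t m θ} < (m : ℝ≥0∞) := by
  obtain ⟨t₁, t₂, rfl, h12, h21⟩ : ∃ t₁ t₂ : ℕ, t = t₁ + t₂ ∧ t₁ ≤ t₂ ∧ t₂ ≤ t₁ + 1 :=
    ⟨t / 2, t - t / 2, by omega, by omega, by omega⟩
  have h1 := numer k hk t₁ (by omega)
  rw [← hm] at h1
  have hk0 : (6 : ℝ) ≤ k := by exact_mod_cast hk
  have hm4 : (4 : ℝ) ≤ m := by
    have : 4 ≤ m := by omega
    exact_mod_cast this
  have h0 : 0 ≤ 1 - 1 / (k : ℝ) := by
    have : 1 / (k : ℝ) ≤ 1 := by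
      rw [div_le_one (by linarith)]
      linarith
    linarith
  have h01 : 1 - 1 / (k : ℝ) ≤ 1 := by
    have : 0 ≤ 1 / (k : ℝ) := by positivity
    linarith
  have h2 : (k : ℝ) * (1 - 1 / (k : ℝ)) ^ t₂ ≤ (k : ℝ) * (1 - 1 / (k : ℝ)) ^ t₁ :=
    mul_le_mul_of_nonneg_left (pow_le_pow_of_le_one h0 h01 h12) (by linarith)
  exact general k t₁ t₂ m (by omega) (by omega) (by linarith) (by linarith)

end Pool.Agent.D0H17.MW
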