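import Mathlib

set_option autoImplicit false

/-! Exponential sums over shifted powers: the first derivative test, the mean value and the mean
square over the shift, the deterministic approximation for small frequencies. -/

namespace Pool.Agent.D0H17.MW

open Finset MeasureTheory

/-- `e(x) = exp(2 π i x)` -/
noncomputable def e (x : ℝ) : ℂ := Complex.exp (((2 * Real.pi * x : ℝ) : ℂ) * Complex.I)

lemma norm_e (x : ℝ) : ‖e x‖ = 1 := Complex.norm_exp_ofReal_mul_I _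

lemma e_add (x y : ℝ) : e (x + y) = e x * e y := by
  unfold e
  rw [← Complex.exp_add]
  congr 1
  push_cast
  ring

lemma e_zero : e 0 = 1 := by simp [e]

lemma e_sum {ι : Type*} (s : Finset ι) (f : ι → ℝ) : e (∑ i ∈ s, f i) = ∏ i ∈ s, e (f i) := by
  classical
  induction s using Finset.induction_on with
  | empty => simp [e_zero]
  | insert a s ha ih => rw [sum_insert ha, prod_insert ha, e_add, ih]

lemma conj_e (x : ℝ) : (starRingEnd ℂ) (e x) = e (-x) := by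
  unfold e
  rw [← Complex.exp_conj, map_mul, Complex.conj_ofReal, Complex.conj_I]
  congr 1
  push_cast
  ring

lemma e_sub (x y : ℝ) : e (x - y) = e x * (starRingEnd ℂ) (e y) := by
  rw [conj_e, sub_eq_add_neg, e_add]

lemma continuous_e : Continuous e := by
  unfold e
  fun_prop

lemma e_int (n : ℤ) : e (n : ℝ) = 1 := by
  unfold e
  rw [Complex.exp_eq_one_iff]
  exact ⟨n, by push_cast; ring⟩

lemma e_eq_one {x : ℝ} (h : e x = 1) : ∃ n : ℤ, x = n := by
  unfold e at h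
  rw [Complex.exp_eq_one_iff] at h
  obtain ⟨n, hn⟩ := h
  refine ⟨n, ?_⟩
  have h1 : ((2 * Real.pi * x : ℝ) : ℂ) * Complex.I = ((n * (2 * Real.pi) : ℝ) : ℂ) * Complex.I := by
    rw [hn]; push_cast; ring
  have h2 := mul_right_cancel₀ Complex.I_ne_zero h1
  have h3 : 2 * Real.pi * x = n * (2 * Real.pi) := by exact_mod_cast h2
  have hpi := Real.pi_pos
  have h4 : (2 * Real.pi) * x = (2 * Real.pi) * n := by linarith
  exact mul_left_cancel₀ (by positivity) h4

lemma e_hasDeriv (φ : ℝ → ℝ) (d x : ℝ) (h : HasDerivAt φ d x) :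
    HasDerivAt (fun x => e (φ x)) (e (φ x) * (2 * Real.pi * Complex.I * d)) x := by
  have h1 : HasDerivAt (fun x => ((2 * Real.pi * φ x : ℝ) : ℂ) * Complex.I)
      (((2 * Real.pi * d : ℝ) : ℂ) * Complex.I) x :=
    ((h.const_mul (2 * Real.pi)).ofReal_comp).mul_const Complex.I
  have h2 := h1.cexp
  have e1 : e (φ x) * (2 * Real.pi * Complex.I * d) =
      Complex.exp (((2 * Real.pi * φ x : ℝ) : ℂ) * Complex.I) *
        (((2 * Real.pi * d : ℝ) : ℂ) * Complex.I) := by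
    unfold e
    push_cast
    ring
  rw [e1]
  exact h2

/-- first derivative test -/
lemma vdc (u v lam : ℝ) (huv : u ≤ v) (φ φ' φ'' : ℝ → ℝ) (h1 : ∀ x, HasDerivAt φ (φ' x) x)
    (h2 : ∀ x, HasDerivAt φ' (φ'' x) x) (hc : Continuous φ'') (hlam : 0 < lam)
    (hlow : ∀ x ∈ Set.Icc u v, lam ≤ φ' x) (hmono : ∀ x ∈ Set.Icc u v, 0 ≤ φ'' x) :
    ‖∫ x in u..v, e (φ x)‖ ≤ 1 / lam := by
  have hφc : Continuous φ := continuous_iff_continuousAt.2 fun x => (h1 x).continuousAt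
  have hφ'c : Continuous φ' := continuous_iff_continuousAt.2 fun x => (h2 x).continuousAt
  have hIcc : Set.uIcc u v = Set.Icc u v := Set.uIcc_of_le huv
  have hne : ∀ x ∈ Set.Icc u v, φ' x ≠ 0 := fun x hx => by
    have := hlow x hx
    linarith
  set w : ℂ := (2 * Real.pi * Complex.I)⁻¹ with hw
  have hpi : (2 * Real.pi * Complex.I : ℂ) ≠ 0 := Complex.two_pi_I_ne_zero
  have hwn : ‖w‖ = 1 / (2 * Real.pi) := by
    rw [hw, norm_inv, norm_mul, norm_mul, Complex.norm_I, mul_one, Complex.norm_real,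
      Complex.norm_ofNat, Real.norm_eq_abs, abs_of_pos Real.pi_pos, one_div]
  have hinv : ∀ x ∈ Set.Icc u v, HasDerivAt (fun x => (φ' x)⁻¹) (-(φ'' x) / (φ' x) ^ 2) x :=
    fun x hx => (h2 x).inv (hne x hx)
  have hG : ∀ x ∈ Set.Icc u v, HasDerivAt (fun x => e (φ x) * w * (((φ' x)⁻¹ : ℝ) : ℂ))
      (e (φ x) + e (φ x) * w * ((-(φ'' x) / (φ' x) ^ 2 : ℝ) : ℂ)) x := by
    intro x hx
    have h3 := ((e_hasDeriv φ (φ' x) x (h1 x)).mul_const w).mul (hinv x hx).ofReal_comp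
    have hx' : ((φ' x : ℝ) : ℂ) ≠ 0 := by exact_mod_cast hne x hx
    have e1 : e (φ x) + e (φ x) * w * ((-(φ'' x) / (φ' x) ^ 2 : ℝ) : ℂ) =
        e (φ x) * (2 * Real.pi * Complex.I * (φ' x)) * w * (((φ' x)⁻¹ : ℝ) : ℂ) +
          e (φ x) * w * ((-(φ'' x) / (φ' x) ^ 2 : ℝ) : ℂ) := by
      congr 1
      rw [hw]
      push_cast
      field_simp
    rw [e1]
    exact h3
  have hcE : Continuous fun x => e (φ x) := continuous_e.comp hφc
  have hcR : ContinuousOn (fun x => (-(φ'' x) / (φ' x) ^ 2 : ℝ)) (Set.Icc u v) := by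
    apply ContinuousOn.div hc.neg.continuousOn (hφ'c.pow 2).continuousOn
    intro x hx
    exact pow_ne_zero 2 (hne x hx)
  have hcR2 : ContinuousOn (fun x => e (φ x) * w * ((-(φ'' x) / (φ' x) ^ 2 : ℝ) : ℂ))
      (Set.Icc u v) :=
    (hcE.mul continuous_const).continuousOn.mul (Complex.continuous_ofReal.comp_continuousOn hcR)
  have hi1 : IntervalIntegrable (fun x => e (φ x)) volume u v := hcE.intervalIntegrable u v
  have hi2 : IntervalIntegrable (fun x => e (φ x) * w * ((-(φ'' x) / (φ' x) ^ 2 : ℝ) : ℂ))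
      volume u v := by
    apply ContinuousOn.intervalIntegrable
    rwa [hIcc]
  have hi3 : IntervalIntegrable (fun x => (-(φ'' x) / (φ' x) ^ 2 : ℝ)) volume u v := by
    apply ContinuousOn.intervalIntegrable
    rwa [hIcc]
  have hFTC := intervalIntegral.integral_eq_sub_of_hasDerivAt
    (fun x hx => hG x (by rwa [hIcc] at hx)) (hi1.add hi2)
  rw [intervalIntegral.integral_add hi1 hi2] at hFTC
  have hFTC2 := intervalIntegral.integral_eq_sub_of_hasDerivAt
    (fun x hx => hinv x (by rwa [hIcc] at hx)) hi3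
  have hu : u ∈ Set.Icc u v := ⟨le_rfl, huv⟩
  have hv : v ∈ Set.Icc u v := ⟨huv, le_rfl⟩
  have hpu : 0 < φ' u := lt_of_lt_of_le hlam (hlow u hu)
  have hpv : 0 < φ' v := lt_of_lt_of_le hlam (hlow v hv)
  have hGn : ∀ x ∈ Set.Icc u v, ‖e (φ x) * w * (((φ' x)⁻¹ : ℝ) : ℂ)‖ =
      1 / (2 * Real.pi) * (φ' x)⁻¹ := by
    intro x hx
    have : 0 < φ' x := lt_of_lt_of_le hlam (hlow x hx)
    rw [norm_mul, norm_mul, norm_e, one_mul, hwn, Complex.norm_real, Real.norm_of_nonneg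
      (by positivity)]
  have hR : ‖∫ x in u..v, e (φ x) * w * ((-(φ'' x) / (φ' x) ^ 2 : ℝ) : ℂ)‖ ≤
      1 / (2 * Real.pi) * ((φ' u)⁻¹ - (φ' v)⁻¹) := by
    refine (intervalIntegral.norm_integral_le_integral_norm huv).trans ?_
    have e2 : ∫ x in u..v, ‖e (φ x) * w * ((-(φ'' x) / (φ' x) ^ 2 : ℝ) : ℂ)‖ =
        ∫ x in u..v, 1 / (2 * Real.pi) * -(-(φ'' x) / (φ' x) ^ 2) := by
      apply intervalIntegral.integral_congr
      intro x hx
      rw [hIcc] at hx
      simp only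
      rw [norm_mul, norm_mul, norm_e, one_mul, hwn, Complex.norm_real, Real.norm_eq_abs,
        abs_of_nonpos]
      have h5 := hmono x hx
      have h6 : 0 ≤ φ'' x / (φ' x) ^ 2 := by positivity
      rw [neg_div]
      linarith
    rw [e2, intervalIntegral.integral_const_mul, intervalIntegral.integral_neg, hFTC2]
    apply le_of_eq
    ring
  have e3 : ∫ x in u..v, e (φ x) = (e (φ v) * w * (((φ' v)⁻¹ : ℝ) : ℂ) -
      e (φ u) * w * (((φ' u)⁻¹ : ℝ) : ℂ)) -
        ∫ x in u..v, e (φ x) * w * ((-(φ'' x) / (φ' x) ^ 2 : ℝ) : ℂ) := by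
    rw [← hFTC]
    ring
  rw [e3]
  have hpi0 := Real.pi_pos
  calc _ ≤ (1 / (2 * Real.pi) * (φ' v)⁻¹ + 1 / (2 * Real.pi) * (φ' u)⁻¹) +
        1 / (2 * Real.pi) * ((φ' u)⁻¹ - (φ' v)⁻¹) := by
        refine (norm_sub_le _ _).trans (add_le_add ((norm_sub_le _ _).trans (le_of_eq ?_)) hR)
        rw [hGn v hv, hGn u hu]
    _ = 1 / Real.pi * (φ' u)⁻¹ := by
        field_simp
        ring
    _ ≤ 1 * lam⁻¹ := by
        gcongr
        · rw [div_le_one hpi0]
          linarith [Real.pi_gt_three]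
        · exact hlow u hu
    _ = 1 / lam := by rw [one_mul, one_div]

/-- `∑_{P ≤ y < M} e(α (y + θ)^k)` -/
noncomputable def S (k P M : ℕ) (α θ : ℝ) : ℂ := ∑ y ∈ Ico P M, e (α * ((y : ℝ) + θ) ^ k)

/-- `∫_P^M e(α u^k) du` -/
noncomputable def G (k P M : ℕ) (α : ℝ) : ℂ := ∫ u in (P : ℝ)..(M : ℝ), e (α * u ^ k)

lemma continuous_S (k P M : ℕ) (α : ℝ) : Continuous (S k P M α) := by
  unfold S
  refine continuous_finsetSum _ fun y _ => ?_
  exact continuous_e.comp (by fun_prop)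

lemma cont_pow (k : ℕ) (α : ℝ) : Continuous fun u : ℝ => e (α * u ^ k) :=
  continuous_e.comp (by fun_prop)

/-- sums over integers of integrals over unit intervals -/
lemma sum_unit (f : ℝ → ℂ) (hf : Continuous f) (P n : ℕ) :
    ∑ i ∈ range n, ∫ θ in (0 : ℝ)..1, f ((P : ℝ) + i + θ) = ∫ u in (P : ℝ)..((P : ℝ) + n), f u := by
  induction n with
  | zero => simp
  | succ n ih =>
    rw [sum_range_succ, ih]
    have h1 : ∫ θ in (0 : ℝ)..1, f ((P : ℝ) + n + θ) = ∫ u in ((P : ℝ) + n)..((P : ℝ) + (n + 1 : ℕ)), f u := by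
      rw [intervalIntegral.integral_comp_add_left (fun u => f u) ((P : ℝ) + n)]
      congr 1
      · ring
      · push_cast; ring
    rw [h1]
    exact intervalIntegral.integral_add_adjacent_intervals (hf.intervalIntegrable _ _)
      (hf.intervalIntegrable _ _)

lemma G_eq (k P M : ℕ) (hPM : P ≤ M) (α : ℝ) : ∫ θ in (0 : ℝ)..1, S k P M α θ = G k P M α := by
  unfold S G
  rw [intervalIntegral.integral_finsetSum]
  · rw [Finset.sum_Ico_eq_sum_range]
    have h := sum_unit (fun u => e (α * u ^ k)) (cont_pow k α) P (M - P)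
    have h2 : (P : ℝ) + ((M - P : ℕ) : ℝ) = M := by
      rw [Nat.cast_sub hPM]; ring
    rw [h2] at h
    rw [← h]
    refine sum_congr rfl fun i _ => ?_
    push_cast
    rfl
  · intro y _
    exact (continuous_e.comp (by fun_prop)).intervalIntegrable _ _

lemma S_conj (k P M : ℕ) (α θ : ℝ) : S k P M (-α) θ = (starRingEnd ℂ) (S k P M α θ) := by
  unfold S
  rw [map_sum]
  refine sum_congr rfl fun y _ => ?_
  rw [conj_e, neg_mul]

lemma G_conj (k P M : ℕ) (α : ℝ) : ‖G k P M (-α)‖ = ‖G k P M α‖ := by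
  have h : G k P M (-α) = (starRingEnd ℂ) (G k P M α) := by
    unfold G
    rw [← intervalIntegral.intervalIntegral_conj]
    refine intervalIntegral.integral_congr fun u _ => ?_
    show _ = (starRingEnd ℂ) (e (α * u ^ k))
    rw [conj_e, neg_mul]
  rw [h, RCLike.norm_conj]

lemma norm_S_le (k P M : ℕ) (α θ : ℝ) : ‖S k P M α θ‖ ≤ ((M - P : ℕ) : ℝ) := by
  unfold S
  refine (norm_sum_le _ _).trans ?_
  simp [norm_e]

lemma pow_diff (n : ℕ) {u D : ℝ} (hu : 0 ≤ u) (hD : 0 ≤ D) :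
    D * u ^ n ≤ (u + D) ^ (n + 1) - u ^ (n + 1) := by
  have h1 : u ^ n ≤ (u + D) ^ n := pow_le_pow_left₀ hu (by linarith) n
  have h2 : (u + D) * u ^ n ≤ (u + D) * (u + D) ^ n := mul_le_mul_of_nonneg_left h1 (by linarith)
  have h3 : (u + D) ^ (n + 1) = (u + D) * (u + D) ^ n := by ring
  have h4 : u ^ (n + 1) = u * u ^ n := by ring
  rw [h3, h4]
  linarith

lemma G_le_pos (n P M : ℕ) (hP : 1 ≤ P) (hPM : P ≤ M) {α : ℝ} (hα : 0 < α) :
    ‖G (n + 2) P M α‖ ≤ 1 / (α * (P : ℝ) ^ (n + 1)) := by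
  have hP0 : (1 : ℝ) ≤ P := by exact_mod_cast hP
  unfold G
  refine vdc _ _ _ (by exact_mod_cast hPM) (fun u => α * u ^ (n + 2))
    (fun u => α * ((n + 2 : ℕ) * u ^ (n + 1))) (fun u => α * ((n + 2 : ℕ) * ((n + 1 : ℕ) * u ^ n)))
    (fun x => ?_) (fun x => ?_) (by fun_prop) (by positivity) (fun x hx => ?_) (fun x hx => ?_)
  · exact (hasDerivAt_pow (n + 2) x).const_mul α
  · exact ((hasDerivAt_pow (n + 1) x).const_mul _).const_mul α
  · have h1 : (P : ℝ) ^ (n + 1) ≤ x ^ (n + 1) := pow_le_pow_left₀ (by positivity) hx.1 _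
    have h2 : (1 : ℝ) ≤ ((n + 2 : ℕ) : ℝ) := by exact_mod_cast (by omega)
    refine mul_le_mul_of_nonneg_left ?_ hα.le
    nlinarith [h1, h2, pow_nonneg (show (0 : ℝ) ≤ P by linarith) (n + 1)]
  · have hx0 : 0 ≤ x := le_trans (by positivity) hx.1
    positivity

lemma G_le (n P M : ℕ) (hP : 1 ≤ P) (hPM : P ≤ M) {α : ℝ} (hα : α ≠ 0) :
    ‖G (n + 2) P M α‖ ≤ 1 / (|α| * (P : ℝ) ^ (n + 1)) := by
  rcases lt_or_gt_of_ne hα with h | h
  · rw [← G_conj, abs_of_neg h]
    exact G_le_pos n P M hP hPM (by linarith)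
  · rw [abs_of_pos h]
    exact G_le_pos n P M hP hPM h

/-- the correlation integrals -/
lemma corr_le (n P N : ℕ) (hP : 1 ≤ P) {α : ℝ} (hα : 0 < α) (D : ℕ) (hD : 1 ≤ D) :
    ‖∫ u in (P : ℝ)..((P : ℝ) + N), e (α * ((u + D) ^ (n + 2) - u ^ (n + 2)))‖ ≤
      1 / (α * D * (P : ℝ) ^ n) := by
  have hP0 : (1 : ℝ) ≤ P := by exact_mod_cast hP
  have hD0 : (1 : ℝ) ≤ D := by exact_mod_cast hD
  have h0 : ∀ (m : ℕ) (x : ℝ), HasDerivAt (fun u : ℝ => (u + D) ^ (m + 1)) (((m + 1 : ℕ) : ℝ) * (x + D) ^ m) x := by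
    intro m x
    have h := ((hasDerivAt_id x).add_const (D : ℝ)).fun_pow (m + 1)
    simpa using h
  refine vdc _ _ _ (by have := Nat.cast_nonneg (α := ℝ) N; linarith)
    (fun u => α * ((u + D) ^ (n + 2) - u ^ (n + 2)))
    (fun u => α * ((n + 2 : ℕ) * (u + D) ^ (n + 1) - (n + 2 : ℕ) * u ^ (n + 1)))
    (fun u => α * ((n + 2 : ℕ) * ((n + 1 : ℕ) * (u + D) ^ n) - (n + 2 : ℕ) * ((n + 1 : ℕ) * u ^ n)))
    (fun x => ?_) (fun x => ?_) (by fun_prop) (by positivity) (fun x hx => ?_) (fun x hx => ?_)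
  · exact ((h0 (n + 1) x).sub (hasDerivAt_pow (n + 2) x)).const_mul α
  · exact (((h0 n x).const_mul _).sub ((hasDerivAt_pow (n + 1) x).const_mul _)).const_mul α
  · have hx0 : 0 ≤ x := le_trans (by positivity) hx.1
    have h1 := pow_diff n hx0 (show (0 : ℝ) ≤ D by linarith)
    have h2 : (P : ℝ) ^ n ≤ x ^ n := pow_le_pow_left₀ (by positivity) hx.1 _
    have h3 : (D : ℝ) * (P : ℝ) ^ n ≤ D * x ^ n := mul_le_mul_of_nonneg_left h2 (by linarith)
    have h4 : (1 : ℝ) ≤ ((n + 2 : ℕ) : ℝ) := by exact_mod_cast (by omega)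
    have h5 : 0 ≤ (D : ℝ) * (P : ℝ) ^ n := by positivity
    rw [mul_assoc]
    refine mul_le_mul_of_nonneg_left ?_ hα.le
    rw [← mul_sub]
    calc (D : ℝ) * (P : ℝ) ^ n ≤ (x + D) ^ (n + 1) - x ^ (n + 1) := h3.trans h1
      _ ≤ _ := le_mul_of_one_le_left (le_trans h5 (h3.trans h1)) h4
  · have hx0 : 0 ≤ x := le_trans (by positivity) hx.1
    have h1 : x ^ n ≤ (x + D) ^ n := pow_le_pow_left₀ hx0 (by linarith) n
    refine mul_nonneg hα.le ?_
    rw [← mul_sub, ← mul_sub]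
    refine mul_nonneg (by positivity) (mul_nonneg (by positivity) (by linarith))

/-- the square of a sum -/
lemma normSq_sum (f : ℕ → ℂ) (N : ℕ) :
    ‖∑ i ∈ range (N + 1), f i‖ ^ 2 = ∑ i ∈ range (N + 1), ‖f i‖ ^ 2 +
      2 * (∑ d ∈ range N, ∑ i ∈ range (N - d), f (i + d + 1) * (starRingEnd ℂ) (f i)).re := by
  have h1 : ∑ d ∈ range N, ∑ i ∈ range (N - d), f (i + d + 1) * (starRingEnd ℂ) (f i) =
      ∑ j ∈ range N, ∑ i ∈ range (j + 1), f (j + 1) * (starRingEnd ℂ) (f i) := by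
    have h := Finset.sum_range_diag_flip N (fun d i => f (i + d + 1) * (starRingEnd ℂ) (f i))
    rw [← h]
    refine sum_congr rfl fun j _ => ?_
    rw [← sum_range_reflect (fun i => f (j + 1) * (starRingEnd ℂ) (f i))]
    refine sum_congr rfl fun d hd => ?_
    rw [mem_range] at hd
    have e1 : j - d + d + 1 = j + 1 := by omega
    have e2 : j + 1 - 1 - d = j - d := by omega
    rw [e1, e2]
  rw [h1]
  clear h1
  induction N with
  | zero => simp
  | succ N ih =>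
    rw [sum_range_succ (fun i => f i) (N + 1), sum_range_succ (fun i => ‖f i‖ ^ 2) (N + 1),
      sum_range_succ (fun j => ∑ i ∈ range (j + 1), f (j + 1) * (starRingEnd ℂ) (f i)) N, Complex.add_re]
    have h2 : ‖∑ i ∈ range (N + 1), f i + f (N + 1)‖ ^ 2 = ‖∑ i ∈ range (N + 1), f i‖ ^ 2 +
        ‖f (N + 1)‖ ^ 2 + 2 * (∑ i ∈ range (N + 1), f (N + 1) * (starRingEnd ℂ) (f i)).re := by
      rw [← mul_sum, ← map_sum]
      set s := ∑ i ∈ range (N + 1), f i
      rw [← Complex.normSq_eq_norm_sq, ← Complex.normSq_eq_norm_sq, ← Complex.normSq_eq_norm_sq,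
        Complex.normSq_add]
      have h3 : (s * (starRingEnd ℂ) (f (N + 1))).re = (f (N + 1) * (starRingEnd ℂ) s).re := by
        simp [Complex.mul_re]
        ring
      rw [h3]
    rw [h2, ih]
    ring

lemma mean_sq_pos (n P N : ℕ) (hP : 1 ≤ P) {α : ℝ} (hα : 0 < α) :
    ∫ θ in (0 : ℝ)..1, ‖S (n + 2) P (P + (N + 1)) α θ‖ ^ 2 ≤
      (N + 1 : ℝ) + 2 * (1 + Real.log (N + 1)) / (α * (P : ℝ) ^ n) := by
  set f : ℕ → ℝ → ℂ := fun i θ => e (α * ((P : ℝ) + i + θ) ^ (n + 2)) with hf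
  have hfc : ∀ i, Continuous (f i) := fun i => continuous_e.comp (by fun_prop)
  have h1 : ∀ θ, S (n + 2) P (P + (N + 1)) α θ = ∑ i ∈ range (N + 1), f i θ := by
    intro θ
    unfold S
    rw [Finset.sum_Ico_eq_sum_range]
    have e1 : P + (N + 1) - P = N + 1 := by omega
    rw [e1]
    refine sum_congr rfl fun i _ => ?_
    rw [hf]
    push_cast
    rfl
  have h2 : ∀ θ, ‖S (n + 2) P (P + (N + 1)) α θ‖ ^ 2 = (N + 1 : ℝ) +
      2 * (∑ d ∈ range N, ∑ i ∈ range (N - d), f (i + d + 1) θ * (starRingEnd ℂ) (f i θ)).re := by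
    intro θ
    rw [h1, normSq_sum (fun i => f i θ)]
    congr 1
    simp [hf, norm_e]
  have hg : ∀ d i θ, f (i + d + 1) θ * (starRingEnd ℂ) (f i θ) =
      (fun u : ℝ => e (α * ((u + (d + 1 : ℕ)) ^ (n + 2) - u ^ (n + 2)))) ((P : ℝ) + i + θ) := by
    intro d i θ
    simp only [hf]
    rw [← e_sub]
    congr 1
    push_cast
    ring
  have hgc : ∀ d : ℕ, Continuous (fun u : ℝ => e (α * ((u + (d + 1 : ℕ)) ^ (n + 2) - u ^ (n + 2)))) :=
    fun d => continuous_e.comp (by fun_prop)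
  have h3 : ∫ θ in (0 : ℝ)..1, ∑ d ∈ range N, ∑ i ∈ range (N - d),
      f (i + d + 1) θ * (starRingEnd ℂ) (f i θ) =
      ∑ d ∈ range N, ∫ u in (P : ℝ)..((P : ℝ) + (N - d : ℕ)),
        e (α * ((u + (d + 1 : ℕ)) ^ (n + 2) - u ^ (n + 2))) := by
    rw [intervalIntegral.integral_finsetSum]
    · refine sum_congr rfl fun d _ => ?_
      rw [intervalIntegral.integral_finsetSum]
      · rw [← sum_unit _ (hgc d) P (N - d)]
        refine sum_congr rfl fun i _ => ?_
        exact intervalIntegral.integral_congr fun θ _ => hg d i θ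
      · intro i _
        exact ((hfc _).mul (Complex.continuous_conj.comp (hfc _))).intervalIntegrable _ _
    · intro d _
      exact (continuous_finsetSum _ fun i _ => (hfc _).mul
        (Complex.continuous_conj.comp (hfc _))).intervalIntegrable _ _
  have hcont : Continuous fun θ => ∑ d ∈ range N, ∑ i ∈ range (N - d),
      f (i + d + 1) θ * (starRingEnd ℂ) (f i θ) :=
    continuous_finsetSum _ fun d _ => continuous_finsetSum _ fun i _ => (hfc _).mul
        (Complex.continuous_conj.comp (hfc _))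
  have h4 : ∫ θ in (0 : ℝ)..1, ‖S (n + 2) P (P + (N + 1)) α θ‖ ^ 2 = (N + 1 : ℝ) +
      2 * (∫ θ in (0 : ℝ)..1, ∑ d ∈ range N, ∑ i ∈ range (N - d),
        f (i + d + 1) θ * (starRingEnd ℂ) (f i θ)).re := by
    have hc1 : IntervalIntegrable (fun _ : ℝ => (N + 1 : ℝ)) volume 0 1 :=
      continuous_const.intervalIntegrable _ _
    have hc2 : IntervalIntegrable (fun θ : ℝ => 2 * (∑ d ∈ range N, ∑ i ∈ range (N - d),
        f (i + d + 1) θ * (starRingEnd ℂ) (f i θ)).re) volume 0 1 :=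
      (continuous_const.mul (Complex.continuous_re.comp hcont)).intervalIntegrable _ _
    have hre := Complex.reCLM.intervalIntegral_comp_comm (μ := volume) (a := (0 : ℝ)) (b := 1)
      (hcont.intervalIntegrable 0 1)
    simp only [Complex.reCLM_apply] at hre
    rw [intervalIntegral.integral_congr (fun θ _ => h2 θ), intervalIntegral.integral_add hc1 hc2,
      intervalIntegral.integral_const_mul, intervalIntegral.integral_const, hre]
    simp
  rw [h4, h3]
  have h5 : (∑ d ∈ range N, ∫ u in (P : ℝ)..((P : ℝ) + (N - d : ℕ)),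
        e (α * ((u + (d + 1 : ℕ)) ^ (n + 2) - u ^ (n + 2)))).re ≤
      (1 + Real.log (N + 1)) / (α * (P : ℝ) ^ n) := by
    refine (Complex.re_le_norm _).trans ((norm_sum_le _ _).trans ?_)
    have h6 : ∀ d ∈ range N, ‖∫ u in (P : ℝ)..((P : ℝ) + (N - d : ℕ)),
        e (α * ((u + (d + 1 : ℕ)) ^ (n + 2) - u ^ (n + 2)))‖ ≤
        ((d + 1 : ℕ) : ℝ)⁻¹ * (1 / (α * (P : ℝ) ^ n)) := by
      intro d _
      refine (corr_le n P (N - d) hP hα (d + 1) (by omega)).trans (le_of_eq ?_)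
      have hP0 : (P : ℝ) ≠ 0 := by
        have : (1 : ℝ) ≤ P := by exact_mod_cast hP
        linarith
      have : ((d + 1 : ℕ) : ℝ) ≠ 0 := by positivity
      field_simp
    refine (sum_le_sum h6).trans ?_
    rw [← sum_mul, mul_one_div]
    refine div_le_div_of_nonneg_right ?_ (by positivity)
    have h7 := harmonic_le_one_add_log N
    have h8 : ((harmonic N : ℚ) : ℝ) = ∑ d ∈ range N, ((d + 1 : ℕ) : ℝ)⁻¹ := by
      simp [harmonic]
    rw [h8] at h7
    rcases Nat.eq_zero_or_pos N with rfl | hN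
    · simp
    · have : Real.log N ≤ Real.log (N + 1) :=
        Real.log_le_log (by exact_mod_cast hN) (by linarith)
      linarith
  have h6 : 2 * (1 + Real.log (N + 1)) / (α * (P : ℝ) ^ n) = 2 * ((1 + Real.log (N + 1)) / (α * (P : ℝ) ^ n)) := by
    ring
  rw [h6]
  linarith

lemma mean_sq (n P N : ℕ) (hP : 1 ≤ P) {α : ℝ} (hα : α ≠ 0) :
    ∫ θ in (0 : ℝ)..1, ‖S (n + 2) P (P + (N + 1)) α θ‖ ^ 2 ≤
      (N + 1 : ℝ) + 2 * (1 + Real.log (N + 1)) / (|α| * (P : ℝ) ^ n) := by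
  rcases lt_or_gt_of_ne hα with h | h
  · rw [abs_of_neg h]
    have h1 := mean_sq_pos n P N hP (show 0 < -α by linarith)
    simp_rw [S_conj, RCLike.norm_conj] at h1
    exact h1
  · rw [abs_of_pos h]
    exact mean_sq_pos n P N hP h

/-- the difference quotient bound -/
lemma norm_e_sub_e (x y : ℝ) : ‖e x - e y‖ ≤ 2 * Real.pi * |x - y| := by
  have h1 : e x - e y = e y * (e (x - y) - 1) := by
    rw [mul_sub, mul_one, ← e_add]
    congr 2
    ring
  rw [h1, norm_mul, norm_e, one_mul]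
  unfold e
  have h2 := Real.norm_exp_I_mul_ofReal_sub_one_le (x := 2 * Real.pi * (x - y))
  rw [mul_comm Complex.I] at h2
  refine h2.trans (le_of_eq ?_)
  rw [Real.norm_eq_abs, abs_mul, abs_of_pos (by positivity : (0 : ℝ) < 2 * Real.pi)]

lemma S_sub_G (k P M : ℕ) (hPM : P ≤ M) (α : ℝ) {θ : ℝ} (h0 : 0 ≤ θ) (h1 : θ ≤ 1) :
    ‖S k P M α θ - G k P M α‖ ≤ 2 * Real.pi * |α| * (M : ℝ) ^ k := by
  have h2 : G k P M α = ∑ i ∈ range (M - P), ∫ t in (0 : ℝ)..1, e (α * ((P : ℝ) + i + t) ^ k) := by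
    have h := sum_unit (fun u => e (α * u ^ k)) (cont_pow k α) P (M - P)
    have h3 : (P : ℝ) + ((M - P : ℕ) : ℝ) = M := by
      rw [Nat.cast_sub hPM]; ring
    rw [h3] at h
    rw [G, ← h]
  have h3 : S k P M α θ = ∑ i ∈ range (M - P), ∫ t in (0 : ℝ)..1, e (α * ((P : ℝ) + i + θ) ^ k) := by
    unfold S
    rw [Finset.sum_Ico_eq_sum_range]
    refine sum_congr rfl fun i _ => ?_
    simp
  rw [h2, h3, ← sum_sub_distrib]
  have h4 : ∀ i ∈ range (M - P), ‖(∫ t in (0 : ℝ)..1, e (α * ((P : ℝ) + i + θ) ^ k)) -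
      ∫ t in (0 : ℝ)..1, e (α * ((P : ℝ) + i + t) ^ k)‖ ≤
      2 * Real.pi * |α| * (((P : ℝ) + (i + 1 : ℕ)) ^ k - ((P : ℝ) + i) ^ k) := by
    intro i _
    have hc1 : IntervalIntegrable (fun _ : ℝ => e (α * ((P : ℝ) + i + θ) ^ k)) volume 0 1 :=
      continuous_const.intervalIntegrable _ _
    have hc2 : IntervalIntegrable (fun t : ℝ => e (α * ((P : ℝ) + i + t) ^ k)) volume 0 1 :=
      (continuous_e.comp (by fun_prop : Continuous fun t : ℝ => α * ((P : ℝ) + i + t) ^ k)).intervalIntegrable _ _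
    rw [← intervalIntegral.integral_sub hc1 hc2]
    have h5 := intervalIntegral.norm_integral_le_of_norm_le_const (a := (0 : ℝ)) (b := 1)
      (f := fun t => e (α * ((P : ℝ) + i + θ) ^ k) - e (α * ((P : ℝ) + i + t) ^ k))
      (C := 2 * Real.pi * |α| * (((P : ℝ) + (i + 1 : ℕ)) ^ k - ((P : ℝ) + i) ^ k)) (by
        intro t ht
        rw [Set.uIoc_of_le zero_le_one] at ht
        refine (norm_e_sub_e _ _).trans ?_
        rw [← mul_sub, abs_mul, ← mul_assoc]
        refine mul_le_mul_of_nonneg_left ?_ (by positivity)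
        have hP : (0 : ℝ) ≤ (P : ℝ) + i := by positivity
        have a1 : ((P : ℝ) + i) ^ k ≤ ((P : ℝ) + i + θ) ^ k := pow_le_pow_left₀ hP (by linarith) k
        have a2 : ((P : ℝ) + i) ^ k ≤ ((P : ℝ) + i + t) ^ k := pow_le_pow_left₀ hP (by linarith [ht.1]) k
        have a3 : ((P : ℝ) + i + θ) ^ k ≤ ((P : ℝ) + (i + 1 : ℕ)) ^ k :=
          pow_le_pow_left₀ (by linarith) (by push_cast; linarith) k
        have a4 : ((P : ℝ) + i + t) ^ k ≤ ((P : ℝ) + (i + 1 : ℕ)) ^ k :=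
          pow_le_pow_left₀ (by linarith [ht.1]) (by push_cast; linarith [ht.2]) k
        rw [abs_le]
        constructor <;> linarith)
    simpa using h5
  refine (norm_sum_le _ _).trans ((sum_le_sum h4).trans ?_)
  rw [← mul_sum, sum_range_sub (fun i : ℕ => ((P : ℝ) + (i : ℕ)) ^ k)]
  refine mul_le_mul_of_nonneg_left ?_ (by positivity)
  have h5 : (P : ℝ) + ((M - P : ℕ) : ℝ) = M := by
    rw [Nat.cast_sub hPM]; ring
  rw [h5]
  have : (0 : ℝ) ≤ ((P : ℝ) + ((0 : ℕ) : ℝ)) ^ k := by positivity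
  linarith

end Pool.Agent.D0H17.MW
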