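import Pool.Agent.D0H17.MW.Basic

set_option autoImplicit false

/-! A smooth function supported in `[1/3, 2/3]` and its Fourier expansion modulo `T`. -/

namespace Pool.Agent.D0H17.MW

open Finset MeasureTheory

/-- a smooth function with values in `[0, 1]`, zero outside `(1/3, 2/3)`, one on `[5/12, 7/12]` -/
noncomputable def K (v : ℝ) : ℝ := Real.smoothTransition (12 * v - 4) * Real.smoothTransition (8 - 12 * v)

lemma K_nonneg (v : ℝ) : 0 ≤ K v :=
  mul_nonneg (Real.smoothTransition.nonneg _) (Real.smoothTransition.nonneg _)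

lemma K_le_one (v : ℝ) : K v ≤ 1 :=
  mul_le_one₀ (Real.smoothTransition.le_one _) (Real.smoothTransition.nonneg _)
    (Real.smoothTransition.le_one _)

lemma K_zero_left {v : ℝ} (h : v ≤ 1 / 3) : K v = 0 := by
  unfold K
  rw [Real.smoothTransition.zero_of_nonpos (by linarith), zero_mul]

lemma K_zero_right {v : ℝ} (h : 2 / 3 ≤ v) : K v = 0 := by
  unfold K
  rw [Real.smoothTransition.zero_of_nonpos (x := 8 - 12 * v) (by linarith), mul_zero]

lemma K_pos_mem {v : ℝ} (h : 0 < K v) : 1 / 3 < v ∧ v < 2 / 3 := by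
  constructor
  · by_contra h1
    rw [K_zero_left (by linarith)] at h
    exact lt_irrefl _ h
  · by_contra h1
    rw [K_zero_right (by linarith)] at h
    exact lt_irrefl _ h

lemma K_one {v : ℝ} (h1 : 5 / 12 ≤ v) (h2 : v ≤ 7 / 12) : K v = 1 := by
  unfold K
  rw [Real.smoothTransition.one_of_one_le (by linarith), Real.smoothTransition.one_of_one_le (by linarith),
    one_mul]

lemma K_smooth : ContDiff ℝ 2 K := by
  unfold K
  refine ContDiff.mul ?_ ?_
  · exact Real.smoothTransition.contDiff.comp (by fun_prop)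
  · exact Real.smoothTransition.contDiff.comp (by fun_prop)

lemma continuous_K : Continuous K := K_smooth.continuous

lemma K_d1 (x : ℝ) : HasDerivAt K (deriv K x) x :=
  (K_smooth.differentiable (by norm_num) x).hasDerivAt

lemma K_smooth1 : ContDiff ℝ 1 (deriv K) := by
  have h := K_smooth
  rw [show (2 : WithTop ℕ∞) = 1 + 1 from by norm_num, contDiff_succ_iff_deriv] at h
  exact h.2.2

lemma K_d2 (x : ℝ) : HasDerivAt (deriv K) (deriv (deriv K) x) x :=
  (K_smooth1.differentiable (by norm_num) x).hasDerivAt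

lemma K_c2 : Continuous (deriv (deriv K)) := by
  have h := K_smooth1
  rw [show (1 : WithTop ℕ∞) = 0 + 1 from by norm_num, contDiff_succ_iff_deriv] at h
  exact h.2.2.continuous

lemma K_deriv_left {v : ℝ} (h : v < 1 / 3) : deriv K v = 0 := by
  have h1 : K =ᶠ[nhds v] fun _ => 0 := by
    filter_upwards [Iio_mem_nhds h] with x hx
    exact K_zero_left (le_of_lt hx)
  rw [h1.deriv_eq]
  simp

lemma K_deriv_right {v : ℝ} (h : 2 / 3 < v) : deriv K v = 0 := by
  have h1 : K =ᶠ[nhds v] fun _ => 0 := by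
    filter_upwards [Ioi_mem_nhds h] with x hx
    exact K_zero_right (le_of_lt hx)
  rw [h1.deriv_eq]
  simp

/-- the Fourier transform of `K` -/
noncomputable def KF (x : ℝ) : ℂ := ∫ v in (0 : ℝ)..1, (K v : ℂ) * e (-(x * v))

lemma ibp (f f' : ℝ → ℝ) (hf : ∀ x, HasDerivAt f (f' x) x) (hc : Continuous f') (h0 : f 0 = 0) (h1 : f 1 = 0)
    {x : ℝ} (hx : x ≠ 0) :
    ∫ v in (0 : ℝ)..1, (f v : ℂ) * e (-(x * v)) =
      (1 / (2 * Real.pi * Complex.I * x)) * ∫ v in (0 : ℝ)..1, (f' v : ℂ) * e (-(x * v)) := by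
  have hxc : (2 * Real.pi * Complex.I * x : ℂ) ≠ 0 := by
    have : (Real.pi : ℂ) ≠ 0 := by exact_mod_cast Real.pi_ne_zero
    have h2 : (x : ℂ) ≠ 0 := by exact_mod_cast hx
    simp [this, h2, Complex.I_ne_zero]
  set V : ℝ → ℂ := fun v => -(1 / (2 * Real.pi * Complex.I * x)) * e (-(x * v)) with hV
  have hVd : ∀ v, HasDerivAt V (e (-(x * v))) v := by
    intro v
    have h2 : HasDerivAt (fun v : ℝ => -(x * v)) (-x) v := by
      have := ((hasDerivAt_id v).const_mul x).fun_neg
      simpa using this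
    have h3 := (e_hasDeriv _ _ v h2).const_mul (-(1 / (2 * Real.pi * Complex.I * x)))
    have h4 : -(1 / (2 * Real.pi * Complex.I * x)) * (e (-(x * v)) * (2 * Real.pi * Complex.I * ((-x : ℝ) : ℂ))) =
        e (-(x * v)) := by
      have h2' : (x : ℂ) ≠ 0 := by exact_mod_cast hx
      have h3' : (Real.pi : ℂ) ≠ 0 := by exact_mod_cast Real.pi_ne_zero
      push_cast
      field_simp
    rw [h4] at h3
    exact h3
  have hfc : ∀ v, HasDerivAt (fun v => (f v : ℂ)) ((f' v : ℝ) : ℂ) v := fun v => (hf v).ofReal_comp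
  have hcont : Continuous fun v : ℝ => e (-(x * v)) := continuous_e.comp (by fun_prop)
  have h5 := intervalIntegral.integral_mul_deriv_eq_deriv_mul (a := (0 : ℝ)) (b := 1)
    (u := fun v => (f v : ℂ)) (v := V) (u' := fun v => ((f' v : ℝ) : ℂ)) (v' := fun v => e (-(x * v)))
    (fun v _ => hfc v) (fun v _ => hVd v)
    ((Complex.continuous_ofReal.comp hc).intervalIntegrable _ _) (hcont.intervalIntegrable _ _)
  rw [h5]
  simp only [h0, h1, Complex.ofReal_zero, zero_mul, sub_zero, zero_sub]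
  rw [← intervalIntegral.integral_neg, ← intervalIntegral.integral_const_mul]
  refine intervalIntegral.integral_congr fun v _ => ?_
  simp only [hV]
  ring

lemma KF_bound : ∃ C : ℝ, 1 ≤ C ∧ ∀ x : ℝ, ‖KF x‖ ≤ C / (1 + x ^ 2) := by
  obtain ⟨C, hC⟩ := (isCompact_Icc (a := (0 : ℝ)) (b := 1)).exists_bound_of_continuousOn
    (f := deriv (deriv K)) K_c2.continuousOn
  have hC0 : 0 ≤ C := (norm_nonneg _).trans (hC 0 (by simp))
  have hb : ∀ x, ‖KF x‖ ≤ 1 := by
    intro x
    unfold KF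
    refine (intervalIntegral.norm_integral_le_of_norm_le_const (C := 1) (fun v _ => ?_)).trans (by norm_num)
    rw [norm_mul, norm_e, mul_one, Complex.norm_real, Real.norm_of_nonneg (K_nonneg v)]
    exact K_le_one v
  refine ⟨1 + C, by linarith, fun x => ?_⟩
  rw [le_div_iff₀ (by positivity)]
  have h3 : ‖KF x‖ * x ^ 2 ≤ C := by
    by_cases hx : x = 0
    · rw [hx]; simpa using hC0
    · have e1 : KF x = (1 / (2 * Real.pi * Complex.I * x)) * ((1 / (2 * Real.pi * Complex.I * x)) *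
          ∫ v in (0 : ℝ)..1, ((deriv (deriv K) v : ℝ) : ℂ) * e (-(x * v))) := by
        unfold KF
        rw [ibp K (deriv K) K_d1 K_smooth1.continuous (K_zero_left (by norm_num)) (K_zero_right (by norm_num)) hx,
          ibp (deriv K) (deriv (deriv K)) K_d2 K_c2 (K_deriv_left (by norm_num)) (K_deriv_right (by norm_num)) hx]
      have e2 : ‖∫ v in (0 : ℝ)..1, ((deriv (deriv K) v : ℝ) : ℂ) * e (-(x * v))‖ ≤ C := by
        refine (intervalIntegral.norm_integral_le_of_norm_le_const (C := C) (fun v hv => ?_)).trans (by norm_num)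
        rw [norm_mul, norm_e, mul_one, Complex.norm_real]
        refine hC v ?_
        rw [Set.uIoc_of_le (by norm_num)] at hv
        exact ⟨hv.1.le, hv.2⟩
      have e3 : ‖(1 / (2 * Real.pi * Complex.I * x) : ℂ)‖ = 1 / (2 * Real.pi * |x|) := by
        rw [norm_div, norm_mul, norm_mul, norm_mul]
        simp [abs_of_pos Real.pi_pos]
      rw [e1, norm_mul, norm_mul, e3]
      have hx' : 0 < |x| := abs_pos.2 hx
      have h4 : (1 / (2 * Real.pi * |x|)) * ((1 / (2 * Real.pi * |x|)) *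
          ‖∫ v in (0 : ℝ)..1, ((deriv (deriv K) v : ℝ) : ℂ) * e (-(x * v))‖) * x ^ 2 =
          (1 / (4 * Real.pi ^ 2)) * ‖∫ v in (0 : ℝ)..1, ((deriv (deriv K) v : ℝ) : ℂ) * e (-(x * v))‖ := by
        rw [← sq_abs x]
        field_simp
        ring
      rw [h4]
      have h5 : 1 / (4 * Real.pi ^ 2) ≤ 1 := by
        rw [div_le_one (by positivity)]
        nlinarith [Real.pi_gt_three]
      calc _ ≤ 1 * C := mul_le_mul h5 e2 (norm_nonneg _) zero_le_one
        _ = C := one_mul C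
  have h4 := hb x
  nlinarith

/-- the Fourier coefficients of `K` modulo `T` -/
noncomputable def kap (T : ℕ) (a : ℤ) : ℂ := (1 / (T : ℂ)) * KF ((a : ℝ) / T)

lemma kap_bound {C : ℝ} (hC : ∀ x : ℝ, ‖KF x‖ ≤ C / (1 + x ^ 2)) (T : ℕ) (a : ℤ) :
    ‖kap T a‖ ≤ C / (T * (1 + ((a : ℝ) / T) ^ 2)) := by
  unfold kap
  rw [norm_mul, norm_div, norm_one, Complex.norm_natCast]
  have h := hC ((a : ℝ) / T)
  calc 1 / (T : ℝ) * ‖KF ((a : ℝ) / T)‖ ≤ 1 / (T : ℝ) * (C / (1 + ((a : ℝ) / T) ^ 2)) :=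
        mul_le_mul_of_nonneg_left h (by positivity)
    _ = C / (T * (1 + ((a : ℝ) / T) ^ 2)) := by
        rw [div_mul_div_comm, one_mul]

lemma kap_summable (T : ℕ) (hT : 1 ≤ T) : Summable fun a : ℤ => ‖kap T a‖ := by
  obtain ⟨C, hC1, hC⟩ := KF_bound
  have hT0 : (1 : ℝ) ≤ T := by exact_mod_cast hT
  have h1 : Summable fun a : ℤ => C * T * (1 / (a : ℝ) ^ 2) :=
    ((Real.summable_one_div_int_pow (p := 2)).2 (by norm_num)).mul_left (C * T)
  refine Summable.of_norm_bounded_eventually (g := fun a : ℤ => C * T * (1 / (a : ℝ) ^ 2)) h1 ?_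
  have h2 : ({0} : Set ℤ)ᶜ ∈ (Filter.cofinite : Filter ℤ) := by
    rw [Filter.mem_cofinite]
    simp
  filter_upwards [h2] with a ha
  have ha0 : (a : ℝ) ≠ 0 := by
    intro h
    exact ha (by exact_mod_cast h)
  rw [norm_norm]
  refine (kap_bound hC T a).trans ?_
  have h3 : (0 : ℝ) < (a : ℝ) ^ 2 := by positivity
  have h4 : C * T * (1 / (a : ℝ) ^ 2) = C / ((a : ℝ) ^ 2 / T) := by
    field_simp
  rw [h4]
  refine div_le_div_of_nonneg_left (by linarith) (by positivity) ?_
  have h5 : (T : ℝ) * (1 + ((a : ℝ) / T) ^ 2) = T + (a : ℝ) ^ 2 / T := by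
    field_simp
  rw [h5]
  linarith

lemma kap_hasSum (T : ℕ) (hT : 2 ≤ T) {v : ℝ} (h1 : -((T : ℝ) / 2) ≤ v) (h2 : v < (T : ℝ) / 2) :
    HasSum (fun a : ℤ => kap T a * e ((a : ℝ) * v / T)) (K v : ℂ) := by
  have hT2 : (2 : ℝ) ≤ T := by exact_mod_cast hT
  have hT0 : (0 : ℝ) < T := by linarith
  haveI : Fact (0 < (T : ℝ)) := ⟨hT0⟩
  set a0 : ℝ := -((T : ℝ) / 2) with ha0
  set f : ℝ → ℂ := fun v => (K v : ℂ) with hf
  have hfc : Continuous f := Complex.continuous_ofReal.comp continuous_K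
  have hcont : Continuous (AddCircle.liftIco (T : ℝ) a0 f) := by
    refine AddCircle.liftIco_continuous ?_ hfc.continuousOn
    simp only [hf]
    rw [K_zero_left (by linarith), K_zero_right (by linarith)]
  set F : C(AddCircle (T : ℝ), ℂ) := ⟨AddCircle.liftIco (T : ℝ) a0 f, hcont⟩ with hF
  have hcoef : ∀ n : ℤ, fourierCoeff F n = kap T n := by
    intro n
    have h3 : fourierCoeff F n = fourierCoeff (AddCircle.liftIco (T : ℝ) a0 f) n := rfl
    rw [h3, fourierCoeff_liftIco_eq, fourierCoeffOn_eq_integral]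
    have h4 : ∀ x : ℝ, (fourier (-n)) (x : AddCircle (a0 + (T : ℝ) - a0)) • f x =
        (K x : ℂ) * e (-((n : ℝ) / T * x)) := by
      intro x
      rw [fourier_coe_apply, smul_eq_mul, mul_comm]
      simp only [hf]
      congr 1
      unfold e
      congr 1
      rw [show a0 + (T : ℝ) - a0 = T from by ring]
      push_cast
      ring
    simp_rw [h4]
    have h5 : ∫ x in a0..(a0 + T), (K x : ℂ) * e (-((n : ℝ) / T * x)) = KF ((n : ℝ) / T) := by
      have hc : Continuous fun x : ℝ => (K x : ℂ) * e (-((n : ℝ) / T * x)) :=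
        (Complex.continuous_ofReal.comp continuous_K).mul (continuous_e.comp (by fun_prop))
      rw [← intervalIntegral.integral_add_adjacent_intervals (b := 0) (hc.intervalIntegrable _ _)
        (hc.intervalIntegrable _ _),
        ← intervalIntegral.integral_add_adjacent_intervals (a := 0) (b := 1) (hc.intervalIntegrable _ _)
        (hc.intervalIntegrable _ _)]
      have h6 : ∫ x in a0..0, (K x : ℂ) * e (-((n : ℝ) / T * x)) = 0 := by
        have : ∫ x in a0..0, (K x : ℂ) * e (-((n : ℝ) / T * x)) = ∫ x in a0..0, (0 : ℂ) := by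
          refine intervalIntegral.integral_congr fun x hx => ?_
          rw [Set.uIcc_of_le (by linarith)] at hx
          show (K x : ℂ) * e (-((n : ℝ) / T * x)) = 0
          rw [K_zero_left (by linarith [hx.2])]
          simp
        rw [this]
        simp
      have h7 : ∫ x in (1 : ℝ)..(a0 + T), (K x : ℂ) * e (-((n : ℝ) / T * x)) = 0 := by
        have : ∫ x in (1 : ℝ)..(a0 + T), (K x : ℂ) * e (-((n : ℝ) / T * x)) =
            ∫ x in (1 : ℝ)..(a0 + T), (0 : ℂ) := by
          refine intervalIntegral.integral_congr fun x hx => ?_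
          rw [Set.uIcc_of_le (by linarith)] at hx
          show (K x : ℂ) * e (-((n : ℝ) / T * x)) = 0
          rw [K_zero_right (by linarith [hx.1])]
          simp
        rw [this]
        simp
      rw [h6, h7, zero_add, add_zero]
      rfl
    rw [h5]
    unfold kap
    rw [show a0 + (T : ℝ) - a0 = T from by ring, Complex.real_smul]
    push_cast
    ring
  have hsum : Summable (fourierCoeff F) := by
    have h3 : fourierCoeff F = fun n : ℤ => kap T n := funext hcoef
    rw [h3]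
    exact (kap_summable T (by omega)).of_norm
  have h8 := has_pointwise_sum_fourier_series_of_summable hsum (v : AddCircle (T : ℝ))
  have h9 : F (v : AddCircle (T : ℝ)) = (K v : ℂ) := by
    show AddCircle.liftIco (T : ℝ) a0 f (v : AddCircle (T : ℝ)) = _
    rw [AddCircle.liftIco_coe_apply]
    exact ⟨h1, by linarith⟩
  rw [h9] at h8
  have h10 : (fun a : ℤ => kap T a * e ((a : ℝ) * v / T)) =
      fun i => fourierCoeff F i • (fourier i) (v : AddCircle (T : ℝ)) := by
    funext a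
    rw [hcoef, fourier_coe_apply, smul_eq_mul]
    congr 1
    unfold e
    congr 1
    push_cast
    ring
  rw [h10]
  exact h8

/-- the truncated expansion -/
lemma kap_trunc (T : ℕ) (hT : 2 ≤ T) {ε : ℝ} (hε : 0 < ε) : ∃ A : ℕ, ∀ v : ℝ, -((T : ℝ) / 2) ≤ v →
    v < (T : ℝ) / 2 →
    ‖(K v : ℂ) - ∑ a ∈ Ico (-((A : ℤ) * T)) ((A : ℤ) * T), kap T a * e ((a : ℝ) * v / T)‖ ≤ ε := by
  have hs := kap_summable T (by omega)
  have h1 := hs.hasSum
  have h2 : ∃ s : Finset ℤ, ∀ t : Finset ℤ, s ⊆ t → |∑ a ∈ t, ‖kap T a‖ - ∑' a, ‖kap T a‖| < ε := by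
    have h3 := (Metric.tendsto_nhds.1 h1) ε hε
    simp only [SummationFilter.unconditional_filter, Filter.eventually_atTop, Real.dist_eq] at h3
    obtain ⟨s, hs⟩ := h3
    exact ⟨s, fun t ht => hs t ht⟩
  obtain ⟨s, hs2⟩ := h2
  obtain ⟨A, hA⟩ : ∃ A : ℕ, ∀ a ∈ s, a.natAbs < A := by
    refine ⟨s.sup Int.natAbs + 1, fun a ha => ?_⟩
    have := Finset.le_sup (f := Int.natAbs) ha
    omega
  refine ⟨A, fun v hv1 hv2 => ?_⟩
  set t : Finset ℤ := Ico (-((A : ℤ) * T)) ((A : ℤ) * T) with ht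
  have hst : s ⊆ t := by
    intro a ha
    have h4 := hA a ha
    rw [ht, Finset.mem_Ico]
    have h5 : (A : ℤ) ≤ (A : ℤ) * T := by
      have : (1 : ℤ) ≤ T := by exact_mod_cast (by omega : 1 ≤ T)
      nlinarith [Int.natCast_nonneg A]
    constructor <;> omega
  have h6 := hs2 t hst
  have h7 := kap_hasSum T hT hv1 hv2
  have h8 : ‖(K v : ℂ) - ∑ a ∈ t, kap T a * e ((a : ℝ) * v / T)‖ ≤
      ∑' a, ‖kap T a‖ - ∑ a ∈ t, ‖kap T a‖ := by
    have h9 := h7.summable.sum_add_tsum_compl (s := t)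
    rw [h7.tsum_eq] at h9
    have h10 := hs.sum_add_tsum_compl (s := t)
    rw [← h9, ← h10, add_sub_cancel_left, add_sub_cancel_left]
    have h11 : ∀ a : ℤ, ‖kap T a * e ((a : ℝ) * v / T)‖ = ‖kap T a‖ := by
      intro a
      rw [norm_mul, norm_e, mul_one]
    refine (norm_tsum_le_tsum_norm ?_).trans (le_of_eq ?_)
    · simp_rw [h11]
      exact hs.subtype _
    · simp_rw [h11]
  refine h8.trans ?_
  have := neg_le_abs (∑ a ∈ t, ‖kap T a‖ - ∑' a, ‖kap T a‖)
  linarith

end Pool.Agent.D0H17.MW
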