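import Pool.Agent.D0H17.MW.Grid
import Pool.Agent.N84.MD.A

set_option autoImplicit false

/-! The Hausdorff dimension of the set of bad shifts. -/

namespace Pool.Agent.D0H17.MW

open Finset MeasureTheory Filter
open scoped ENNReal

lemma two_rpow_le {u w : ℝ} (h : u ≤ w) : (2 : ℝ) ^ u ≤ (2 : ℝ) ^ w :=
  Real.rpow_le_rpow_of_exponent_le (by norm_num) h

lemma two_pow_rpow (j k : ℕ) : ((2 : ℝ) ^ j) ^ k = (2 : ℝ) ^ ((j : ℝ) * k) := by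
  rw [← pow_mul, ← Real.rpow_natCast]
  congr 1
  push_cast
  rfl

/-- the choice of `R` -/
def ee (m j : ℕ) : ℕ := j * m / (m + 1)

lemma ee_le (m j : ℕ) : (ee m j : ℝ) ≤ (j : ℝ) * m / (m + 1) := by
  rw [le_div_iff₀ (by positivity)]
  have h : ee m j * (m + 1) ≤ j * m := Nat.div_mul_le_self _ _
  exact_mod_cast h

lemma ee_ge (m j : ℕ) : (j : ℝ) * m / (m + 1) - 1 ≤ (ee m j : ℝ) := by
  have h : j * m < (ee m j + 1) * (m + 1) := by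
    unfold ee
    rw [add_mul, one_mul]
    have h1 := Nat.div_add_mod (j * m) (m + 1)
    have h2 := Nat.mod_lt (j * m) (show 0 < m + 1 by omega)
    nlinarith
  have h' : (j : ℝ) * m < ((ee m j : ℝ) + 1) * (m + 1) := by exact_mod_cast h
  have h3 : (j : ℝ) * m / (m + 1) < (ee m j : ℝ) + 1 := by
    rw [div_lt_iff₀ (by positivity)]
    exact h'
  linarith

/-- the three error terms of the major arcs -/
lemma small_terms (m j : ℕ) (hm : 1 ≤ m) :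
    ((2 ^ ee m j : ℕ) : ℝ) / ((2 ^ j : ℕ) : ℝ) + ((2 ^ ee m j : ℕ) : ℝ) ^ (m + 2) / ((2 ^ j : ℕ) : ℝ) ^ (m + 1) +
      1 / ((2 ^ ee m j : ℕ) : ℝ) ^ m ≤ 3 * (2 : ℝ) ^ m * (2 : ℝ) ^ (-((j : ℝ) / (m + 1))) := by
  have hm0 : (1 : ℝ) ≤ m := by exact_mod_cast hm
  have h2 : (1 : ℝ) ≤ 2 ^ m := one_le_pow₀ (by norm_num)
  have hx : (0 : ℝ) < (2 : ℝ) ^ (-((j : ℝ) / (m + 1))) := by positivity
  have hle := ee_le m j
  have hge := ee_ge m j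
  set E : ℝ := (ee m j : ℝ) with hE
  push_cast
  have e1 : (2 : ℝ) ^ ee m j / 2 ^ j ≤ (2 : ℝ) ^ (-((j : ℝ) / (m + 1))) := by
    rw [← Real.rpow_natCast, ← Real.rpow_natCast, ← Real.rpow_sub (by norm_num)]
    refine two_rpow_le ?_
    rw [← hE]
    have : (j : ℝ) * m / (m + 1) - j = -((j : ℝ) / (m + 1)) := by
      field_simp
      ring
    linarith
  have e2 : ((2 : ℝ) ^ ee m j) ^ (m + 2) / (2 ^ j) ^ (m + 1) ≤ (2 : ℝ) ^ (-((j : ℝ) / (m + 1))) := by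
    rw [two_pow_rpow, two_pow_rpow, ← Real.rpow_sub (by norm_num)]
    refine two_rpow_le ?_
    rw [← hE]
    push_cast
    have h3 : E * (m + 2) ≤ (j : ℝ) * m / (m + 1) * (m + 2) := mul_le_mul_of_nonneg_right hle (by positivity)
    have : (j : ℝ) * m / (m + 1) * (m + 2) - j * (m + 1) = -((j : ℝ) / (m + 1)) := by
      field_simp
      ring
    linarith
  have e3 : 1 / ((2 : ℝ) ^ ee m j) ^ m ≤ (2 : ℝ) ^ m * (2 : ℝ) ^ (-((j : ℝ) / (m + 1))) := by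
    rw [two_pow_rpow, one_div, ← Real.rpow_neg (by norm_num), ← Real.rpow_natCast, ← Real.rpow_add (by norm_num)]
    refine two_rpow_le ?_
    rw [← hE]
    have h3 : ((j : ℝ) * m / (m + 1) - 1) * m ≤ E * m := mul_le_mul_of_nonneg_right hge (by positivity)
    have h4 : (j : ℝ) / (m + 1) ≤ (j : ℝ) * m / (m + 1) * m := by
      rw [div_mul_eq_mul_div]
      refine div_le_div_of_nonneg_right ?_ (by positivity)
      have hj : (0 : ℝ) ≤ j := Nat.cast_nonneg j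
      have : (1 : ℝ) ≤ m * m := by nlinarith
      nlinarith
    linarith
  nlinarith

/-- the second error term of the measure -/
lemma tail_term (k : ℝ) (m j : ℕ) (hm : 1 ≤ m) (hkm : k ≤ m - 1) :
    (2 : ℝ) ^ ((j : ℝ) * k) / ((2 ^ ee m j : ℕ) : ℝ) ^ m ≤ (2 : ℝ) ^ m * (2 : ℝ) ^ (-((j : ℝ) / (m + 1))) := by
  have hm0 : (1 : ℝ) ≤ m := by exact_mod_cast hm
  have hge := ee_ge m j
  set E : ℝ := (ee m j : ℝ) with hE
  push_cast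
  rw [two_pow_rpow, ← Real.rpow_sub (by norm_num), ← Real.rpow_natCast 2 m,
    ← Real.rpow_add (by norm_num)]
  refine two_rpow_le ?_
  rw [← hE]
  have h3 : ((j : ℝ) * m / (m + 1) - 1) * m ≤ E * m := mul_le_mul_of_nonneg_right hge (by linarith)
  have h4 : (j : ℝ) * k + (j : ℝ) / (m + 1) ≤ (j : ℝ) * m / (m + 1) * m := by
    have h5 : (j : ℝ) * k + (j : ℝ) / (m + 1) = ((j : ℝ) * (k * (m + 1) + 1)) / (m + 1) := by
      field_simp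
    rw [h5, div_mul_eq_mul_div]
    refine div_le_div_of_nonneg_right ?_ (by linarith)
    have hj : (0 : ℝ) ≤ j := Nat.cast_nonneg j
    have h6 : k * ((m : ℝ) + 1) + 1 ≤ m * m := by nlinarith
    nlinarith
  linarith

/-- the set of shifts of the half-open unit cube which are bad at infinitely many scales has dimension
smaller than `m + 1` -/
theorem dim_core (n m : ℕ) (hm : 1 ≤ m) (κ₁ κ₂ c₁ c₂ : ℝ) (hc₁ : 0 < c₁) (hc₂ : 0 < c₂)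
    (hκ : 2 * (n + 2 : ℝ) < m + 1 + κ₁ + κ₂) (hκ₂ : (n : ℝ) + 2 - κ₂ ≤ m - 1)
    (𝒟₁ 𝒟₂ : ℕ → Finset ℕ) (h𝒟₁ : ∀ j, ∀ b ∈ 𝒟₁ j, b ≤ (2 ^ j) ^ (n + 2))
    (h𝒟₂ : ∀ j, ∀ b ∈ 𝒟₂ j, b ≤ (2 ^ j) ^ (n + 2)) (j0 : ℕ)
    (hcard₁ : ∀ j, j0 ≤ j → c₁ * ((2 : ℝ) ^ j) ^ κ₁ ≤ ((𝒟₁ j).card : ℝ))
    (hcard₂ : ∀ j, j0 ≤ j → c₂ * ((2 : ℝ) ^ j) ^ κ₂ ≤ ((𝒟₂ j).card : ℝ)) :
    ∃ D : ℝ, 0 < D ∧ D < m + 1 ∧ ∀ H : ℕ, 1 ≤ H →
      dimH {θ | ∃ᶠ j in atTop, θ ∈ UU n m (2 ^ j) H (𝒟₁ j) (𝒟₂ j)} ≤ ENNReal.ofReal D := by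
  obtain ⟨C3, hC31, hV⟩ := V_measure n m hm
  have hm0 : (1 : ℝ) ≤ m := by exact_mod_cast hm
  set β : ℝ := m + 1 + κ₁ + κ₂ - 2 * (n + 2) with hβ
  have hβ0 : 0 < β := by simp only [hβ]; linarith
  set σ : ℝ := min β (1 / (m + 1)) / 2 with hσ
  have hσ0 : 0 < σ := by
    have : (0 : ℝ) < 1 / (m + 1) := by positivity
    simp only [hσ]
    positivity
  have hσβ : σ < β := by
    have := min_le_left β (1 / ((m : ℝ) + 1))
    simp only [hσ]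
    linarith
  have hσm : σ < 1 / ((m : ℝ) + 1) := by
    have := min_le_right β (1 / ((m : ℝ) + 1))
    have : (0 : ℝ) < 1 / (m + 1) := by positivity
    simp only [hσ]
    linarith
  set η : ℝ := σ / (n + 1) with hη
  have hη0 : 0 < η := by simp only [hη]; positivity
  have hη1 : η < 1 := by
    have h1 : η ≤ σ := by
      simp only [hη]
      exact div_le_self hσ0.le (by linarith [(Nat.cast_nonneg n : (0 : ℝ) ≤ n)])
    have h2 : 1 / ((m : ℝ) + 1) ≤ 1 := by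
      rw [div_le_one (by positivity)]
      linarith
    linarith
  refine ⟨m + 1 - η, by linarith, by linarith, ?_⟩
  intro H hH
  have hH0 : (1 : ℝ) ≤ H := by exact_mod_cast hH
  have hDpos : (0 : ℝ) < m + 1 - η := by linarith
  have hmono : {θ | ∃ᶠ j in atTop, θ ∈ UU n m (2 ^ j) H (𝒟₁ j) (𝒟₂ j)} ⊆
      {θ | ∃ᶠ j in atTop, ∃ z ∈ FF n m (2 ^ j) H (𝒟₁ j) (𝒟₂ j), θ ∈ cube (m + 1) (NN n m (2 ^ j) H) z} := by
    intro θ hθ
    exact hθ.mono fun j hj => UU_cover n m (2 ^ j) H (Nat.one_le_two_pow) hH (𝒟₁ j) (𝒟₂ j) θ hj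
  refine (dimH_mono hmono).trans ?_
  refine Pool.Agent.N84.MD.core (fun j z => cube (m + 1) (NN n m (2 ^ j) H) z) (m + 1 - η) hDpos
    (fun j => FF n m (2 ^ j) H (𝒟₁ j) (𝒟₂ j)) (fun j => 1 / (NN n m (2 ^ j) H : ℝ)) (fun j => by positivity)
    (fun j z _ => cube_diam (m + 1) _ (NN_pos n m (2 ^ j) H Nat.one_le_two_pow hH) z) ?_
  -- summability
  obtain ⟨N0, hN0def⟩ : ∃ N0 : ℝ, N0 = 3 * H * (m + 1) * (n + 2) * (4 * (m + 1)) ^ (n + 1) := ⟨_, rfl⟩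
  have hN00 : 0 < N0 := by rw [hN0def]; positivity
  have hNN : ∀ j : ℕ, (NN n m (2 ^ j) H : ℝ) = N0 * (2 : ℝ) ^ ((j : ℝ) * (n + 1)) := by
    intro j
    unfold NN
    push_cast
    rw [hN0def, two_pow_rpow]
    push_cast
    ring
  have hNη : ∀ j : ℕ, (NN n m (2 ^ j) H : ℝ) ^ η = N0 ^ η * (2 : ℝ) ^ ((j : ℝ) * σ) := by
    intro j
    rw [hNN, Real.mul_rpow hN00.le (by positivity), ← Real.rpow_mul (by norm_num)]
    congr 2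
    simp only [hη]
    field_simp
  have hbound : ∀ j : ℕ, ((FF n m (2 ^ j) H (𝒟₁ j) (𝒟₂ j)).card : ℝ) * (1 / (NN n m (2 ^ j) H : ℝ)) ^ ((m : ℝ) + 1 - η) ≤
      N0 ^ η * (2 : ℝ) ^ ((j : ℝ) * σ) * (mu (m + 1)).real (V n m (2 ^ j) H (𝒟₂ j).card (𝒟₁ j)) := by
    intro j
    have h1 := FF_card n m (2 ^ j) H Nat.one_le_two_pow hH (𝒟₁ j) (𝒟₂ j) (h𝒟₂ j)
    have hNp : (0 : ℝ) < (NN n m (2 ^ j) H : ℝ) := by exact_mod_cast NN_pos n m (2 ^ j) H Nat.one_le_two_pow hH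
    have h2 : (1 / (NN n m (2 ^ j) H : ℝ)) ^ ((m : ℝ) + 1 - η) =
        (NN n m (2 ^ j) H : ℝ) ^ η / (NN n m (2 ^ j) H : ℝ) ^ (m + 1) := by
      rw [one_div, Real.inv_rpow hNp.le, ← Real.rpow_neg hNp.le, ← Real.rpow_natCast, ← Real.rpow_sub hNp]
      congr 1
      push_cast
      ring
    rw [h2]
    calc _ ≤ ((NN n m (2 ^ j) H : ℝ) ^ (m + 1) * (mu (m + 1)).real (V n m (2 ^ j) H (𝒟₂ j).card (𝒟₁ j))) *
          ((NN n m (2 ^ j) H : ℝ) ^ η / (NN n m (2 ^ j) H : ℝ) ^ (m + 1)) :=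
          mul_le_mul_of_nonneg_right h1 (by positivity)
      _ = (NN n m (2 ^ j) H : ℝ) ^ η * (mu (m + 1)).real (V n m (2 ^ j) H (𝒟₂ j).card (𝒟₁ j)) := by
          have : (NN n m (2 ^ j) H : ℝ) ^ (m + 1) ≠ 0 := by positivity
          field_simp
      _ = _ := by rw [hNη]
  -- the smallness condition holds eventually
  have hxlt : (2 : ℝ) ^ (-(1 / ((m : ℝ) + 1))) < 1 :=
    Real.rpow_lt_one_of_one_lt_of_neg (by norm_num) (by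
      have : (0 : ℝ) < 1 / (m + 1) := by positivity
      linarith)
  have hx0 : (0 : ℝ) < (2 : ℝ) ^ (-(1 / ((m : ℝ) + 1))) := by positivity
  have hxj : ∀ j : ℕ, (2 : ℝ) ^ (-((j : ℝ) / (m + 1))) = ((2 : ℝ) ^ (-(1 / ((m : ℝ) + 1)))) ^ j := by
    intro j
    rw [← Real.rpow_natCast, ← Real.rpow_mul (by norm_num)]
    congr 1
    ring
  have hev : ∀ᶠ j : ℕ in atTop, C3 * (3 * (2 : ℝ) ^ m * (2 : ℝ) ^ (-((j : ℝ) / (m + 1)))) ≤ 1 := by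
    have h1 : Tendsto (fun j : ℕ => C3 * (3 * (2 : ℝ) ^ m * ((2 : ℝ) ^ (-(1 / ((m : ℝ) + 1)))) ^ j)) atTop
        (nhds (C3 * (3 * (2 : ℝ) ^ m * 0))) :=
      ((tendsto_pow_atTop_nhds_zero_of_lt_one hx0.le hxlt).const_mul _).const_mul _
    rw [mul_zero, mul_zero] at h1
    have h2 := h1.eventually (gt_mem_nhds (show (0 : ℝ) < 1 by norm_num))
    filter_upwards [h2] with j hj
    rw [hxj]
    exact hj.le
  -- the majorant
  obtain ⟨C6, hC6⟩ : ∃ C6 : ℝ, C6 = 2 + Real.log (4 * (m + 1)) := ⟨_, rfl⟩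
  have hlog0 : 0 ≤ Real.log (4 * ((m : ℝ) + 1)) := Real.log_nonneg (by linarith)
  have hC60 : 0 < C6 := by rw [hC6]; linarith
  have hl : ∀ j : ℕ, 1 + Real.log (4 * (m + 1) * ((2 ^ j : ℕ) : ℝ)) ≤ C6 * (j + 1) := by
    intro j
    push_cast
    rw [Real.log_mul (by positivity) (by positivity), Real.log_pow]
    have h2 : Real.log 2 ≤ 1 := by
      have := Real.log_two_lt_d9
      linarith
    have hj : (0 : ℝ) ≤ j := Nat.cast_nonneg j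
    have h3 : (j : ℝ) * Real.log 2 ≤ j := by nlinarith
    rw [hC6]
    nlinarith
  set r1 : ℝ := (2 : ℝ) ^ (σ - β) with hr1
  set r2 : ℝ := (2 : ℝ) ^ (σ - 1 / ((m : ℝ) + 1)) with hr2
  have hr1l : r1 < 1 := Real.rpow_lt_one_of_one_lt_of_neg (by norm_num) (by linarith)
  have hr2l : r2 < 1 := Real.rpow_lt_one_of_one_lt_of_neg (by norm_num) (by linarith)
  have hr10 : 0 < r1 := by simp only [hr1]; positivity
  have hr20 : 0 < r2 := by simp only [hr2]; positivity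
  set A1 : ℝ := N0 ^ η * (C3 * (H : ℝ) ^ 2) * (1 / (c₁ * c₂)) with hA1
  set A2 : ℝ := N0 ^ η * (C3 * (H : ℝ) ^ 2) * (1 / c₂ * (2 ^ m * C6 ^ (m + 1))) with hA2
  have hS1 : Summable fun j : ℕ => A1 * r1 ^ j := (summable_geometric_of_lt_one hr10.le hr1l).mul_left A1
  have hS2 : Summable fun j : ℕ => A2 * (((j : ℝ) + 1) ^ (m + 1) * r2 ^ j) := by
    refine Summable.mul_left A2 ?_
    have h1 := summable_pow_mul_geometric_of_norm_lt_one (R := ℝ) (m + 1) (r := r2)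
      (by rw [Real.norm_of_nonneg hr20.le]; exact hr2l)
    have h2 := (summable_nat_add_iff 1).2 h1
    have h3 := h2.mul_left (r2⁻¹)
    refine h3.congr fun j => ?_
    push_cast
    rw [pow_succ r2 j]
    field_simp
  refine Summable.of_norm_bounded_eventually_nat (hS1.add hS2) ?_
  filter_upwards [hev, eventually_ge_atTop j0] with j hj hjj
  rw [Real.norm_of_nonneg (by positivity)]
  refine (hbound j).trans ?_
  have hP : 1 ≤ 2 ^ j := Nat.one_le_two_pow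
  have hcard1j := hcard₁ j hjj
  have hcard2j := hcard₂ j hjj
  have hcpos1 : 0 < c₁ * ((2 : ℝ) ^ j) ^ κ₁ := by positivity
  have hcpos2 : 0 < c₂ * ((2 : ℝ) ^ j) ^ κ₂ := by positivity
  have hD1 : (0 : ℝ) < ((𝒟₁ j).card : ℝ) := lt_of_lt_of_le hcpos1 hcard1j
  have hD2 : (0 : ℝ) < ((𝒟₂ j).card : ℝ) := lt_of_lt_of_le hcpos2 hcard2j
  have hne : (𝒟₁ j).Nonempty := by
    rw [← Finset.card_pos]
    exact_mod_cast hD1
  have hB1 : 1 ≤ (𝒟₂ j).card := by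
    have : 0 < (𝒟₂ j).card := by exact_mod_cast hD2
    omega
  have hR1 : 1 ≤ 2 ^ ee m j := Nat.one_le_two_pow
  have hsm : C3 * (((2 ^ ee m j : ℕ) : ℝ) / ((2 ^ j : ℕ) : ℝ) +
      ((2 ^ ee m j : ℕ) : ℝ) ^ (m + 2) / ((2 ^ j : ℕ) : ℝ) ^ (m + 1) + 1 / ((2 ^ ee m j : ℕ) : ℝ) ^ m) ≤ 1 :=
    (mul_le_mul_of_nonneg_left (small_terms m j hm) (by linarith)).trans hj
  have hVj := hV (2 ^ j) H (𝒟₂ j).card (𝒟₁ j) (2 ^ ee m j) hP hH hB1 (h𝒟₁ j) hne hR1 hsm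
  have eκ : ∀ κ : ℝ, ((2 : ℝ) ^ j) ^ κ = (2 : ℝ) ^ ((j : ℝ) * κ) := by
    intro κ
    rw [← Real.rpow_natCast, ← Real.rpow_mul (by norm_num)]
  have ht1 : ((2 ^ j : ℕ) : ℝ) ^ (2 * (n + 2)) / (((𝒟₁ j).card : ℝ) * ((2 ^ j : ℕ) : ℝ) ^ (m + 1)) /
      ((𝒟₂ j).card : ℝ) ≤ 1 / (c₁ * c₂) * (2 : ℝ) ^ (-((j : ℝ) * β)) := by
    push_cast
    have h1 : ((2 : ℝ) ^ j) ^ (2 * (n + 2)) / (((𝒟₁ j).card : ℝ) * ((2 : ℝ) ^ j) ^ (m + 1)) / ((𝒟₂ j).card : ℝ) ≤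
        ((2 : ℝ) ^ j) ^ (2 * (n + 2)) / ((c₁ * ((2 : ℝ) ^ j) ^ κ₁) * ((2 : ℝ) ^ j) ^ (m + 1) *
          (c₂ * ((2 : ℝ) ^ j) ^ κ₂)) := by
      rw [div_div]
      refine div_le_div_of_nonneg_left (by positivity) (by positivity) ?_
      exact mul_le_mul (mul_le_mul_of_nonneg_right hcard1j (by positivity)) hcard2j hcpos2.le (by positivity)
    refine h1.trans (le_of_eq ?_)
    rw [eκ, eκ, two_pow_rpow, two_pow_rpow]
    have e2 : (2 : ℝ) ^ ((j : ℝ) * ((2 * (n + 2) : ℕ) : ℝ)) =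
        (2 : ℝ) ^ (-((j : ℝ) * β)) * ((2 : ℝ) ^ ((j : ℝ) * κ₁) * (2 : ℝ) ^ ((j : ℝ) * ((m + 1 : ℕ) : ℝ)) *
          (2 : ℝ) ^ ((j : ℝ) * κ₂)) := by
      rw [← Real.rpow_add (by norm_num), ← Real.rpow_add (by norm_num), ← Real.rpow_add (by norm_num)]
      congr 1
      simp only [hβ]
      push_cast
      ring
    rw [e2]
    field_simp
  have ht2 : ((2 ^ j : ℕ) : ℝ) ^ (n + 2) * (1 + Real.log (4 * (m + 1) * ((2 ^ j : ℕ) : ℝ))) ^ (m + 1) /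
      ((2 ^ ee m j : ℕ) : ℝ) ^ m / ((𝒟₂ j).card : ℝ) ≤
      1 / c₂ * (2 ^ m * C6 ^ (m + 1)) * (((j : ℝ) + 1) ^ (m + 1) * (2 : ℝ) ^ (-((j : ℝ) / (m + 1)))) := by
    have h1 := tail_term ((n : ℝ) + 2 - κ₂) m j hm hκ₂
    have h0 : 0 ≤ 1 + Real.log (4 * (m + 1) * ((2 ^ j : ℕ) : ℝ)) := by
      have h3 : (1 : ℝ) ≤ ((2 ^ j : ℕ) : ℝ) := by exact_mod_cast hP
      have := Real.log_nonneg (h8_aux hm0 h3)
      linarith
    have h2 : (1 + Real.log (4 * (m + 1) * ((2 ^ j : ℕ) : ℝ))) ^ (m + 1) ≤ (C6 * (j + 1)) ^ (m + 1) :=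
      pow_le_pow_left₀ h0 (hl j) _
    have h4 : ((2 ^ j : ℕ) : ℝ) ^ (n + 2) / ((𝒟₂ j).card : ℝ) ≤ 1 / c₂ * (2 : ℝ) ^ ((j : ℝ) * ((n : ℝ) + 2 - κ₂)) := by
      have h5 : ((2 ^ j : ℕ) : ℝ) ^ (n + 2) / ((𝒟₂ j).card : ℝ) ≤ ((2 ^ j : ℕ) : ℝ) ^ (n + 2) / (c₂ * ((2 : ℝ) ^ j) ^ κ₂) :=
        div_le_div_of_nonneg_left (by positivity) hcpos2 hcard2j
      refine h5.trans (le_of_eq ?_)
      push_cast
      rw [eκ, two_pow_rpow, mul_sub, Real.rpow_sub (by norm_num)]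
      push_cast
      field_simp
    calc _ = (1 + Real.log (4 * (m + 1) * ((2 ^ j : ℕ) : ℝ))) ^ (m + 1) *
          ((((2 ^ j : ℕ) : ℝ) ^ (n + 2) / ((𝒟₂ j).card : ℝ)) / ((2 ^ ee m j : ℕ) : ℝ) ^ m) := by ring
      _ ≤ (1 + Real.log (4 * (m + 1) * ((2 ^ j : ℕ) : ℝ))) ^ (m + 1) *
          ((1 / c₂ * (2 : ℝ) ^ ((j : ℝ) * ((n : ℝ) + 2 - κ₂))) / ((2 ^ ee m j : ℕ) : ℝ) ^ m) := by
          refine mul_le_mul_of_nonneg_left ?_ (by positivity)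
          exact div_le_div_of_nonneg_right h4 (by positivity)
      _ = 1 / c₂ * ((1 + Real.log (4 * (m + 1) * ((2 ^ j : ℕ) : ℝ))) ^ (m + 1) *
          ((2 : ℝ) ^ ((j : ℝ) * ((n : ℝ) + 2 - κ₂)) / ((2 ^ ee m j : ℕ) : ℝ) ^ m)) := by ring
      _ ≤ 1 / c₂ * ((C6 * (j + 1)) ^ (m + 1) * ((2 : ℝ) ^ m * (2 : ℝ) ^ (-((j : ℝ) / (m + 1))))) := by
          refine mul_le_mul_of_nonneg_left ?_ (by positivity)
          exact mul_le_mul h2 h1 (by positivity) (by positivity)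
      _ = _ := by rw [mul_pow]; ring
  have e1 : (2 : ℝ) ^ ((j : ℝ) * σ) * (2 : ℝ) ^ (-((j : ℝ) * β)) = r1 ^ j := by
    rw [← Real.rpow_add (by norm_num), hr1, ← Real.rpow_natCast, ← Real.rpow_mul (by norm_num)]
    congr 1
    ring
  have e2 : (2 : ℝ) ^ ((j : ℝ) * σ) * (2 : ℝ) ^ (-((j : ℝ) / (m + 1))) = r2 ^ j := by
    rw [← Real.rpow_add (by norm_num), hr2, ← Real.rpow_natCast, ← Real.rpow_mul (by norm_num)]
    congr 1
    ring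
  calc N0 ^ η * (2 : ℝ) ^ ((j : ℝ) * σ) * (mu (m + 1)).real (V n m (2 ^ j) H (𝒟₂ j).card (𝒟₁ j))
      ≤ N0 ^ η * (2 : ℝ) ^ ((j : ℝ) * σ) * (C3 * (H : ℝ) ^ 2 * (1 / (c₁ * c₂) * (2 : ℝ) ^ (-((j : ℝ) * β)) +
          1 / c₂ * (2 ^ m * C6 ^ (m + 1)) * (((j : ℝ) + 1) ^ (m + 1) * (2 : ℝ) ^ (-((j : ℝ) / (m + 1)))))) := by
        refine mul_le_mul_of_nonneg_left (hVj.trans ?_) (by positivity)
        rw [mul_div_assoc, add_div]
        refine mul_le_mul_of_nonneg_left (add_le_add ht1 ht2) (by positivity)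
    _ = A1 * ((2 : ℝ) ^ ((j : ℝ) * σ) * (2 : ℝ) ^ (-((j : ℝ) * β))) +
        A2 * (((j : ℝ) + 1) ^ (m + 1) * ((2 : ℝ) ^ ((j : ℝ) * σ) * (2 : ℝ) ^ (-((j : ℝ) / (m + 1))))) := by
        simp only [hA1, hA2]
        ring
    _ = _ := by rw [e1, e2]

end Pool.Agent.D0H17.MW
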