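import Pool.Agent.D0H17.MW.Pars

set_option autoImplicit false

/-! The second moment over the shifts. -/

namespace Pool.Agent.D0H17.MW

open Finset MeasureTheory

/-- Lebesgue measure on the unit interval -/
noncomputable def nu : Measure ℝ := (volume : Measure ℝ).restrict (Set.Icc 0 1)

/-- Lebesgue measure on the unit cube -/
noncomputable def mu (m : ℕ) : Measure (Fin m → ℝ) := (volume : Measure (Fin m → ℝ)).restrict (Set.Icc 0 1)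

lemma mu_eq (m : ℕ) : mu m = Measure.pi fun _ => nu := by
  unfold mu nu
  rw [← Measure.restrict_pi_pi, volume_pi]
  congr 1
  exact (Set.pi_univ_Icc (0 : Fin m → ℝ) 1).symm

instance : IsProbabilityMeasure nu := by
  constructor
  unfold nu
  simp

instance (m : ℕ) : IsProbabilityMeasure (mu m) := by
  rw [mu_eq]
  infer_instance

lemma int_nu {E : Type*} [NormedAddCommGroup E] [NormedSpace ℝ E] (f : ℝ → E) :
    ∫ x, f x ∂nu = ∫ x in (0 : ℝ)..1, f x := by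
  unfold nu
  rw [intervalIntegral.integral_of_le zero_le_one, integral_Icc_eq_integral_Ioc]

lemma integrable_mu {E : Type*} [NormedAddCommGroup E] {m : ℕ}
    {f : (Fin m → ℝ) → E} (hf : Continuous f) : Integrable f (mu m) := by
  unfold mu
  exact hf.integrableOn_Icc

/-- product of the sums in the variables -/
noncomputable def TT (k P M m : ℕ) (α : ℝ) (θ : Fin m → ℝ) : ℂ := ∏ j, S k P M α (θ j)

lemma continuous_TT (k P M m : ℕ) (α : ℝ) : Continuous (TT k P M m α) := by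
  unfold TT
  exact continuous_finsetProd _ fun j _ => (continuous_S k P M α).comp (continuous_apply j)

lemma int_TT (k P M m : ℕ) (hPM : P ≤ M) (α : ℝ) : ∫ θ, TT k P M m α θ ∂(mu m) = G k P M α ^ m := by
  unfold TT
  rw [mu_eq, integral_fintype_prod_eq_pow (μ := nu) (S k P M α), int_nu, G_eq k P M hPM, Fintype.card_fin]

lemma int_TT_sq (k P M m : ℕ) (α : ℝ) :
    ∫ θ, ‖TT k P M m α θ‖ ^ 2 ∂(mu m) = (∫ x in (0 : ℝ)..1, ‖S k P M α x‖ ^ 2) ^ m := by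
  unfold TT
  simp_rw [norm_prod, ← prod_pow]
  rw [mu_eq, integral_fintype_prod_eq_pow (μ := nu) (fun x => ‖S k P M α x‖ ^ 2), int_nu, Fintype.card_fin]

/-- the coefficients of the minor part -/
noncomputable def cm (k P M m T Q : ℕ) (𝒟 : Finset ℕ) (R : ℕ) (θ : Fin m → ℝ) (a : ℤ) : ℂ :=
  if (R : ℤ) < |a| then kap T a * Dh 𝒟 Q a * TT k P M m ((a : ℝ) / Q) θ else 0

/-- the minor part -/
noncomputable def Mn (k P M m T Q : ℕ) (𝒟 : Finset ℕ) (R A : ℕ) (θ : Fin m → ℝ) (i : ℕ) : ℂ :=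
  ∑ a ∈ Ico (-((A : ℤ) * T)) ((A : ℤ) * T), cm k P M m T Q 𝒟 R θ a * e (-((a : ℝ) * i / T))

lemma continuous_cm (k P M m T Q : ℕ) (𝒟 : Finset ℕ) (R : ℕ) (a : ℤ) :
    Continuous fun θ => cm k P M m T Q 𝒟 R θ a := by
  unfold cm
  split_ifs
  · exact continuous_const.mul (continuous_TT _ _ _ _ _)
  · exact continuous_const

lemma continuous_Mn (k P M m T Q : ℕ) (𝒟 : Finset ℕ) (R A : ℕ) (i : ℕ) :
    Continuous fun θ => Mn k P M m T Q 𝒟 R A θ i := by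
  unfold Mn
  exact continuous_finsetSum _ fun a _ => (continuous_cm _ _ _ _ _ _ _ _ _).mul continuous_const

lemma Phi_le {C : ℝ} (hC : ∀ x : ℝ, ‖KF x‖ ≤ C / (1 + x ^ 2)) (k P M m T Q : ℕ) (hT : 1 ≤ T)
    (𝒟 : Finset ℕ) (R A : ℕ) (θ : Fin m → ℝ) :
    ∑ i ∈ range T, ‖Mn k P M m T Q 𝒟 R A θ i‖ ^ 2 ≤ 3 * Cw * C ^ 2 / T *
      ∑ a ∈ (Ico (-((A : ℤ) * T)) ((A : ℤ) * T)).filter (fun a => (R : ℤ) < |a|),
        ‖Dh 𝒟 Q a‖ ^ 2 / (1 + ((a : ℝ) / T) ^ 2) * ‖TT k P M m ((a : ℝ) / Q) θ‖ ^ 2 := by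
  have hT0 : (0 : ℝ) < T := by exact_mod_cast hT
  refine (cs_blocks T hT A (cm k P M m T Q 𝒟 R θ)).trans ?_
  have h1 : ∑ a ∈ Ico (-((A : ℤ) * T)) ((A : ℤ) * T), (1 + ((a : ℝ) / T) ^ 2) * ‖cm k P M m T Q 𝒟 R θ a‖ ^ 2 ≤
      ∑ a ∈ (Ico (-((A : ℤ) * T)) ((A : ℤ) * T)).filter (fun a => (R : ℤ) < |a|),
        C ^ 2 / T ^ 2 * (‖Dh 𝒟 Q a‖ ^ 2 / (1 + ((a : ℝ) / T) ^ 2) * ‖TT k P M m ((a : ℝ) / Q) θ‖ ^ 2) := by
    rw [sum_filter]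
    refine sum_le_sum fun a _ => ?_
    unfold cm
    split_ifs with h
    · rw [norm_mul, norm_mul, mul_pow, mul_pow]
      have h2 := kap_bound hC T a
      have h3 : (0 : ℝ) < 1 + ((a : ℝ) / T) ^ 2 := by positivity
      have h4 : ‖kap T a‖ ^ 2 ≤ (C / (T * (1 + ((a : ℝ) / T) ^ 2))) ^ 2 :=
        pow_le_pow_left₀ (norm_nonneg _) h2 2
      calc (1 + ((a : ℝ) / T) ^ 2) * (‖kap T a‖ ^ 2 * ‖Dh 𝒟 Q a‖ ^ 2 * ‖TT k P M m ((a : ℝ) / Q) θ‖ ^ 2)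
          = ((1 + ((a : ℝ) / T) ^ 2) * ‖Dh 𝒟 Q a‖ ^ 2 * ‖TT k P M m ((a : ℝ) / Q) θ‖ ^ 2) * ‖kap T a‖ ^ 2 := by ring
        _ ≤ ((1 + ((a : ℝ) / T) ^ 2) * ‖Dh 𝒟 Q a‖ ^ 2 * ‖TT k P M m ((a : ℝ) / Q) θ‖ ^ 2) *
            (C / (T * (1 + ((a : ℝ) / T) ^ 2))) ^ 2 := mul_le_mul_of_nonneg_left h4 (by positivity)
        _ = _ := by
          field_simp
    · simp
  rw [← mul_sum] at h1
  have h2 : 0 ≤ 3 * Cw * T := by
    have := Cw_pos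
    positivity
  refine (mul_le_mul_of_nonneg_left h1 h2).trans (le_of_eq ?_)
  field_simp

lemma EPhi_aux {C : ℝ} (hC : ∀ x : ℝ, ‖KF x‖ ≤ C / (1 + x ^ 2)) (k P M m T Q : ℕ) (hT : 1 ≤ T)
    (𝒟 : Finset ℕ) (R A : ℕ) :
    ∫ θ, ∑ i ∈ range T, ‖Mn k P M m T Q 𝒟 R A θ i‖ ^ 2 ∂(mu m) ≤ 3 * Cw * C ^ 2 / T *
      ∑ a ∈ (Ico (-((A : ℤ) * T)) ((A : ℤ) * T)).filter (fun a => (R : ℤ) < |a|),
        ‖Dh 𝒟 Q a‖ ^ 2 / (1 + ((a : ℝ) / T) ^ 2) *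
          (∫ x in (0 : ℝ)..1, ‖S k P M ((a : ℝ) / Q) x‖ ^ 2) ^ m := by
  have h1 : ∫ θ, ∑ i ∈ range T, ‖Mn k P M m T Q 𝒟 R A θ i‖ ^ 2 ∂(mu m) ≤
      ∫ θ, 3 * Cw * C ^ 2 / T *
      ∑ a ∈ (Ico (-((A : ℤ) * T)) ((A : ℤ) * T)).filter (fun a => (R : ℤ) < |a|),
        ‖Dh 𝒟 Q a‖ ^ 2 / (1 + ((a : ℝ) / T) ^ 2) * ‖TT k P M m ((a : ℝ) / Q) θ‖ ^ 2 ∂(mu m) := by
    refine integral_mono ?_ ?_ fun θ => Phi_le hC k P M m T Q hT 𝒟 R A θ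
    · refine integrable_mu (continuous_finsetSum _ fun i _ => ?_)
      exact (continuous_Mn _ _ _ _ _ _ _ _ _ _).norm.pow 2
    · refine integrable_mu (continuous_const.mul (continuous_finsetSum _ fun a _ => ?_))
      exact continuous_const.mul ((continuous_TT _ _ _ _ _).norm.pow 2)
  refine h1.trans (le_of_eq ?_)
  rw [integral_const_mul, integral_finsetSum]
  · congr 1
    refine sum_congr rfl fun a _ => ?_
    rw [integral_const_mul, int_TT_sq]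
  · intro a _
    exact integrable_mu (continuous_const.mul ((continuous_TT _ _ _ _ _).norm.pow 2))

/-- the second moment of the minor part -/
lemma EPhi (n m : ℕ) (hm : 2 ≤ m) : ∃ C1 : ℝ, 0 < C1 ∧ ∀ (P H T Q : ℕ) (𝒟 : Finset ℕ) (R A : ℕ),
    1 ≤ P → 1 ≤ H → Q = 4 * m * (4 * m) ^ (n + 2) * P ^ (n + 2) → T = H * Q → (∀ b ∈ 𝒟, b < Q) → 1 ≤ R →
    ∫ θ, ∑ i ∈ range T, ‖Mn (n + 2) P (4 * m * P) m T Q 𝒟 R A θ i‖ ^ 2 ∂(mu m) ≤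
      C1 * ((𝒟.card : ℝ) * (P : ℝ) ^ m +
        (𝒟.card : ℝ) ^ 2 * (P : ℝ) ^ (2 * m) * (1 + Real.log (4 * m * P)) ^ m / (T * (R : ℝ) ^ (m - 1))) := by
  obtain ⟨C, hC1, hC⟩ := KF_bound
  set B : ℝ := 8 * m * (4 * m) ^ (n + 2) with hB
  have hm0 : (2 : ℝ) ≤ m := by exact_mod_cast hm
  have hB0 : 0 < B := by simp only [hB]; positivity
  have hCw := Cw_pos
  set C2 : ℝ := 3 * Cw * C ^ 2 * (B ^ m * 2 ^ (m - 1)) with hC2
  have hC20 : 0 < C2 := by simp only [hC2]; positivity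
  refine ⟨C2 * (3 * Cw + 2), by positivity, ?_⟩
  intro P H T Q 𝒟 R A hP hH hQ hTQ h𝒟 hR
  have hP0 : (1 : ℝ) ≤ P := by exact_mod_cast hP
  have hR0 : (1 : ℝ) ≤ R := by exact_mod_cast hR
  have hQ1 : 1 ≤ Q := by
    rw [hQ]
    have : 0 < 4 * m * (4 * m) ^ (n + 2) * P ^ (n + 2) := by positivity
    omega
  have hQ0 : (0 : ℝ) < Q := by exact_mod_cast hQ1
  have hT : 1 ≤ T := by
    rw [hTQ]
    exact Nat.mul_pos hH hQ1
  have hT0 : (0 : ℝ) < T := by exact_mod_cast hT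
  set l : ℝ := 1 + Real.log (4 * m * P) with hl
  have hl1 : 1 ≤ l := by
    have : 0 ≤ Real.log (4 * m * P) := Real.log_nonneg (by nlinarith)
    simp only [hl]; linarith
  have hQr : (Q : ℝ) = 4 * m * (4 * m) ^ (n + 2) * (P : ℝ) ^ (n + 2) := by
    rw [hQ]; push_cast; ring
  -- mean square
  have hms : ∀ a : ℤ, a ≠ 0 → (∫ x in (0 : ℝ)..1, ‖S (n + 2) P (4 * m * P) ((a : ℝ) / Q) x‖ ^ 2) ^ m ≤
      B ^ m * 2 ^ (m - 1) * ((P : ℝ) ^ m + (P : ℝ) ^ (2 * m) * l ^ m * (1 / |(a : ℝ)| ^ m)) := by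
    intro a ha
    have ha0 : (a : ℝ) ≠ 0 := by exact_mod_cast ha
    have ha1 : 0 < |(a : ℝ)| := abs_pos.2 ha0
    obtain ⟨N, hN⟩ : ∃ N : ℕ, 4 * m * P = P + (N + 1) := by
      refine ⟨4 * m * P - P - 1, ?_⟩
      have : P < 4 * m * P := by nlinarith
      omega
    have hNr : (N + 1 : ℝ) ≤ 4 * m * P := by
      have : ((4 * m * P : ℕ) : ℝ) = ((P + (N + 1) : ℕ) : ℝ) := by rw [hN]
      push_cast at this
      linarith
    have h1 := mean_sq n P N hP (show (a : ℝ) / Q ≠ 0 from div_ne_zero ha0 hQ0.ne')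
    rw [← hN] at h1
    have h2 : (N + 1 : ℝ) + 2 * (1 + Real.log (N + 1)) / (|(a : ℝ) / Q| * (P : ℝ) ^ n) ≤
        B * ((P : ℝ) + (P : ℝ) ^ 2 * l / |(a : ℝ)|) := by
      have h3 : 1 + Real.log (N + 1) ≤ l := by
        have := Real.log_le_log (by positivity : (0 : ℝ) < N + 1) hNr
        simp only [hl]; linarith
      have h4 : 2 * (1 + Real.log (N + 1)) / (|(a : ℝ) / Q| * (P : ℝ) ^ n) ≤
          2 * l / (|(a : ℝ) / Q| * (P : ℝ) ^ n) := by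
        refine div_le_div_of_nonneg_right (by linarith) (by positivity)
      have h5 : 2 * l / (|(a : ℝ) / Q| * (P : ℝ) ^ n) = B * ((P : ℝ) ^ 2 * l / |(a : ℝ)|) := by
        rw [abs_div, abs_of_pos hQ0]
        rw [hB]
        have h6 : (Q : ℝ) = 4 * m * (4 * m) ^ (n + 2) * ((P : ℝ) ^ n * (P : ℝ) ^ 2) := by
          rw [hQr]; ring
        rw [div_mul_eq_mul_div, div_div_eq_mul_div, h6]
        field_simp
        ring
      have h7 : (N + 1 : ℝ) ≤ B * P := by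
        refine hNr.trans ?_
        refine mul_le_mul_of_nonneg_right ?_ (by linarith)
        rw [hB]
        have h8 : (1 : ℝ) ≤ (4 * m) ^ (n + 2) := one_le_pow₀ (by linarith)
        nlinarith
      calc _ ≤ B * P + B * ((P : ℝ) ^ 2 * l / |(a : ℝ)|) := by
            rw [← h5]
            exact add_le_add h7 h4
        _ = _ := by ring
    have h8 : (∫ x in (0 : ℝ)..1, ‖S (n + 2) P (4 * m * P) ((a : ℝ) / Q) x‖ ^ 2) ^ m ≤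
        (B * ((P : ℝ) + (P : ℝ) ^ 2 * l / |(a : ℝ)|)) ^ m := by
      refine pow_le_pow_left₀ ?_ (h1.trans h2) m
      exact intervalIntegral.integral_nonneg zero_le_one fun x _ => sq_nonneg _
    refine h8.trans ?_
    rw [mul_pow, mul_assoc]
    refine mul_le_mul_of_nonneg_left ?_ (by positivity)
    refine (add_pow_le (by positivity) (by positivity) m).trans (le_of_eq ?_)
    congr 1
    congr 1
    rw [div_pow, mul_pow, ← pow_mul]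
    ring
  refine (EPhi_aux hC (n + 2) P (4 * m * P) m T Q hT 𝒟 R A).trans ?_
  set s := (Ico (-((A : ℤ) * T)) ((A : ℤ) * T)).filter (fun a => (R : ℤ) < |a|) with hs
  have hs1 : ∀ a ∈ s, (R : ℤ) < |a| := fun a ha => (mem_filter.1 ha).2
  have hterm : ∀ a ∈ s, ‖Dh 𝒟 Q a‖ ^ 2 / (1 + ((a : ℝ) / T) ^ 2) *
      (∫ x in (0 : ℝ)..1, ‖S (n + 2) P (4 * m * P) ((a : ℝ) / Q) x‖ ^ 2) ^ m ≤
      B ^ m * 2 ^ (m - 1) * ((P : ℝ) ^ m * (‖Dh 𝒟 Q a‖ ^ 2 / (1 + ((a : ℝ) / T) ^ 2)) +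
        (𝒟.card : ℝ) ^ 2 * (P : ℝ) ^ (2 * m) * l ^ m * (1 / |(a : ℝ)| ^ m)) := by
    intro a ha
    have ha0 : a ≠ 0 := by
      intro h
      have := hs1 a ha
      rw [h, abs_zero] at this
      omega
    have h1 := hms a ha0
    have h2 : 0 ≤ ‖Dh 𝒟 Q a‖ ^ 2 / (1 + ((a : ℝ) / T) ^ 2) := by positivity
    have h3 : ‖Dh 𝒟 Q a‖ ^ 2 / (1 + ((a : ℝ) / T) ^ 2) ≤ (𝒟.card : ℝ) ^ 2 := by
      have h4 : (1 : ℝ) ≤ 1 + ((a : ℝ) / T) ^ 2 := by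
        have : 0 ≤ ((a : ℝ) / T) ^ 2 := sq_nonneg _
        linarith
      refine (div_le_self (sq_nonneg _) h4).trans ?_
      exact pow_le_pow_left₀ (norm_nonneg _) (Dh_le 𝒟 Q a) 2
    refine (mul_le_mul_of_nonneg_left h1 h2).trans ?_
    have h5 : ‖Dh 𝒟 Q a‖ ^ 2 / (1 + ((a : ℝ) / T) ^ 2) * ((P : ℝ) ^ (2 * m) * l ^ m * (1 / |(a : ℝ)| ^ m)) ≤
        (𝒟.card : ℝ) ^ 2 * ((P : ℝ) ^ (2 * m) * l ^ m * (1 / |(a : ℝ)| ^ m)) :=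
      mul_le_mul_of_nonneg_right h3 (by positivity)
    have h6 : (0 : ℝ) ≤ B ^ m * 2 ^ (m - 1) := by positivity
    calc _ = B ^ m * 2 ^ (m - 1) * ((P : ℝ) ^ m * (‖Dh 𝒟 Q a‖ ^ 2 / (1 + ((a : ℝ) / T) ^ 2)) +
          ‖Dh 𝒟 Q a‖ ^ 2 / (1 + ((a : ℝ) / T) ^ 2) * ((P : ℝ) ^ (2 * m) * l ^ m * (1 / |(a : ℝ)| ^ m))) := by ring
      _ ≤ B ^ m * 2 ^ (m - 1) * ((P : ℝ) ^ m * (‖Dh 𝒟 Q a‖ ^ 2 / (1 + ((a : ℝ) / T) ^ 2)) +
          (𝒟.card : ℝ) ^ 2 * ((P : ℝ) ^ (2 * m) * l ^ m * (1 / |(a : ℝ)| ^ m))) :=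
        mul_le_mul_of_nonneg_left (add_le_add le_rfl h5) h6
      _ = _ := by ring
  have hsum1 : ∑ a ∈ s, ‖Dh 𝒟 Q a‖ ^ 2 / (1 + ((a : ℝ) / T) ^ 2) ≤ 3 * Cw * ((T : ℝ) * (𝒟.card : ℝ)) := by
    refine le_trans ?_ (Dh_blocks 𝒟 Q H T hQ1 hH hTQ h𝒟 A)
    exact sum_le_sum_of_subset_of_nonneg (filter_subset _ _) fun a _ _ => by positivity
  have hsum2 := tail_int m R hm hR s hs1
  refine (mul_le_mul_of_nonneg_left (sum_le_sum hterm) (by positivity)).trans ?_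
  rw [← mul_sum, sum_add_distrib, ← mul_sum, ← mul_sum]
  have hX : (P : ℝ) ^ m * ∑ a ∈ s, ‖Dh 𝒟 Q a‖ ^ 2 / (1 + ((a : ℝ) / T) ^ 2) +
      (𝒟.card : ℝ) ^ 2 * (P : ℝ) ^ (2 * m) * l ^ m * ∑ a ∈ s, 1 / |(a : ℝ)| ^ m ≤
      (P : ℝ) ^ m * (3 * Cw * ((T : ℝ) * (𝒟.card : ℝ))) +
      (𝒟.card : ℝ) ^ 2 * (P : ℝ) ^ (2 * m) * l ^ m * (2 / (R : ℝ) ^ (m - 1)) := by
    refine add_le_add (mul_le_mul_of_nonneg_left hsum1 (by positivity)) ?_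
    exact mul_le_mul_of_nonneg_left hsum2 (by positivity)
  have hY : 3 * Cw * C ^ 2 / T * (B ^ m * 2 ^ (m - 1) * ((P : ℝ) ^ m * (3 * Cw * ((T : ℝ) * (𝒟.card : ℝ))) +
      (𝒟.card : ℝ) ^ 2 * (P : ℝ) ^ (2 * m) * l ^ m * (2 / (R : ℝ) ^ (m - 1)))) =
      C2 * (3 * Cw * ((𝒟.card : ℝ) * (P : ℝ) ^ m) +
        2 * ((𝒟.card : ℝ) ^ 2 * (P : ℝ) ^ (2 * m) * l ^ m / (T * (R : ℝ) ^ (m - 1)))) := by
    rw [hC2]
    field_simp
  have hZ : 0 ≤ (𝒟.card : ℝ) * (P : ℝ) ^ m := by positivity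
  have hZ2 : 0 ≤ (𝒟.card : ℝ) ^ 2 * (P : ℝ) ^ (2 * m) * l ^ m / (T * (R : ℝ) ^ (m - 1)) := by positivity
  calc _ ≤ 3 * Cw * C ^ 2 / T * (B ^ m * 2 ^ (m - 1) * ((P : ℝ) ^ m * (3 * Cw * ((T : ℝ) * (𝒟.card : ℝ))) +
      (𝒟.card : ℝ) ^ 2 * (P : ℝ) ^ (2 * m) * l ^ m * (2 / (R : ℝ) ^ (m - 1)))) := by
        refine mul_le_mul_of_nonneg_left ?_ (by positivity)
        exact mul_le_mul_of_nonneg_left hX (by positivity)
    _ = _ := hY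
    _ ≤ _ := by
        rw [mul_assoc C2]
        refine mul_le_mul_of_nonneg_left ?_ hC20.le
        nlinarith [mul_nonneg hCw.le hZ2]

end Pool.Agent.D0H17.MW
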