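import Pool.Agent.D0H17.MW.Bad

set_option autoImplicit false

/-! From the measure of the bad set to a count of cubes. -/

namespace Pool.Agent.D0H17.MW

open Finset MeasureTheory

/-- the shifts in the half-open unit cube for which some integer `i` of the window is missed in a wide sense
by `𝒟₁ + 𝒟₂` and the shifted powers -/
def UU (n m P H : ℕ) (𝒟₁ 𝒟₂ : Finset ℕ) : Set (Fin (m + 1) → ℝ) :=
  {θ | (∀ j, 0 ≤ θ j ∧ θ j < 1) ∧ ∃ i : ℕ, H * ((m + 1) * (2 * P) ^ (n + 2)) ≤ i ∧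
    i ≤ H * ((m + 1) * (4 * P) ^ (n + 2)) ∧ ∀ b ∈ 𝒟₁, ∀ d ∈ 𝒟₂, ∀ y : Fin (m + 1) → ℕ, (∀ j, P ≤ y j) →
      ¬ (0 < H * (∑ j, ((y j : ℝ) + θ j) ^ (n + 2) + b + d) - i ∧
        H * (∑ j, ((y j : ℝ) + θ j) ^ (n + 2) + b + d) - i < 1)}

lemma pow_abs (n : ℕ) {u v M : ℝ} (hu : 0 ≤ u) (hv : 0 ≤ v) (huM : u ≤ M) (hvM : v ≤ M) :
    |u ^ (n + 1) - v ^ (n + 1)| ≤ (n + 1) * M ^ n * |u - v| := by
  rcases le_total v u with h | h
  · have h1 := pow_up n hv (show 0 ≤ u - v by linarith) (show v + (u - v) ≤ M by linarith)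
    rw [show v + (u - v) = u by ring] at h1
    rw [abs_of_nonneg (sub_nonneg.2 h), abs_of_nonneg (sub_nonneg.2 (pow_le_pow_left₀ hv h _))]
    linarith
  · have h1 := pow_up n hu (show 0 ≤ v - u by linarith) (show u + (v - u) ≤ M by linarith)
    rw [show u + (v - u) = v by ring] at h1
    rw [abs_sub_comm (u ^ (n + 1)), abs_sub_comm u, abs_of_nonneg (sub_nonneg.2 h),
      abs_of_nonneg (sub_nonneg.2 (pow_le_pow_left₀ hu h _))]
    linarith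

/-- the side of the grid -/
def NN (n m P H : ℕ) : ℕ := 3 * H * (m + 1) * (n + 2) * (4 * (m + 1)) ^ (n + 1) * P ^ (n + 1)

lemma NN_pos (n m P H : ℕ) (hP : 1 ≤ P) (hH : 1 ≤ H) : 0 < NN n m P H := by
  unfold NN
  positivity

lemma robust (n m P H : ℕ) (hP : 1 ≤ P) (hH : 1 ≤ H) (𝒟₁ 𝒟₂ : Finset ℕ) (h𝒟₂ : ∀ d ∈ 𝒟₂, d ≤ P ^ (n + 2))
    (θ θ' : Fin (m + 1) → ℝ)
    (hθ : θ ∈ UU n m P H 𝒟₁ 𝒟₂) (hθ' : θ' ∈ Set.Icc (0 : Fin (m + 1) → ℝ) 1)
    (hd : ∀ j, |θ' j - θ j| ≤ 1 / NN n m P H) : θ' ∈ V n m P H 𝒟₂.card 𝒟₁ := by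
  obtain ⟨h01, i, hi1, hi2, hi⟩ := hθ
  have hdi : ∀ d ∈ 𝒟₂, H * d ≤ H * P ^ (n + 2) := fun d hd => Nat.mul_le_mul_left _ (h𝒟₂ d hd)
  have hPi : H * P ^ (n + 2) ≤ i := by
    refine le_trans (Nat.mul_le_mul_left _ ?_) hi1
    calc P ^ (n + 2) ≤ (2 * P) ^ (n + 2) := Nat.pow_le_pow_left (by omega) _
      _ = 1 * (2 * P) ^ (n + 2) := (one_mul _).symm
      _ ≤ (m + 1) * (2 * P) ^ (n + 2) := Nat.mul_le_mul_right _ (by omega)
  refine ⟨hθ', 𝒟₂.image fun d => i - H * d, ?_, ?_⟩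
  · rw [card_image_of_injOn]
    intro d hd1 d' hd2 heq
    have h1 := hdi d hd1
    have h2 := hdi d' hd2
    have heq' : i - H * d = i - H * d' := heq
    have h3 : H * d = H * d' := by omega
    exact Nat.eq_of_mul_eq_mul_left (by omega) h3
  intro i' hi'
  rw [mem_image] at hi'
  obtain ⟨d, hd2, rfl⟩ := hi'
  have hdd := hdi d hd2
  refine ⟨by omega, (Nat.sub_le _ _).trans hi2, ?_⟩
  have hH0 : (0 : ℝ) < H := by exact_mod_cast hH
  have hP0 : (0 : ℝ) < P := by exact_mod_cast hP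
  obtain ⟨M, hM⟩ : ∃ M : ℕ, M = 4 * (m + 1) * P := ⟨_, rfl⟩
  have hMr : (M : ℝ) = 4 * (m + 1) * P := by rw [hM]; push_cast; ring
  have hM0 : (0 : ℝ) < M := by rw [hMr]; positivity
  have hN : (NN n m P H : ℝ) = 3 * H * ((m + 1) * ((n + 2) * (M : ℝ) ^ (n + 1))) := by
    unfold NN
    have e1 : (4 * ((m : ℝ) + 1) * (P : ℝ)) ^ (n + 1) = (4 * ((m : ℝ) + 1)) ^ (n + 1) * (P : ℝ) ^ (n + 1) :=
      mul_pow _ _ _
    rw [hMr, e1]
    push_cast
    ring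
  have hcast : ((i - H * d : ℕ) : ℝ) = (i : ℝ) - H * d := by
    rw [Nat.cast_sub (by omega)]
    push_cast
    ring
  rw [← hM]
  unfold rr
  refine sum_eq_zero fun b hb => sum_eq_zero fun y hy => ?_
  rw [Fintype.mem_piFinset] at hy
  by_contra hne
  have hpos : 0 < K (H * (∑ j, ((y j : ℝ) + θ' j) ^ (n + 2) + b) - ((i - H * d : ℕ) : ℝ)) :=
    lt_of_le_of_ne (K_nonneg _) (Ne.symm hne)
  obtain ⟨h1, h2⟩ := K_pos_mem hpos
  rw [hcast] at h1 h2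
  refine hi b hb d hd2 y (fun j => (mem_Ico.1 (hy j)).1) ?_
  have hdiff : |∑ j, ((y j : ℝ) + θ' j) ^ (n + 2) - ∑ j, ((y j : ℝ) + θ j) ^ (n + 2)| ≤
      (m + 1) * ((n + 2) * (M : ℝ) ^ (n + 1) * (1 / NN n m P H)) := by
    rw [← sum_sub_distrib]
    refine (abs_sum_le_sum_abs _ _).trans ?_
    have h3 : ∀ j ∈ (univ : Finset (Fin (m + 1))), |((y j : ℝ) + θ' j) ^ (n + 2) - ((y j : ℝ) + θ j) ^ (n + 2)| ≤
        (n + 2) * (M : ℝ) ^ (n + 1) * (1 / NN n m P H) := by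
      intro j _
      have h4 := h01 j
      have h5 := hθ'.1 j
      have h6 := hθ'.2 j
      simp only [Pi.zero_apply, Pi.one_apply] at h5 h6
      have h7 : (y j : ℝ) + 1 ≤ M := by
        have := (mem_Ico.1 (hy j)).2
        exact_mod_cast this
      have h8 : (0 : ℝ) ≤ y j := Nat.cast_nonneg _
      have h9 := pow_abs (n + 1) (u := (y j : ℝ) + θ' j) (v := (y j : ℝ) + θ j) (M := M) (by linarith) (by linarith [h4.1])
        (by linarith) (by linarith [h4.2])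
      have h10 : (y j : ℝ) + θ' j - ((y j : ℝ) + θ j) = θ' j - θ j := by ring
      rw [h10] at h9
      have h11 : (((n + 1 : ℕ) : ℝ) + 1) * (M : ℝ) ^ (n + 1) * |θ' j - θ j| ≤
          (n + 2) * (M : ℝ) ^ (n + 1) * (1 / NN n m P H) := by
        push_cast
        have e1 : (n : ℝ) + 1 + 1 = n + 2 := by ring
        rw [e1]
        exact mul_le_mul_of_nonneg_left (hd j) (by positivity)
      exact h9.trans h11
    refine (sum_le_sum h3).trans (le_of_eq ?_)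
    rw [sum_const, card_univ, Fintype.card_fin, nsmul_eq_mul]
    push_cast
    ring
  have h3 : (m + 1) * ((n + 2) * (M : ℝ) ^ (n + 1) * (1 / NN n m P H)) = 1 / (3 * H) := by
    rw [hN]
    have : (0 : ℝ) < (M : ℝ) ^ (n + 1) := by positivity
    field_simp
  rw [h3] at hdiff
  set F' := ∑ j, ((y j : ℝ) + θ' j) ^ (n + 2)
  set F := ∑ j, ((y j : ℝ) + θ j) ^ (n + 2)
  have h4 : H * |F' - F| ≤ 1 / 3 := by
    calc H * |F' - F| ≤ H * (1 / (3 * H)) := mul_le_mul_of_nonneg_left hdiff hH0.le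
      _ = 1 / 3 := by field_simp
  have h5 : |H * (F' - F)| ≤ 1 / 3 := by
    rw [abs_mul, abs_of_pos hH0]
    exact h4
  rw [abs_le] at h5
  have h6 : H * (F + b + d) - i = H * (F' + b) - (i - H * d) - H * (F' - F) := by ring
  rw [h6]
  constructor <;> linarith [h5.1, h5.2]

/-- the cubes of the grid -/
def cube (m N : ℕ) (z : Fin m → ℕ) : Set (Fin m → ℝ) :=
  Set.univ.pi fun j => Set.Ico ((z j : ℝ) / N) (((z j : ℝ) + 1) / N)

open Classical in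
/-- the cubes which meet the bad set -/
noncomputable def FF (n m P H : ℕ) (𝒟₁ 𝒟₂ : Finset ℕ) : Finset (Fin (m + 1) → ℕ) :=
  (Fintype.piFinset fun _ => range (NN n m P H)).filter fun z => (cube (m + 1) (NN n m P H) z ∩ UU n m P H 𝒟₁ 𝒟₂).Nonempty

lemma cube_diam (m N : ℕ) (hN : 0 < N) (z : Fin m → ℕ) :
    Metric.ediam (cube m N z) ≤ ENNReal.ofReal (1 / N) := by
  have hN0 : (0 : ℝ) < N := by exact_mod_cast hN
  refine Metric.ediam_le fun x hx y hy => ?_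
  rw [edist_pi_le_iff]
  intro j
  have h1 := hx j (Set.mem_univ j)
  have h2 := hy j (Set.mem_univ j)
  simp only [Set.mem_Ico] at h1 h2
  rw [edist_dist, Real.dist_eq]
  refine ENNReal.ofReal_le_ofReal ?_
  have h3 : ((z j : ℝ) + 1) / N = (z j : ℝ) / N + 1 / N := by ring
  rw [h3] at h1 h2
  rw [abs_le]
  constructor <;> linarith [h1.1, h1.2, h2.1, h2.2]

lemma cube_sub (m N : ℕ) (hN : 0 < N) (z : Fin m → ℕ) (hz : ∀ j, z j < N) :
    cube m N z ⊆ Set.Icc (0 : Fin m → ℝ) 1 := by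
  have hN0 : (0 : ℝ) < N := by exact_mod_cast hN
  intro x hx
  rw [Set.mem_Icc]
  constructor
  · intro j
    have h1 := hx j (Set.mem_univ j)
    simp only [Set.mem_Ico] at h1
    have : (0 : ℝ) ≤ (z j : ℝ) / N := by positivity
    simp only [Pi.zero_apply]
    linarith [h1.1]
  · intro j
    have h1 := hx j (Set.mem_univ j)
    simp only [Set.mem_Ico] at h1
    have h2 : ((z j : ℝ) + 1) / N ≤ 1 := by
      rw [div_le_one hN0]
      exact_mod_cast hz j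
    simp only [Pi.one_apply]
    linarith [h1.2]

lemma cube_measure (m N : ℕ) (hN : 0 < N) (z : Fin m → ℕ) (hz : ∀ j, z j < N) :
    (mu m).real (cube m N z) = (1 / (N : ℝ)) ^ m := by
  have hN0 : (0 : ℝ) < N := by exact_mod_cast hN
  have h1 : mu m (cube m N z) = volume (cube m N z) := by
    unfold mu
    exact Measure.restrict_eq_self _ (cube_sub m N hN z hz)
  rw [Measure.real, h1]
  unfold cube
  rw [Real.volume_pi_Ico_toReal]
  · have h2 : ∀ j : Fin m, ((z j : ℝ) + 1) / N - (z j : ℝ) / N = 1 / N := fun j => by ring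
    simp_rw [h2]
    simp
  · intro j
    show (z j : ℝ) / N ≤ ((z j : ℝ) + 1) / N
    exact div_le_div_of_nonneg_right (by linarith) hN0.le

lemma cube_disj (m N : ℕ) (hN : 0 < N) (z w : Fin m → ℕ) (h : z ≠ w) : Disjoint (cube m N z) (cube m N w) := by
  have hN0 : (0 : ℝ) < N := by exact_mod_cast hN
  rw [Set.disjoint_left]
  intro x hx hy
  apply h
  funext j
  have h1 := hx j (Set.mem_univ j)
  have h2 := hy j (Set.mem_univ j)
  simp only [Set.mem_Ico, div_le_iff₀ hN0, lt_div_iff₀ hN0] at h1 h2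
  have h3 : (z j : ℝ) < w j + 1 := by linarith [h1.1, h2.2]
  have h4 : (w j : ℝ) < z j + 1 := by linarith [h1.2, h2.1]
  have h5 : z j < w j + 1 := by exact_mod_cast h3
  have h6 : w j < z j + 1 := by exact_mod_cast h4
  omega

lemma FF_card (n m P H : ℕ) (hP : 1 ≤ P) (hH : 1 ≤ H) (𝒟₁ 𝒟₂ : Finset ℕ)
    (h𝒟₂ : ∀ d ∈ 𝒟₂, d ≤ P ^ (n + 2)) :
    ((FF n m P H 𝒟₁ 𝒟₂).card : ℝ) ≤ (NN n m P H : ℝ) ^ (m + 1) * (mu (m + 1)).real (V n m P H 𝒟₂.card 𝒟₁) := by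
  classical
  have hN := NN_pos n m P H hP hH
  set N := NN n m P H with hNdef
  have hN0 : (0 : ℝ) < N := by exact_mod_cast hN
  have hlt : ∀ z ∈ FF n m P H 𝒟₁ 𝒟₂, ∀ j, z j < N := by
    intro z hz j
    unfold FF at hz
    rw [mem_filter, Fintype.mem_piFinset] at hz
    exact mem_range.1 (hz.1 j)
  have hsub : (⋃ z ∈ FF n m P H 𝒟₁ 𝒟₂, cube (m + 1) N z) ⊆ V n m P H 𝒟₂.card 𝒟₁ := by
    intro θ' hθ'
    simp only [Set.mem_iUnion] at hθ'
    obtain ⟨z, hz, hzθ⟩ := hθ'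
    have hz2 := hz
    unfold FF at hz2
    rw [mem_filter] at hz2
    obtain ⟨θ, hθc, hθU⟩ := hz2.2
    refine robust n m P H hP hH 𝒟₁ 𝒟₂ h𝒟₂ θ θ' hθU (cube_sub (m + 1) N hN z (hlt z hz) hzθ) fun j => ?_
    have h1 := hzθ j (Set.mem_univ j)
    have h2 := hθc j (Set.mem_univ j)
    rw [← hNdef] at h2
    simp only [Set.mem_Ico] at h1 h2
    have h3 : ((z j : ℝ) + 1) / N = (z j : ℝ) / N + 1 / N := by ring
    rw [h3] at h1 h2
    rw [← hNdef, abs_le]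
    constructor <;> linarith [h1.1, h1.2, h2.1, h2.2]
  have hunion : (mu (m + 1)).real (⋃ z ∈ FF n m P H 𝒟₁ 𝒟₂, cube (m + 1) N z) =
      ∑ z ∈ FF n m P H 𝒟₁ 𝒟₂, (mu (m + 1)).real (cube (m + 1) N z) := by
    refine measureReal_biUnion_finset ?_ ?_
    · intro z _ w _ hzw
      exact cube_disj (m + 1) N hN z w hzw
    · intro z _
      unfold cube
      exact MeasurableSet.univ_pi fun j => measurableSet_Ico
  have h1 : ∑ z ∈ FF n m P H 𝒟₁ 𝒟₂, (mu (m + 1)).real (cube (m + 1) N z) =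
      ((FF n m P H 𝒟₁ 𝒟₂).card : ℝ) * (1 / (N : ℝ)) ^ (m + 1) := by
    rw [sum_congr rfl fun z hz => cube_measure (m + 1) N hN z (hlt z hz), sum_const, nsmul_eq_mul]
  have h2 : ((FF n m P H 𝒟₁ 𝒟₂).card : ℝ) * (1 / (N : ℝ)) ^ (m + 1) ≤ (mu (m + 1)).real (V n m P H 𝒟₂.card 𝒟₁) := by
    rw [← h1, ← hunion]
    exact measureReal_mono hsub
  have h3 : ((FF n m P H 𝒟₁ 𝒟₂).card : ℝ) = (N : ℝ) ^ (m + 1) * (((FF n m P H 𝒟₁ 𝒟₂).card : ℝ) * (1 / (N : ℝ)) ^ (m + 1)) := by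
    rw [one_div, inv_pow]
    have : (N : ℝ) ^ (m + 1) ≠ 0 := by positivity
    field_simp
  rw [h3]
  exact mul_le_mul_of_nonneg_left h2 (by positivity)

/-- every bad shift lies in a cube of the family -/
lemma UU_cover (n m P H : ℕ) (hP : 1 ≤ P) (hH : 1 ≤ H) (𝒟₁ 𝒟₂ : Finset ℕ) (θ : Fin (m + 1) → ℝ)
    (hθ : θ ∈ UU n m P H 𝒟₁ 𝒟₂) : ∃ z ∈ FF n m P H 𝒟₁ 𝒟₂, θ ∈ cube (m + 1) (NN n m P H) z := by
  classical
  have hN := NN_pos n m P H hP hH
  have hN0 : (0 : ℝ) < NN n m P H := by exact_mod_cast hN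
  have hmem : θ ∈ cube (m + 1) (NN n m P H) (fun j => ⌊θ j * NN n m P H⌋₊) := by
    intro j _
    have h1 := hθ.1 j
    have h2 : 0 ≤ θ j * NN n m P H := mul_nonneg h1.1 hN0.le
    simp only [Set.mem_Ico, div_le_iff₀ hN0, lt_div_iff₀ hN0]
    exact ⟨Nat.floor_le h2, Nat.lt_floor_add_one _⟩
  refine ⟨_, ?_, hmem⟩
  unfold FF
  rw [mem_filter, Fintype.mem_piFinset]
  refine ⟨fun j => ?_, θ, hmem, hθ⟩
  rw [mem_range]
  have h1 := hθ.1 j
  have h2 : 0 ≤ θ j * NN n m P H := mul_nonneg h1.1 hN0.le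
  rw [Nat.floor_lt h2]
  nlinarith [h1.2]

end Pool.Agent.D0H17.MW
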