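import Pool.Agent.D0H17.MW.Ex

set_option autoImplicit false

/-! The counting function, its main term and the major arcs. -/

namespace Pool.Agent.D0H17.MW

open Finset MeasureTheory

lemma pow_up (n : ℕ) {u D M : ℝ} (hu : 0 ≤ u) (hD : 0 ≤ D) (hM : u + D ≤ M) :
    (u + D) ^ (n + 1) ≤ u ^ (n + 1) + (n + 1) * M ^ n * D := by
  induction n with
  | zero => simp
  | succ n ih =>
    have hM0 : 0 ≤ M := by linarith
    have h1 : (u + D) ^ (n + 1) * D ≤ M ^ (n + 1) * D := by
      refine mul_le_mul_of_nonneg_right (pow_le_pow_left₀ (by linarith) hM _) hD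
    have h2 : (u + D) ^ (n + 1 + 1) = u * (u + D) ^ (n + 1) + (u + D) ^ (n + 1) * D := by ring
    have h3 : u * (u + D) ^ (n + 1) ≤ u * (u ^ (n + 1) + (n + 1) * M ^ n * D) := mul_le_mul_of_nonneg_left ih hu
    have h4 : u * ((n + 1) * M ^ n * D) ≤ M * ((n + 1) * M ^ n * D) := by
      refine mul_le_mul_of_nonneg_right (by linarith) (by positivity)
    have h5 : u * (u ^ (n + 1) + (n + 1) * M ^ n * D) = u ^ (n + 1 + 1) + u * ((n + 1) * M ^ n * D) := by ring
    have h6 : M * ((n + 1) * M ^ n * D) = (n + 1) * M ^ (n + 1) * D := by ring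
    push_cast
    rw [h2]
    nlinarith

/-- the inner integral -/
lemma inner (n P M H : ℕ) (hP : 1 ≤ P) (hH : 1 ≤ H) {x : ℝ} (h1 : (P : ℝ) ^ (n + 1) ≤ x)
    (h2 : x + 1 ≤ (M : ℝ) ^ (n + 1)) :
    1 / (6 * H * ((n + 1) * (M : ℝ) ^ n)) ≤ ∫ u in (P : ℝ)..(M : ℝ), K (H * (u ^ (n + 1) - x)) := by
  have hP0 : (1 : ℝ) ≤ P := by exact_mod_cast hP
  have hH0 : (1 : ℝ) ≤ H := by exact_mod_cast hH
  have hx0 : 0 ≤ x := le_trans (by positivity) h1
  have hM0 : (0 : ℝ) ≤ M := Nat.cast_nonneg M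
  have hMP : (P : ℝ) < M := by
    refine lt_of_pow_lt_pow_left₀ (n + 1) hM0 ?_
    linarith
  have hM1 : (0 : ℝ) < M := by linarith
  set u1 : ℝ := (x + 5 / (12 * H)) ^ ((1 : ℝ) / ((n + 1 : ℕ) : ℝ)) with hu1
  have hpos : 0 ≤ x + 5 / (12 * H) := by positivity
  have hu1k : u1 ^ (n + 1) = x + 5 / (12 * H) := by
    rw [hu1, ← Real.rpow_natCast, ← Real.rpow_mul hpos]
    have : (1 : ℝ) / ((n + 1 : ℕ) : ℝ) * ((n + 1 : ℕ) : ℝ) = 1 := by
      have : (((n + 1 : ℕ) : ℝ)) ≠ 0 := by positivity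
      field_simp
    rw [this, Real.rpow_one]
  have hu10 : 0 ≤ u1 := Real.rpow_nonneg hpos _
  have h512 : 5 / (12 * (H : ℝ)) ≤ 5 / 12 := by
    refine div_le_div_of_nonneg_left (by norm_num) (by norm_num) (by linarith)
  have h512' : 0 < 5 / (12 * (H : ℝ)) := by positivity
  have hPu : (P : ℝ) ≤ u1 := by
    refine le_of_pow_le_pow_left₀ (n := n + 1) (by omega) hu10 ?_
    rw [hu1k]
    linarith
  set δ : ℝ := 1 / (6 * H * ((n + 1) * (M : ℝ) ^ n)) with hδ
  have hMn : 0 < (M : ℝ) ^ n := by positivity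
  have hδ0 : 0 < δ := by simp only [hδ]; positivity
  have hu1M : u1 < M := by
    refine lt_of_pow_lt_pow_left₀ (n + 1) hM0 ?_
    rw [hu1k]
    linarith
  have hsum : u1 + δ ≤ M := by
    have h3 := pow_up n hu10 (show 0 ≤ (M : ℝ) - u1 by linarith) (show u1 + (M - u1) ≤ (M : ℝ) by linarith)
    rw [show u1 + ((M : ℝ) - u1) = M by ring, hu1k] at h3
    have h4 : (7 / 12 : ℝ) ≤ (n + 1) * (M : ℝ) ^ n * (M - u1) := by linarith
    have h5 : δ * ((n + 1) * (M : ℝ) ^ n) ≤ 7 / 12 := by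
      have e1 : δ * ((n + 1) * (M : ℝ) ^ n) = 1 / (6 * H) := by
        rw [hδ]
        have : ((n : ℝ) + 1) ≠ 0 := by positivity
        field_simp
      rw [e1]
      rw [div_le_iff₀ (by positivity)]
      linarith
    have h6 : 0 < (n + 1) * (M : ℝ) ^ n := by positivity
    have h7 : δ * ((n + 1) * (M : ℝ) ^ n) ≤ (M - u1) * ((n + 1) * (M : ℝ) ^ n) := by linarith
    have := le_of_mul_le_mul_right h7 h6
    linarith
  have hcont : Continuous fun u : ℝ => K (H * (u ^ (n + 1) - x)) := continuous_K.comp (by fun_prop)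
  have hle : ∫ u in u1..(u1 + δ), K (H * (u ^ (n + 1) - x)) ≤ ∫ u in (P : ℝ)..(M : ℝ), K (H * (u ^ (n + 1) - x)) := by
    refine intervalIntegral.integral_mono_interval hPu (by linarith) hsum ?_ (hcont.intervalIntegrable _ _)
    exact Filter.Eventually.of_forall fun u => K_nonneg _
  have heq : ∫ u in u1..(u1 + δ), K (H * (u ^ (n + 1) - x)) = ∫ u in u1..(u1 + δ), (1 : ℝ) := by
    refine intervalIntegral.integral_congr fun u hu => ?_
    rw [Set.uIcc_of_le (by linarith)] at hu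
    have hu0 : 0 ≤ u := hu10.trans hu.1
    have h3 : x + 5 / (12 * H) ≤ u ^ (n + 1) := by
      rw [← hu1k]
      exact pow_le_pow_left₀ hu10 hu.1 _
    have h4 : u ^ (n + 1) ≤ x + 5 / (12 * H) + 1 / (6 * H) := by
      have h5 := pow_up n hu10 (show 0 ≤ u - u1 by linarith [hu.1]) (show u1 + (u - u1) ≤ (M : ℝ) by linarith [hu.2])
      rw [show u1 + (u - u1) = u by ring, hu1k] at h5
      have h6 : (n + 1) * (M : ℝ) ^ n * (u - u1) ≤ (n + 1) * (M : ℝ) ^ n * δ :=
        mul_le_mul_of_nonneg_left (by linarith [hu.2]) (by positivity)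
      have h7 : (n + 1) * (M : ℝ) ^ n * δ = 1 / (6 * H) := by
        rw [hδ]
        have : ((n : ℝ) + 1) ≠ 0 := by positivity
        field_simp
      linarith
    refine K_one ?_ ?_
    · have h5 : H * (5 / (12 * (H : ℝ))) ≤ H * (u ^ (n + 1) - x) := mul_le_mul_of_nonneg_left (by linarith) (by linarith)
      have h6 : H * (5 / (12 * (H : ℝ))) = 5 / 12 := by field_simp
      linarith
    · have h5 : H * (u ^ (n + 1) - x) ≤ H * (5 / (12 * (H : ℝ)) + 1 / (6 * H)) :=
        mul_le_mul_of_nonneg_left (by linarith) (by linarith)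
      have h6 : H * (5 / (12 * (H : ℝ)) + 1 / (6 * H)) = 7 / 12 := by
        field_simp
        norm_num
      linarith
  rw [heq] at hle
  simp only [intervalIntegral.integral_const, smul_eq_mul, mul_one] at hle
  linarith

/-- the counting function -/
noncomputable def rr (k P M m H : ℕ) (𝒟 : Finset ℕ) (θ : Fin m → ℝ) (i : ℕ) : ℝ :=
  ∑ b ∈ 𝒟, ∑ y ∈ Fintype.piFinset (fun _ : Fin m => Ico P M),
    K (H * (∑ j, ((y j : ℝ) + θ j) ^ k + b) - i)

lemma continuous_rr (k P M m H : ℕ) (𝒟 : Finset ℕ) (i : ℕ) : Continuous fun θ => rr k P M m H 𝒟 θ i := by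
  unfold rr
  refine continuous_finsetSum _ fun b _ => continuous_finsetSum _ fun y _ => continuous_K.comp ?_
  fun_prop

lemma rr_nonneg (k P M m H : ℕ) (𝒟 : Finset ℕ) (θ : Fin m → ℝ) (i : ℕ) : 0 ≤ rr k P M m H 𝒟 θ i :=
  sum_nonneg fun _ _ => sum_nonneg fun _ _ => K_nonneg _

/-- integration over the cube, the first variable apart -/
lemma int_cons (m : ℕ) (f : (Fin (m + 1) → ℝ) → ℝ) (hf : Continuous f) :
    ∫ θ, f θ ∂(mu (m + 1)) = ∫ θ', ∫ x, f (Fin.cons x θ') ∂nu ∂(mu m) := by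
  rw [mu_eq, mu_eq]
  have h1 := measurePreserving_piFinSuccAbove (fun _ : Fin (m + 1) => nu) 0
  have h2 : ∀ θ : Fin (m + 1) → ℝ, f θ = (fun p : ℝ × (Fin m → ℝ) => f (Fin.cons p.1 p.2))
      ((MeasurableEquiv.piFinSuccAbove (fun _ => ℝ) 0) θ) := by
    intro θ
    have h3 : (Fin.cons ((MeasurableEquiv.piFinSuccAbove (fun _ => ℝ) 0) θ).1
      ((MeasurableEquiv.piFinSuccAbove (fun _ => ℝ) 0) θ).2 : Fin (m + 1) → ℝ) = θ := by
      funext j
      refine Fin.cases ?_ (fun j => ?_) j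
      · rfl
      · rfl
    simp only
    rw [h3]
  have h4 : ∫ θ, f θ ∂(Measure.pi fun _ : Fin (m + 1) => nu) =
      ∫ p : ℝ × (Fin m → ℝ), f (Fin.cons p.1 p.2) ∂(nu.prod (Measure.pi fun _ : Fin m => nu)) := by
    rw [integral_congr_ae (Filter.Eventually.of_forall h2)]
    exact h1.integral_comp (MeasurableEquiv.measurableEmbedding _) (fun p : ℝ × (Fin m → ℝ) => f (Fin.cons p.1 p.2))
  have hc : Continuous fun p : ℝ × (Fin m → ℝ) => f (Fin.cons p.1 p.2) := by
    refine hf.comp ?_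
    refine continuous_pi fun j => ?_
    refine Fin.cases ?_ (fun j => ?_) j
    · simp only [Fin.cons_zero]; exact continuous_fst
    · simp only [Fin.cons_succ]; exact (continuous_apply j).comp continuous_snd
  rw [h4, integral_prod_symm]
  have h5 : nu.prod (Measure.pi fun _ : Fin m => nu) =
      (volume : Measure (ℝ × (Fin m → ℝ))).restrict (Set.Icc 0 1 ×ˢ Set.Icc 0 1) := by
    rw [← mu_eq]
    unfold nu mu
    rw [Measure.prod_restrict]
    rfl
  rw [h5]
  exact hc.continuousOn.integrableOn_compact (isCompact_Icc.prod isCompact_Icc)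

/-- lower bound for the mean of the counting function -/
lemma main_lower (n m P H : ℕ) (hm : 1 ≤ m) (hP : 1 ≤ P) (hH : 1 ≤ H) (𝒟 : Finset ℕ)
    (h𝒟 : ∀ b ∈ 𝒟, b ≤ P ^ (n + 2)) (i : ℕ) (hi1 : H * ((m + 1) * (2 * P) ^ (n + 2)) ≤ i + H * P ^ (n + 2))
    (hi2 : i ≤ H * ((m + 1) * (4 * P) ^ (n + 2))) :
    (𝒟.card : ℝ) * (P : ℝ) ^ m * (1 / (6 * H * ((n + 2) * (4 * (m + 1) * P : ℝ) ^ (n + 1)))) ≤
      ∫ θ, rr (n + 2) P (4 * (m + 1) * P) (m + 1) H 𝒟 θ i ∂(mu (m + 1)) := by
  set M : ℕ := 4 * (m + 1) * P with hM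
  have hMr : (M : ℝ) = 4 * (m + 1) * P := by rw [hM]; push_cast; ring
  set c0 : ℝ := 1 / (6 * H * ((n + 2) * (4 * (m + 1) * P : ℝ) ^ (n + 1))) with hc0
  have hP0 : (1 : ℝ) ≤ P := by exact_mod_cast hP
  have hH0 : (1 : ℝ) ≤ H := by exact_mod_cast hH
  have hm0 : (1 : ℝ) ≤ m := by exact_mod_cast hm
  have hPM : P ≤ M := by rw [hM]; nlinarith
  have h2PM : 2 * P ≤ M := by rw [hM]; nlinarith
  have hi1r : H * ((m + 1) * (2 * P : ℝ) ^ (n + 2)) ≤ i + H * (P : ℝ) ^ (n + 2) := by exact_mod_cast hi1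
  have hi2r : (i : ℝ) ≤ H * ((m + 1) * (4 * P : ℝ) ^ (n + 2)) := by exact_mod_cast hi2
  have hKc : ∀ (b : ℕ) (y : Fin (m + 1) → ℕ), Continuous fun θ : Fin (m + 1) → ℝ =>
      K (H * (∑ j, ((y j : ℝ) + θ j) ^ (n + 2) + b) - i) := by
    intro b y
    refine continuous_K.comp ?_
    fun_prop
  have h1 : ∫ θ, rr (n + 2) P M (m + 1) H 𝒟 θ i ∂(mu (m + 1)) =
      ∑ b ∈ 𝒟, ∑ y ∈ Fintype.piFinset (fun _ : Fin (m + 1) => Ico P M),
        ∫ θ, K (H * (∑ j, ((y j : ℝ) + θ j) ^ (n + 2) + b) - i) ∂(mu (m + 1)) := by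
    unfold rr
    rw [integral_finsetSum]
    · refine sum_congr rfl fun b _ => ?_
      rw [integral_finsetSum]
      intro y _
      exact integrable_mu (hKc b y)
    · intro b _
      exact integrable_mu (continuous_finsetSum _ fun y _ => hKc b y)
  rw [h1]
  have h2 : ∀ b ∈ 𝒟, (P : ℝ) ^ m * c0 ≤ ∑ y ∈ Fintype.piFinset (fun _ : Fin (m + 1) => Ico P M),
        ∫ θ, K (H * (∑ j, ((y j : ℝ) + θ j) ^ (n + 2) + b) - i) ∂(mu (m + 1)) := by
    intro b hb
    have hbr : (b : ℝ) ≤ (P : ℝ) ^ (n + 2) := by exact_mod_cast h𝒟 b hb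
    set g : (Fin (m + 1) → ℕ) → ℝ := fun y =>
      ∫ θ, K (H * (∑ j, ((y j : ℝ) + θ j) ^ (n + 2) + b) - i) ∂(mu (m + 1)) with hg
    have hg0 : ∀ y, 0 ≤ g y := fun y => integral_nonneg fun θ => K_nonneg _
    -- restrict the sum
    have h3 : ∑ y' ∈ Fintype.piFinset (fun _ : Fin m => Ico P (2 * P)), ∑ y0 ∈ Ico P M, g (Fin.cons y0 y') ≤
        ∑ y ∈ Fintype.piFinset (fun _ : Fin (m + 1) => Ico P M), g y := by
      rw [← Finset.sum_product']
      rw [← Finset.sum_image (s := (Fintype.piFinset (fun _ : Fin m => Ico P (2 * P))) ×ˢ (Ico P M))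
        (g := fun p : (Fin m → ℕ) × ℕ => (Fin.cons p.2 p.1 : Fin (m + 1) → ℕ)) (f := g)]
      · refine sum_le_sum_of_subset_of_nonneg ?_ fun y _ _ => hg0 y
        intro y hy
        rw [mem_image] at hy
        obtain ⟨⟨y', y0⟩, hp, rfl⟩ := hy
        rw [mem_product, Fintype.mem_piFinset] at hp
        rw [Fintype.mem_piFinset]
        intro j
        refine Fin.cases ?_ (fun j => ?_) j
        · exact hp.2
        · have := hp.1 j
          simp only [Fin.cons_succ]
          rw [mem_Ico] at this ⊢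
          exact ⟨this.1, this.2.trans_le h2PM⟩
      · rintro ⟨y1, a1⟩ _ ⟨y2, a2⟩ _ h
        have h' : (Fin.cons a1 y1 : Fin (m + 1) → ℕ) = Fin.cons a2 y2 := h
        rw [Fin.cons_inj] at h'
        exact Prod.ext h'.2 h'.1
    refine le_trans ?_ h3
    have h4 : ∀ y' ∈ Fintype.piFinset (fun _ : Fin m => Ico P (2 * P)), c0 ≤ ∑ y0 ∈ Ico P M, g (Fin.cons y0 y') := by
      intro y' hy'
      rw [Fintype.mem_piFinset] at hy'
      have h5 : ∑ y0 ∈ Ico P M, g (Fin.cons y0 y') =
          ∫ θ', (∑ y0 ∈ Ico P M, ∫ x, K (H * (((y0 : ℝ) + x) ^ (n + 2) +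
            (∑ j, ((y' j : ℝ) + θ' j) ^ (n + 2) + b)) - i) ∂nu) ∂(mu m) := by
        rw [integral_finsetSum]
        · refine sum_congr rfl fun y0 _ => ?_
          simp only [hg]
          rw [int_cons m _ (hKc b _)]
          refine integral_congr_ae (Filter.Eventually.of_forall fun θ' => ?_)
          refine integral_congr_ae (Filter.Eventually.of_forall fun x => ?_)
          simp only [Fin.sum_univ_succ, Fin.cons_zero, Fin.cons_succ]
          congr 1
          ring
        · intro y0 _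
          refine integrable_mu ?_
          simp_rw [int_nu]
          refine intervalIntegral.continuous_parametric_intervalIntegral_of_continuous' ?_ _ _
          refine continuous_K.comp ?_
          fun_prop
      rw [h5]
      have h6 : ∀ θ' ∈ Set.Icc (0 : Fin m → ℝ) 1, c0 ≤ ∑ y0 ∈ Ico P M, ∫ x, K (H * (((y0 : ℝ) + x) ^ (n + 2) +
            (∑ j, ((y' j : ℝ) + θ' j) ^ (n + 2) + b)) - i) ∂nu := by
        intro θ' hθ
        set w : ℝ := ∑ j, ((y' j : ℝ) + θ' j) ^ (n + 2) + b with hw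
        have hw0 : 0 ≤ w := by
          refine add_nonneg (sum_nonneg fun j _ => pow_nonneg ?_ _) (Nat.cast_nonneg b)
          have := hθ.1 j
          simp only [Pi.zero_apply] at this
          positivity
        have hw1 : w ≤ m * (2 * P : ℝ) ^ (n + 2) + (P : ℝ) ^ (n + 2) := by
          refine add_le_add ?_ hbr
          have : ∑ j : Fin m, ((y' j : ℝ) + θ' j) ^ (n + 2) ≤ ∑ j : Fin m, (2 * P : ℝ) ^ (n + 2) := by
            refine sum_le_sum fun j _ => ?_
            have h7 := hθ.1 j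
            have h8 := hθ.2 j
            simp only [Pi.zero_apply, Pi.one_apply] at h7 h8
            have h9 : (y' j : ℝ) + 1 ≤ 2 * P := by
              have := (mem_Ico.1 (hy' j)).2
              exact_mod_cast this
            refine pow_le_pow_left₀ (by positivity) (by linarith) _
          refine this.trans (le_of_eq ?_)
          simp
        have h7 : ∑ y0 ∈ Ico P M, ∫ x, K (H * (((y0 : ℝ) + x) ^ (n + 2) + w) - i) ∂nu =
            ∫ u in (P : ℝ)..(M : ℝ), K (H * (u ^ (n + 2) - ((i : ℝ) / H - w))) := by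
          have e1 : ∀ u : ℝ, K (H * (u ^ (n + 2) - ((i : ℝ) / H - w))) = K (H * (u ^ (n + 2) + w) - i) := by
            intro u
            congr 1
            field_simp
            ring
          simp_rw [e1, int_nu]
          have hcc : Continuous fun u : ℝ => ((K (H * (u ^ (n + 2) + w) - i) : ℝ) : ℂ) :=
            Complex.continuous_ofReal.comp (continuous_K.comp (by fun_prop))
          have h8 := sum_unit (fun u : ℝ => ((K (H * (u ^ (n + 2) + w) - i) : ℝ) : ℂ)) hcc P (M - P)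
          have h9 : (P : ℝ) + ((M - P : ℕ) : ℝ) = M := by
            rw [Nat.cast_sub hPM]; ring
          rw [h9] at h8
          simp only [intervalIntegral.integral_ofReal] at h8
          rw [← Complex.ofReal_sum] at h8
          have h10 := Complex.ofReal_injective h8
          rw [← h10, Finset.sum_Ico_eq_sum_range]
          refine sum_congr rfl fun j _ => ?_
          push_cast
          rfl
        rw [h7]
        have hx1 : ((2 * P : ℝ)) ^ (n + 2) - 2 * (P : ℝ) ^ (n + 2) ≤ (i : ℝ) / H - w := by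
          have : (m + 1) * (2 * P : ℝ) ^ (n + 2) - (P : ℝ) ^ (n + 2) ≤ (i : ℝ) / H := by
            rw [le_div_iff₀ (by linarith)]
            linarith
          linarith
        have hx2 : (i : ℝ) / H - w ≤ (m + 1) * (4 * P : ℝ) ^ (n + 2) := by
          have : (i : ℝ) / H ≤ (m + 1) * (4 * P : ℝ) ^ (n + 2) := by
            rw [div_le_iff₀ (by linarith)]
            linarith
          linarith
        have hPk : (1 : ℝ) ≤ (P : ℝ) ^ (n + 2) := one_le_pow₀ hP0
        have h2k : (4 : ℝ) * (P : ℝ) ^ (n + 2) ≤ (2 * P : ℝ) ^ (n + 2) := by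
          rw [mul_pow]
          refine mul_le_mul_of_nonneg_right ?_ (by linarith)
          calc (4 : ℝ) = 2 ^ 2 := by norm_num
            _ ≤ 2 ^ (n + 2) := pow_le_pow_right₀ (by norm_num) (by omega)
        have h3k : (m + 1) * (4 * P : ℝ) ^ (n + 2) + 1 ≤ (M : ℝ) ^ (n + 2) := by
          have e1 : (M : ℝ) ^ (n + 2) = (m + 1 : ℝ) ^ (n + 2) * (4 * P : ℝ) ^ (n + 2) := by
            rw [hMr, ← mul_pow]
            congr 1
            ring
          have e2 : (1 : ℝ) ≤ (4 * P : ℝ) ^ (n + 2) := one_le_pow₀ (by linarith)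
          have e3 : (m + 2 : ℝ) ≤ (m + 1 : ℝ) ^ (n + 2) := by
            have e4 : (m + 1 : ℝ) ^ 2 ≤ (m + 1 : ℝ) ^ (n + 2) := pow_le_pow_right₀ (by linarith) (by omega)
            nlinarith
          rw [e1]
          nlinarith
        have h11 := inner (n + 1) P M H hP hH (x := (i : ℝ) / H - w) (by linarith) (by linarith)
        refine le_trans (le_of_eq ?_) h11
        rw [hc0, hMr]
        push_cast
        ring_nf
      have h7 : ∫ θ', c0 ∂(mu m) ≤ ∫ θ', (∑ y0 ∈ Ico P M, ∫ x, K (H * (((y0 : ℝ) + x) ^ (n + 2) +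
            (∑ j, ((y' j : ℝ) + θ' j) ^ (n + 2) + b)) - i) ∂nu) ∂(mu m) := by
        refine integral_mono_ae (integrable_const _) ?_ ?_
        · refine integrable_mu (continuous_finsetSum _ fun y0 _ => ?_)
          simp_rw [int_nu]
          refine intervalIntegral.continuous_parametric_intervalIntegral_of_continuous' ?_ _ _
          refine continuous_K.comp ?_
          fun_prop
        · unfold mu
          exact (ae_restrict_iff' measurableSet_Icc).2 (Filter.Eventually.of_forall h6)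
      simpa using h7
    calc (P : ℝ) ^ m * c0 = ∑ y' ∈ Fintype.piFinset (fun _ : Fin m => Ico P (2 * P)), c0 := by
          rw [sum_const, nsmul_eq_mul, Fintype.card_piFinset]
          simp only [Nat.card_Ico, prod_const, card_univ, Fintype.card_fin]
          have : 2 * P - P = P := by omega
          rw [this]
          push_cast
          ring
      _ ≤ _ := sum_le_sum h4
  calc (𝒟.card : ℝ) * (P : ℝ) ^ m * c0 = ∑ b ∈ 𝒟, (P : ℝ) ^ m * c0 := by
        rw [sum_const, nsmul_eq_mul]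
        ring
    _ ≤ _ := sum_le_sum h2

end Pool.Agent.D0H17.MW
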