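import Pool.Agent.D0H17.MW.Main

set_option autoImplicit false

/-! The truncated Fourier expansion of the counting function and the major arcs. -/

namespace Pool.Agent.D0H17.MW

open Finset MeasureTheory

/-- the truncated expansion of the counting function -/
noncomputable def rA (k P M m T Q : ℕ) (𝒟 : Finset ℕ) (A : ℕ) (θ : Fin m → ℝ) (i : ℕ) : ℂ :=
  ∑ a ∈ Ico (-((A : ℤ) * T)) ((A : ℤ) * T),
    kap T a * Dh 𝒟 Q a * TT k P M m ((a : ℝ) / Q) θ * e (-((a : ℝ) * i / T))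

lemma TT_expand (k P M m : ℕ) (α : ℝ) (θ : Fin m → ℝ) :
    TT k P M m α θ = ∑ y ∈ Fintype.piFinset (fun _ : Fin m => Ico P M), e (α * ∑ j, ((y j : ℝ) + θ j) ^ k) := by
  unfold TT S
  rw [Finset.prod_univ_sum]
  refine sum_congr rfl fun y _ => ?_
  rw [mul_sum, e_sum]

lemma rr_sub_rA (k P M m T Q H : ℕ) (hH : 1 ≤ H) (hQ : 1 ≤ Q) (hTQ : T = H * Q) (𝒟 : Finset ℕ) (A : ℕ) {ε : ℝ}
    (hε : 0 ≤ ε)
    (hA : ∀ v : ℝ, -((T : ℝ) / 2) ≤ v → v < (T : ℝ) / 2 →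
      ‖(K v : ℂ) - ∑ a ∈ Ico (-((A : ℤ) * T)) ((A : ℤ) * T), kap T a * e ((a : ℝ) * v / T)‖ ≤ ε)
    (θ : Fin m → ℝ) (hθ : θ ∈ Set.Icc (0 : Fin m → ℝ) 1) (i : ℕ) (hi : (i : ℝ) ≤ T / 2) (B : ℝ)
    (h𝒟 : ∀ b ∈ 𝒟, (b : ℝ) ≤ B) (hB : m * (M : ℝ) ^ k + B < Q / 2) :
    ‖(rr k P M m H 𝒟 θ i : ℂ) - rA k P M m T Q 𝒟 A θ i‖ ≤ (𝒟.card : ℝ) * (M : ℝ) ^ m * ε := by
  have hH0 : (0 : ℝ) < H := by exact_mod_cast hH
  have hQ0 : (0 : ℝ) < Q := by exact_mod_cast hQ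
  have hTr : (T : ℝ) = H * Q := by rw [hTQ]; push_cast; ring
  have hT0 : (0 : ℝ) < T := by rw [hTr]; positivity
  have h1 : rA k P M m T Q 𝒟 A θ i = ∑ b ∈ 𝒟, ∑ y ∈ Fintype.piFinset (fun _ : Fin m => Ico P M),
      ∑ a ∈ Ico (-((A : ℤ) * T)) ((A : ℤ) * T),
        kap T a * e ((a : ℝ) * (H * (∑ j, ((y j : ℝ) + θ j) ^ k + b) - i) / T) := by
    unfold rA
    have h2 : ∀ a : ℤ, kap T a * Dh 𝒟 Q a * TT k P M m ((a : ℝ) / Q) θ * e (-((a : ℝ) * i / T)) =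
        ∑ b ∈ 𝒟, ∑ y ∈ Fintype.piFinset (fun _ : Fin m => Ico P M),
          kap T a * e ((a : ℝ) * (H * (∑ j, ((y j : ℝ) + θ j) ^ k + b) - i) / T) := by
      intro a
      obtain ⟨F, hF⟩ : ∃ F : (Fin m → ℕ) → ℝ, ∀ y, F y = ∑ j, ((y j : ℝ) + θ j) ^ k := ⟨_, fun _ => rfl⟩
      rw [TT_expand]
      simp_rw [← hF]
      have h9 : ∀ (b : ℕ) (y : Fin m → ℕ), kap T a * e ((a : ℝ) * (H * (F y + b) - i) / T) =
          kap T a * (e ((a : ℝ) * b / Q) * e ((a : ℝ) / Q * F y)) * e (-((a : ℝ) * i / T)) := by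
        intro b y
        rw [mul_assoc]
        congr 1
        rw [← e_add, ← e_add]
        congr 1
        rw [hTr]
        field_simp
        ring
      simp_rw [h9]
      unfold Dh
      rw [mul_assoc (kap T a), sum_mul_sum, mul_sum, sum_mul]
      refine sum_congr rfl fun b _ => ?_
      rw [mul_sum, sum_mul]
    simp_rw [h2]
    rw [sum_comm]
    refine sum_congr rfl fun b _ => ?_
    rw [sum_comm]
  rw [h1]
  unfold rr
  push_cast
  rw [← sum_sub_distrib]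
  simp_rw [← sum_sub_distrib]
  refine (norm_sum_le _ _).trans ?_
  have h3 : ∀ b ∈ 𝒟, ‖∑ y ∈ Fintype.piFinset (fun _ : Fin m => Ico P M),
      (((K (H * (∑ j, ((y j : ℝ) + θ j) ^ k + b) - i) : ℝ) : ℂ) - ∑ a ∈ Ico (-((A : ℤ) * T)) ((A : ℤ) * T),
        kap T a * e ((a : ℝ) * (H * (∑ j, ((y j : ℝ) + θ j) ^ k + b) - i) / T))‖ ≤ (M : ℝ) ^ m * ε := by
    intro b hb
    refine (norm_sum_le _ _).trans ?_
    have h4 : ∀ y ∈ Fintype.piFinset (fun _ : Fin m => Ico P M),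
        ‖(((K (H * (∑ j, ((y j : ℝ) + θ j) ^ k + b) - i) : ℝ) : ℂ) - ∑ a ∈ Ico (-((A : ℤ) * T)) ((A : ℤ) * T),
        kap T a * e ((a : ℝ) * (H * (∑ j, ((y j : ℝ) + θ j) ^ k + b) - i) / T))‖ ≤ ε := by
      intro y hy
      rw [Fintype.mem_piFinset] at hy
      have h5 : 0 ≤ ∑ j, ((y j : ℝ) + θ j) ^ k := by
        refine sum_nonneg fun j _ => pow_nonneg ?_ _
        have := hθ.1 j
        simp only [Pi.zero_apply] at this
        positivity
      have h6 : ∑ j, ((y j : ℝ) + θ j) ^ k ≤ m * (M : ℝ) ^ k := by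
        have : ∑ j : Fin m, ((y j : ℝ) + θ j) ^ k ≤ ∑ j : Fin m, (M : ℝ) ^ k := by
          refine sum_le_sum fun j _ => ?_
          have h7 := hθ.1 j
          have h8 := hθ.2 j
          simp only [Pi.zero_apply, Pi.one_apply] at h7 h8
          have h9 : (y j : ℝ) + 1 ≤ M := by
            have := (mem_Ico.1 (hy j)).2
            exact_mod_cast this
          exact pow_le_pow_left₀ (by positivity) (by linarith) _
        refine this.trans (le_of_eq ?_)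
        simp
      have h7 := h𝒟 b hb
      have h8 : (0 : ℝ) ≤ b := Nat.cast_nonneg b
      refine hA _ ?_ ?_
      · have : 0 ≤ H * (∑ j, ((y j : ℝ) + θ j) ^ k + (b : ℝ)) := by positivity
        linarith
      · have h9 : H * (∑ j, ((y j : ℝ) + θ j) ^ k + (b : ℝ)) < H * (Q / 2) :=
          mul_lt_mul_of_pos_left (by linarith) hH0
        have h10 : (0 : ℝ) ≤ i := Nat.cast_nonneg i
        rw [hTr]
        linarith
    refine (sum_le_sum h4).trans ?_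
    rw [sum_const, nsmul_eq_mul, Fintype.card_piFinset]
    simp only [Nat.card_Ico, prod_const, card_univ, Fintype.card_fin]
    refine mul_le_mul_of_nonneg_right ?_ hε
    push_cast
    refine pow_le_pow_left₀ (Nat.cast_nonneg _) ?_ _
    have : M - P ≤ M := Nat.sub_le _ _
    exact_mod_cast this
  refine (sum_le_sum h3).trans (le_of_eq ?_)
  rw [sum_const, nsmul_eq_mul]
  ring

/-- a product against a power -/
lemma prod_sub_pow (m : ℕ) (x : Fin m → ℂ) (g : ℂ) {B D : ℝ} (hB : 0 < B) (hx : ∀ j, ‖x j‖ ≤ B) (hg : ‖g‖ ≤ B)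
    (hD : ∀ j, ‖x j - g‖ ≤ D) : B * ‖∏ j, x j - g ^ m‖ ≤ m * D * B ^ m := by
  induction m with
  | zero => simp
  | succ m ih =>
    rw [Fin.prod_univ_succ]
    have h1 : x 0 * ∏ j : Fin m, x j.succ - g ^ (m + 1) =
        x 0 * (∏ j : Fin m, x j.succ - g ^ m) + (x 0 - g) * g ^ m := by ring
    have h2 := ih (fun j => x j.succ) (fun j => hx _) (fun j => hD _)
    have hD0 : 0 ≤ D := (norm_nonneg _).trans (hD 0)
    have h3 : ‖x 0 * (∏ j : Fin m, x j.succ - g ^ m)‖ ≤ B * ‖∏ j : Fin m, x j.succ - g ^ m‖ := by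
      rw [norm_mul]
      exact mul_le_mul_of_nonneg_right (hx 0) (norm_nonneg _)
    have h4 : ‖(x 0 - g) * g ^ m‖ ≤ D * B ^ m := by
      rw [norm_mul, norm_pow]
      exact mul_le_mul (hD 0) (pow_le_pow_left₀ (norm_nonneg _) hg m) (by positivity) hD0
    rw [h1]
    have h5 := norm_add_le (x 0 * (∏ j : Fin m, x j.succ - g ^ m)) ((x 0 - g) * g ^ m)
    have h6 : B * ‖x 0 * (∏ j : Fin m, x j.succ - g ^ m) + (x 0 - g) * g ^ m‖ ≤
        B * (B * ‖∏ j : Fin m, x j.succ - g ^ m‖ + D * B ^ m) :=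
      mul_le_mul_of_nonneg_left (by linarith) hB.le
    refine h6.trans ?_
    have h7 : B * (B * ‖∏ j : Fin m, x j.succ - g ^ m‖) ≤ B * (m * D * B ^ m) :=
      mul_le_mul_of_nonneg_left h2 hB.le
    push_cast
    have h8 : ((m : ℝ) + 1) * D * B ^ (m + 1) = B * (m * D * B ^ m) + B * (D * B ^ m) := by ring
    rw [h8]
    linarith

/-- the approximation of the product on the major arcs -/
lemma TT_major (n m P Q : ℕ) (hm : 2 ≤ m) (hP : 1 ≤ P) (hQ : Q = 4 * m * (4 * m) ^ (n + 2) * P ^ (n + 2))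
    (R : ℕ) (a : ℤ) (ha : |a| ≤ R) (θ : Fin m → ℝ) (hθ : θ ∈ Set.Icc (0 : Fin m → ℝ) 1) :
    ‖TT (n + 2) P (4 * m * P) m ((a : ℝ) / Q) θ - G (n + 2) P (4 * m * P) ((a : ℝ) / Q) ^ m‖ ≤
      2 * m * (2 * (4 * m * (4 * m) ^ (n + 2))) ^ m * ((P : ℝ) ^ (m - 1) + (R : ℝ) ^ m) := by
  have hP0 : (1 : ℝ) ≤ P := by exact_mod_cast hP
  have hm0 : (2 : ℝ) ≤ m := by exact_mod_cast hm
  have hQr : (Q : ℝ) = 4 * m * (4 * m) ^ (n + 2) * (P : ℝ) ^ (n + 2) := by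
    rw [hQ]; push_cast; ring
  have hQ0 : (0 : ℝ) < Q := by rw [hQr]; positivity
  set M : ℕ := 4 * m * P with hM
  have hMr : (M : ℝ) = 4 * m * P := by rw [hM]; push_cast; ring
  have hPM : P ≤ M := by rw [hM]; nlinarith
  have hdiff : ∀ j, ‖S (n + 2) P M ((a : ℝ) / Q) (θ j) - G (n + 2) P M ((a : ℝ) / Q)‖ ≤ 2 * |(a : ℝ)| := by
    intro j
    have h7 := hθ.1 j
    have h8 := hθ.2 j
    simp only [Pi.zero_apply, Pi.one_apply] at h7 h8
    refine (S_sub_G (n + 2) P M hPM _ h7 h8).trans ?_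
    rw [abs_div, abs_of_pos hQ0, hQr, hMr]
    have e1 : 2 * Real.pi * (|(a : ℝ)| / (4 * m * (4 * m) ^ (n + 2) * (P : ℝ) ^ (n + 2))) *
        (4 * m * (P : ℝ)) ^ (n + 2) = (Real.pi / (2 * m)) * |(a : ℝ)| := by
      rw [mul_pow]
      field_simp
      ring
    rw [e1]
    refine mul_le_mul_of_nonneg_right ?_ (abs_nonneg _)
    rw [div_le_iff₀ (by positivity)]
    nlinarith [Real.pi_le_four]
  unfold TT
  by_cases ha0 : a = 0
  · have hz : ∀ j, S (n + 2) P M ((a : ℝ) / Q) (θ j) = G (n + 2) P M ((a : ℝ) / Q) := by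
      intro j
      have h1 := hdiff j
      have h2 : |(a : ℝ)| = 0 := by rw [ha0]; simp
      rw [h2, mul_zero] at h1
      exact sub_eq_zero.1 (norm_le_zero_iff.1 h1)
    simp_rw [hz]
    simp only [prod_const, card_univ, Fintype.card_fin, sub_self, norm_zero]
    positivity
  · have har : (a : ℝ) ≠ 0 := by exact_mod_cast ha0
    have ha1 : (1 : ℝ) ≤ |(a : ℝ)| := by
      have := Int.one_le_abs ha0
      exact_mod_cast this
    have haR : |(a : ℝ)| ≤ R := by exact_mod_cast ha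
    set c : ℝ := 4 * m * (4 * m) ^ (n + 2) with hc
    have hc2 : 2 ≤ c := by
      have h8 : (1 : ℝ) ≤ (4 * m) ^ (n + 2) := one_le_pow₀ (by linarith)
      simp only [hc]
      nlinarith
    have hG : ‖G (n + 2) P M ((a : ℝ) / Q)‖ ≤ c * ((P : ℝ) / |(a : ℝ)|) := by
      refine (G_le n P M hP hPM (div_ne_zero har hQ0.ne')).trans (le_of_eq ?_)
      rw [abs_div, abs_of_pos hQ0, hQr]
      have e1 : (P : ℝ) ^ (n + 2) = (P : ℝ) ^ (n + 1) * P := by ring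
      rw [e1]
      field_simp
    set B : ℝ := c * ((P : ℝ) / |(a : ℝ)| + |(a : ℝ)|) with hB
    have hB0 : 0 < B := by simp only [hB]; positivity
    have hGB : ‖G (n + 2) P M ((a : ℝ) / Q)‖ ≤ B := by
      refine hG.trans ?_
      simp only [hB]
      refine mul_le_mul_of_nonneg_left ?_ (by linarith)
      linarith
    have hSB : ∀ j, ‖S (n + 2) P M ((a : ℝ) / Q) (θ j)‖ ≤ B := by
      intro j
      have h1 : ‖S (n + 2) P M ((a : ℝ) / Q) (θ j)‖ ≤ ‖G (n + 2) P M ((a : ℝ) / Q)‖ +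
          ‖S (n + 2) P M ((a : ℝ) / Q) (θ j) - G (n + 2) P M ((a : ℝ) / Q)‖ := by
        have := norm_add_le (G (n + 2) P M ((a : ℝ) / Q))
          (S (n + 2) P M ((a : ℝ) / Q) (θ j) - G (n + 2) P M ((a : ℝ) / Q))
        rw [add_sub_cancel] at this
        exact this
      have h2 := hdiff j
      simp only [hB]
      nlinarith
    have h3 := prod_sub_pow m (fun j => S (n + 2) P M ((a : ℝ) / Q) (θ j)) (G (n + 2) P M ((a : ℝ) / Q)) hB0
      hSB hGB hdiff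
    have h4 : ‖∏ j, S (n + 2) P M ((a : ℝ) / Q) (θ j) - G (n + 2) P M ((a : ℝ) / Q) ^ m‖ ≤
        m * (2 * |(a : ℝ)|) * B ^ (m - 1) := by
      have e1 : B ^ m = B * B ^ (m - 1) := by
        rw [← pow_succ']
        congr 1
        omega
      rw [e1] at h3
      have h5 : B * ‖∏ j, S (n + 2) P M ((a : ℝ) / Q) (θ j) - G (n + 2) P M ((a : ℝ) / Q) ^ m‖ ≤
          B * (m * (2 * |(a : ℝ)|) * B ^ (m - 1)) := by
        refine h3.trans (le_of_eq ?_)
        ring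
      exact le_of_mul_le_mul_left h5 hB0
    refine h4.trans ?_
    have h6 : B ^ (m - 1) ≤ c ^ (m - 1) * (2 ^ (m - 2) * (((P : ℝ) / |(a : ℝ)|) ^ (m - 1) + |(a : ℝ)| ^ (m - 1))) := by
      simp only [hB]
      rw [mul_pow]
      refine mul_le_mul_of_nonneg_left ?_ (by positivity)
      exact add_pow_le (by positivity) (by positivity) (m - 1)
    have h7 : |(a : ℝ)| * (((P : ℝ) / |(a : ℝ)|) ^ (m - 1) + |(a : ℝ)| ^ (m - 1)) ≤
        (P : ℝ) ^ (m - 1) + (R : ℝ) ^ m := by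
      rw [mul_add]
      refine add_le_add ?_ ?_
      · rw [div_pow]
        have e2 : |(a : ℝ)| ^ (m - 1) = |(a : ℝ)| * |(a : ℝ)| ^ (m - 2) := by
          rw [← pow_succ']
          congr 1
          omega
        have ha2 : 0 < |(a : ℝ)| := by linarith
        have e3 : |(a : ℝ)| * ((P : ℝ) ^ (m - 1) / (|(a : ℝ)| * |(a : ℝ)| ^ (m - 2))) =
            (P : ℝ) ^ (m - 1) / |(a : ℝ)| ^ (m - 2) := by
          field_simp
        rw [e2, e3]
        exact div_le_self (by positivity) (one_le_pow₀ ha1)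
      · have e2 : |(a : ℝ)| * |(a : ℝ)| ^ (m - 1) = |(a : ℝ)| ^ m := by
          rw [← pow_succ']
          congr 1
          omega
        rw [e2]
        exact pow_le_pow_left₀ (abs_nonneg _) haR m
    have h8 : c ^ (m - 1) * 2 ^ (m - 2) ≤ (2 * c) ^ m := by
      have e3 : (2 : ℝ) ^ (m - 2) ≤ 2 ^ m := pow_le_pow_right₀ (by norm_num) (by omega)
      have e4 : c ^ (m - 1) ≤ c ^ m := pow_le_pow_right₀ (by linarith) (by omega)
      rw [mul_pow 2 c m, mul_comm (c ^ (m - 1))]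
      exact mul_le_mul e3 e4 (by positivity) (by positivity)
    calc (m : ℝ) * (2 * |(a : ℝ)|) * B ^ (m - 1)
        ≤ m * (2 * |(a : ℝ)|) * (c ^ (m - 1) * (2 ^ (m - 2) * (((P : ℝ) / |(a : ℝ)|) ^ (m - 1) + |(a : ℝ)| ^ (m - 1)))) :=
          mul_le_mul_of_nonneg_left h6 (by positivity)
      _ = 2 * m * (c ^ (m - 1) * 2 ^ (m - 2)) *
          (|(a : ℝ)| * (((P : ℝ) / |(a : ℝ)|) ^ (m - 1) + |(a : ℝ)| ^ (m - 1))) := by ring
      _ ≤ 2 * m * (2 * c) ^ m * ((P : ℝ) ^ (m - 1) + (R : ℝ) ^ m) := by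
          refine mul_le_mul (mul_le_mul_of_nonneg_left h8 (by positivity)) h7 (by positivity) (by positivity)
      _ = _ := by simp only [hc]

/-- the mean of the truncated expansion -/
lemma int_rA (k P M m T Q : ℕ) (hPM : P ≤ M) (𝒟 : Finset ℕ) (A : ℕ) (i : ℕ) :
    ∫ θ, rA k P M m T Q 𝒟 A θ i ∂(mu m) = ∑ a ∈ Ico (-((A : ℤ) * T)) ((A : ℤ) * T),
      kap T a * Dh 𝒟 Q a * G k P M ((a : ℝ) / Q) ^ m * e (-((a : ℝ) * i / T)) := by
  unfold rA
  rw [integral_finsetSum]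
  · refine sum_congr rfl fun a _ => ?_
    rw [integral_mul_const, integral_const_mul, int_TT k P M m hPM]
  · intro a _
    exact integrable_mu ((continuous_const.mul (continuous_TT _ _ _ _ _)).mul continuous_const)

lemma continuous_rA (k P M m T Q : ℕ) (𝒟 : Finset ℕ) (A : ℕ) (i : ℕ) :
    Continuous fun θ => rA k P M m T Q 𝒟 A θ i := by
  unfold rA
  exact continuous_finsetSum _ fun a _ => (continuous_const.mul (continuous_TT _ _ _ _ _)).mul continuous_const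

/-- the mean and the truncated expansion differ by the minor part, up to a small error -/
lemma rA_sub_mean {C : ℝ} (hC1 : 1 ≤ C) (hC : ∀ x : ℝ, ‖KF x‖ ≤ C / (1 + x ^ 2)) (n m P T Q H : ℕ) (hm : 2 ≤ m)
    (hP : 1 ≤ P) (hH : 1 ≤ H) (hQ : Q = 4 * m * (4 * m) ^ (n + 2) * P ^ (n + 2)) (hTQ : T = H * Q)
    (𝒟 : Finset ℕ) (R A : ℕ) (hR : 1 ≤ R) (θ : Fin m → ℝ) (hθ : θ ∈ Set.Icc (0 : Fin m → ℝ) 1) (i : ℕ) :
    ‖rA (n + 2) P (4 * m * P) m T Q 𝒟 A θ i - ∫ θ, rA (n + 2) P (4 * m * P) m T Q 𝒟 A θ i ∂(mu m) -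
      Mn (n + 2) P (4 * m * P) m T Q 𝒟 R A θ i‖ ≤
      8 * m * C * (2 * (4 * m * (4 * m) ^ (n + 2))) ^ m * ((𝒟.card : ℝ) / T) *
        ((P : ℝ) ^ (m - 1) * R + (R : ℝ) ^ (m + 1) + (P : ℝ) ^ m / (R : ℝ) ^ (m - 1)) := by
  have hP0 : (1 : ℝ) ≤ P := by exact_mod_cast hP
  have hR0 : (1 : ℝ) ≤ R := by exact_mod_cast hR
  have hm0 : (2 : ℝ) ≤ m := by exact_mod_cast hm
  have hH0 : (1 : ℝ) ≤ H := by exact_mod_cast hH
  have hQr : (Q : ℝ) = 4 * m * (4 * m) ^ (n + 2) * (P : ℝ) ^ (n + 2) := by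
    rw [hQ]; push_cast; ring
  have hQ0 : (0 : ℝ) < Q := by rw [hQr]; positivity
  have hT0 : (0 : ℝ) < T := by rw [hTQ]; push_cast; positivity
  set M : ℕ := 4 * m * P with hM
  have hPM : P ≤ M := by rw [hM]; nlinarith
  set c : ℝ := 4 * m * (4 * m) ^ (n + 2) with hc
  have hc2 : 2 ≤ c := by
    have h8 : (1 : ℝ) ≤ (4 * m) ^ (n + 2) := one_le_pow₀ (by linarith)
    simp only [hc]
    nlinarith
  rw [int_rA (n + 2) P M m T Q hPM]
  set s := Ico (-((A : ℤ) * T)) ((A : ℤ) * T) with hs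
  have h1 : rA (n + 2) P M m T Q 𝒟 A θ i - ∑ a ∈ s,
      kap T a * Dh 𝒟 Q a * G (n + 2) P M ((a : ℝ) / Q) ^ m * e (-((a : ℝ) * i / T)) -
      Mn (n + 2) P M m T Q 𝒟 R A θ i =
      ∑ a ∈ s.filter (fun a => ¬ ((R : ℤ) < |a|)), kap T a * Dh 𝒟 Q a *
        (TT (n + 2) P M m ((a : ℝ) / Q) θ - G (n + 2) P M ((a : ℝ) / Q) ^ m) * e (-((a : ℝ) * i / T)) -
      ∑ a ∈ s.filter (fun a => (R : ℤ) < |a|), kap T a * Dh 𝒟 Q a *
        G (n + 2) P M ((a : ℝ) / Q) ^ m * e (-((a : ℝ) * i / T)) := by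
    unfold rA Mn
    rw [← hs, ← sum_sub_distrib, ← sum_sub_distrib, sum_filter, sum_filter, ← sum_sub_distrib]
    refine sum_congr rfl fun a _ => ?_
    unfold cm
    by_cases h : (R : ℤ) < |a|
    · simp only [h, if_true, not_true_eq_false, if_false]
      ring
    · simp only [h, if_true, not_false_eq_true, if_false]
      ring
  rw [h1]
  refine (norm_sub_le _ _).trans ?_
  have hkap : ∀ a : ℤ, ‖kap T a‖ ≤ C / T := by
    intro a
    refine (kap_bound hC T a).trans ?_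
    refine div_le_div_of_nonneg_left (by linarith) hT0 ?_
    have : 0 ≤ ((a : ℝ) / T) ^ 2 := sq_nonneg _
    nlinarith
  have hkD : ∀ a : ℤ, ‖kap T a * Dh 𝒟 Q a‖ ≤ C / T * 𝒟.card := by
    intro a
    rw [norm_mul]
    exact mul_le_mul (hkap a) (Dh_le 𝒟 Q a) (norm_nonneg _) (by positivity)
  have h2 : ‖∑ a ∈ s.filter (fun a => ¬ ((R : ℤ) < |a|)), kap T a * Dh 𝒟 Q a *
        (TT (n + 2) P M m ((a : ℝ) / Q) θ - G (n + 2) P M ((a : ℝ) / Q) ^ m) * e (-((a : ℝ) * i / T))‖ ≤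
      (3 * R) * (C / T * 𝒟.card * (2 * m * (2 * c) ^ m * ((P : ℝ) ^ (m - 1) + (R : ℝ) ^ m))) := by
    refine (norm_sum_le _ _).trans ?_
    have h3 : ∀ a ∈ s.filter (fun a => ¬ ((R : ℤ) < |a|)), ‖kap T a * Dh 𝒟 Q a *
        (TT (n + 2) P M m ((a : ℝ) / Q) θ - G (n + 2) P M ((a : ℝ) / Q) ^ m) * e (-((a : ℝ) * i / T))‖ ≤
        C / T * 𝒟.card * (2 * m * (2 * c) ^ m * ((P : ℝ) ^ (m - 1) + (R : ℝ) ^ m)) := by
      intro a ha
      have ha2 := (mem_filter.1 ha).2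
      rw [not_lt] at ha2
      rw [norm_mul, norm_e, mul_one, norm_mul]
      exact mul_le_mul (hkD a) (TT_major n m P Q hm hP hQ R a ha2 θ hθ) (norm_nonneg _) (by positivity)
    refine (sum_le_sum h3).trans ?_
    rw [sum_const, nsmul_eq_mul]
    refine mul_le_mul_of_nonneg_right ?_ (by positivity)
    have h4 : (s.filter (fun a => ¬ ((R : ℤ) < |a|))).card ≤ (Icc (-(R : ℤ)) R).card := by
      refine card_le_card fun a ha => ?_
      have ha2 := (mem_filter.1 ha).2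
      rw [not_lt, abs_le] at ha2
      exact mem_Icc.2 ha2
    rw [Int.card_Icc] at h4
    have h5 : (s.filter (fun a => ¬ ((R : ℤ) < |a|))).card ≤ 3 * R := by omega
    exact_mod_cast h5
  have h3 : ‖∑ a ∈ s.filter (fun a => (R : ℤ) < |a|), kap T a * Dh 𝒟 Q a *
        G (n + 2) P M ((a : ℝ) / Q) ^ m * e (-((a : ℝ) * i / T))‖ ≤
      C / T * 𝒟.card * (c * P) ^ m * (2 / (R : ℝ) ^ (m - 1)) := by
    refine (norm_sum_le _ _).trans ?_
    have h4 : ∀ a ∈ s.filter (fun a => (R : ℤ) < |a|), ‖kap T a * Dh 𝒟 Q a *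
        G (n + 2) P M ((a : ℝ) / Q) ^ m * e (-((a : ℝ) * i / T))‖ ≤
        C / T * 𝒟.card * (c * P) ^ m * (1 / |(a : ℝ)| ^ m) := by
      intro a ha
      have ha2 := (mem_filter.1 ha).2
      have ha0 : (a : ℝ) ≠ 0 := by
        intro h
        have : a = 0 := by exact_mod_cast h
        rw [this, abs_zero] at ha2
        omega
      have ha1 : 0 < |(a : ℝ)| := abs_pos.2 ha0
      rw [norm_mul, norm_e, mul_one, norm_mul, norm_pow]
      have hG : ‖G (n + 2) P M ((a : ℝ) / Q)‖ ≤ c * P / |(a : ℝ)| := by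
        refine (G_le n P M hP hPM (div_ne_zero ha0 hQ0.ne')).trans (le_of_eq ?_)
        rw [abs_div, abs_of_pos hQ0, hQr]
        have e1 : (P : ℝ) ^ (n + 2) = (P : ℝ) ^ (n + 1) * P := by ring
        rw [e1]
        field_simp
      have h5 : ‖G (n + 2) P M ((a : ℝ) / Q)‖ ^ m ≤ (c * P / |(a : ℝ)|) ^ m :=
        pow_le_pow_left₀ (norm_nonneg _) hG m
      have h6 : (c * P / |(a : ℝ)|) ^ m = (c * P) ^ m * (1 / |(a : ℝ)| ^ m) := by
        rw [div_pow]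
        ring
      rw [mul_assoc (C / T * (𝒟.card : ℝ)), ← h6]
      exact mul_le_mul (hkD a) h5 (by positivity) (by positivity)
    refine (sum_le_sum h4).trans ?_
    rw [← mul_sum]
    refine mul_le_mul_of_nonneg_left ?_ (by positivity)
    exact tail_int m R hm hR _ fun a ha => (mem_filter.1 ha).2
  refine (add_le_add h2 h3).trans ?_
  have h4 : (c * P) ^ m * (2 / (R : ℝ) ^ (m - 1)) ≤
      8 * m * (2 * c) ^ m * ((P : ℝ) ^ m / (R : ℝ) ^ (m - 1)) := by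
    have e1 : (c * P) ^ m * (2 / (R : ℝ) ^ (m - 1)) = 2 * c ^ m * ((P : ℝ) ^ m / (R : ℝ) ^ (m - 1)) := by
      rw [mul_pow]; ring
    rw [e1]
    refine mul_le_mul_of_nonneg_right ?_ (by positivity)
    have e2 : c ^ m ≤ (2 * c) ^ m := pow_le_pow_left₀ (by linarith) (by linarith) m
    have e3 : (2 : ℝ) ≤ 8 * m := by linarith
    exact mul_le_mul e3 e2 (by positivity) (by positivity)
  have h5 : (3 * (R : ℝ)) * (2 * m * (2 * c) ^ m * ((P : ℝ) ^ (m - 1) + (R : ℝ) ^ m)) ≤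
      8 * m * (2 * c) ^ m * ((P : ℝ) ^ (m - 1) * R + (R : ℝ) ^ (m + 1)) := by
    have e1 : (3 * (R : ℝ)) * (2 * m * (2 * c) ^ m * ((P : ℝ) ^ (m - 1) + (R : ℝ) ^ m)) =
        6 * m * (2 * c) ^ m * ((P : ℝ) ^ (m - 1) * R + (R : ℝ) ^ (m + 1)) := by ring
    rw [e1]
    refine mul_le_mul_of_nonneg_right ?_ (by positivity)
    refine mul_le_mul_of_nonneg_right ?_ (by positivity)
    linarith
  have hCT : 0 ≤ C / T * (𝒟.card : ℝ) := by positivity
  calc (3 * (R : ℝ)) * (C / T * 𝒟.card * (2 * m * (2 * c) ^ m * ((P : ℝ) ^ (m - 1) + (R : ℝ) ^ m))) +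
        C / T * 𝒟.card * (c * P) ^ m * (2 / (R : ℝ) ^ (m - 1))
      = C / T * 𝒟.card * ((3 * (R : ℝ)) * (2 * m * (2 * c) ^ m * ((P : ℝ) ^ (m - 1) + (R : ℝ) ^ m)) +
          (c * P) ^ m * (2 / (R : ℝ) ^ (m - 1))) := by ring
    _ ≤ C / T * 𝒟.card * (8 * m * (2 * c) ^ m * ((P : ℝ) ^ (m - 1) * R + (R : ℝ) ^ (m + 1)) +
          8 * m * (2 * c) ^ m * ((P : ℝ) ^ m / (R : ℝ) ^ (m - 1))) :=
        mul_le_mul_of_nonneg_left (add_le_add h5 h4) hCT
    _ = _ := by ring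

end Pool.Agent.D0H17.MW
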