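import Pool.Agent.D0H17.MW.Bump

set_option autoImplicit false

/-! Finite Parseval identities and the passage to blocks of frequencies. -/

namespace Pool.Agent.D0H17.MW

open Finset MeasureTheory

lemma e_nat_mul (i : ℕ) (x : ℝ) : e ((i : ℝ) * x) = e x ^ i := by
  unfold e
  rw [← Complex.exp_nat_mul]
  congr 1
  push_cast
  ring

lemma geo (T : ℕ) (d : ℤ) (hd : d ≠ 0) (hdT : |d| < T) :
    ∑ i ∈ range T, e ((i : ℝ) * ((d : ℝ) / T)) = 0 := by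
  have hT : 0 < T := by
    rcases Nat.eq_zero_or_pos T with h | h
    · rw [h] at hdT
      have := abs_nonneg d
      simp at hdT
      omega
    · exact h
  have hT0 : (T : ℝ) ≠ 0 := by exact_mod_cast hT.ne'
  simp_rw [e_nat_mul]
  have h1 : e ((d : ℝ) / T) ≠ 1 := by
    intro h
    obtain ⟨n, hn⟩ := e_eq_one h
    have h2 : (d : ℝ) = n * T := by
      field_simp at hn
      rw [hn]
      ring
    have h3 : d = n * T := by exact_mod_cast h2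
    have h4 : n ≠ 0 := by
      intro h0
      rw [h0] at h3
      simp at h3
      exact hd h3
    have h5 : 1 ≤ |n| := Int.one_le_abs h4
    rw [h3, abs_mul] at hdT
    have h6 : |(T : ℤ)| = T := abs_of_nonneg (by positivity)
    rw [h6] at hdT
    nlinarith [Int.natCast_nonneg T]
  rw [geom_sum_eq h1, ← e_nat_mul]
  have h2 : (T : ℝ) * ((d : ℝ) / T) = (d : ℤ) := by
    field_simp
  rw [h2, e_int, sub_self, zero_div]

lemma pars (T : ℕ) (s : Finset ℕ) (g : ℕ → ℤ)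
    (hg : ∀ b ∈ s, ∀ b' ∈ s, b ≠ b' → g b - g b' ≠ 0 ∧ |g b - g b'| < T) (c : ℕ → ℂ) :
    ∑ i ∈ range T, ‖∑ b ∈ s, c b * e ((i : ℝ) * ((g b : ℝ) / T))‖ ^ 2 = T * ∑ b ∈ s, ‖c b‖ ^ 2 := by
  have h1 : ∀ z : ℂ, ((‖z‖ ^ 2 : ℝ) : ℂ) = z * (starRingEnd ℂ) z := by
    intro z
    rw [Complex.mul_conj, Complex.normSq_eq_norm_sq]
  have h2 : ((∑ i ∈ range T, ‖∑ b ∈ s, c b * e ((i : ℝ) * ((g b : ℝ) / T))‖ ^ 2 : ℝ) : ℂ) =
      ((T * ∑ b ∈ s, ‖c b‖ ^ 2 : ℝ) : ℂ) := by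
    rw [Complex.ofReal_sum]
    simp_rw [h1]
    have h3 : ∀ i : ℕ, (∑ b ∈ s, c b * e ((i : ℝ) * ((g b : ℝ) / T))) *
        (starRingEnd ℂ) (∑ b ∈ s, c b * e ((i : ℝ) * ((g b : ℝ) / T))) =
        ∑ b ∈ s, ∑ b' ∈ s, c b * (starRingEnd ℂ) (c b') * e ((i : ℝ) * (((g b - g b' : ℤ) : ℝ) / T)) := by
      intro i
      rw [map_sum, sum_mul_sum]
      refine sum_congr rfl fun b _ => sum_congr rfl fun b' _ => ?_
      rw [map_mul]
      have h4 : (i : ℝ) * (((g b - g b' : ℤ) : ℝ) / T) = (i : ℝ) * ((g b : ℝ) / T) - (i : ℝ) * ((g b' : ℝ) / T) := by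
        push_cast
        ring
      rw [h4, e_sub]
      ring
    simp_rw [h3]
    rw [sum_comm]
    have h5 : ∀ b ∈ s, ∑ i ∈ range T, ∑ b' ∈ s,
        c b * (starRingEnd ℂ) (c b') * e ((i : ℝ) * (((g b - g b' : ℤ) : ℝ) / T)) =
        (T : ℂ) * ((‖c b‖ ^ 2 : ℝ) : ℂ) := by
      intro b hb
      rw [sum_comm]
      rw [sum_eq_single_of_mem b hb]
      · simp only [sub_self, Int.cast_zero, zero_div, mul_zero, e_zero, mul_one, sum_const, card_range,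
          nsmul_eq_mul, h1]
      · intro b' hb' hne
        rw [← mul_sum]
        obtain ⟨h6, h7⟩ := hg b hb b' hb' hne.symm
        rw [geo T _ h6 h7, mul_zero]
    rw [sum_congr rfl h5, ← mul_sum]
    push_cast
    rfl
  exact_mod_cast h2

/-- the weight of the blocks -/
noncomputable def Cw : ℝ := ∑' q : ℤ, 1 / (1 + (q : ℝ) ^ 2)

lemma summable_w : Summable fun q : ℤ => 1 / (1 + (q : ℝ) ^ 2) := by
  have h1 : Summable fun a : ℤ => (1 / (a : ℝ) ^ 2) := (Real.summable_one_div_int_pow (p := 2)).2 (by norm_num)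
  refine Summable.of_norm_bounded_eventually (g := fun a : ℤ => (1 / (a : ℝ) ^ 2)) h1 ?_
  have h2 : ({0} : Set ℤ)ᶜ ∈ (Filter.cofinite : Filter ℤ) := by
    rw [Filter.mem_cofinite]
    simp
  filter_upwards [h2] with a ha
  have ha0 : (a : ℝ) ≠ 0 := by
    intro h
    exact ha (by exact_mod_cast h)
  rw [Real.norm_of_nonneg (by positivity)]
  have h3 : (0 : ℝ) < (a : ℝ) ^ 2 := by positivity
  exact one_div_le_one_div_of_le h3 (by linarith)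

lemma Cw_pos : 0 < Cw := by
  unfold Cw
  have h := summable_w.sum_le_tsum {0} (fun q _ => by positivity)
  simp at h
  have h2 : ∑' q : ℤ, 1 / (1 + (q : ℝ) ^ 2) = ∑' i : ℤ, (1 + (i : ℝ) ^ 2)⁻¹ := by
    simp [one_div]
  rw [h2]
  linarith

lemma sum_w_le (s : Finset ℤ) : ∑ q ∈ s, 1 / (1 + (q : ℝ) ^ 2) ≤ Cw :=
  summable_w.sum_le_tsum s (fun q _ => by positivity)

/-- rearrangement into blocks -/
lemma sum_blocks {E : Type*} [AddCommMonoid E] (T : ℕ) (hT : 1 ≤ T) (A : ℕ) (f : ℤ → E) :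
    ∑ a ∈ Ico (-((A : ℤ) * T)) ((A : ℤ) * T), f a =
      ∑ q ∈ Ico (-(A : ℤ)) (A : ℤ), ∑ r ∈ range T, f (q * T + r) := by
  rw [← Finset.sum_product']
  have hT' : (1 : ℤ) ≤ T := by exact_mod_cast hT
  refine Finset.sum_nbij' (fun a => (a / (T : ℤ), (a % (T : ℤ)).toNat)) (fun p => p.1 * T + p.2) ?_ ?_ ?_ ?_ ?_
  · intro a ha
    rw [mem_Ico] at ha
    simp only [mem_product, mem_Ico, mem_range]
    have h1 := Int.emod_nonneg a (show (T : ℤ) ≠ 0 by omega)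
    have h2 := Int.emod_lt_of_pos a (show (0 : ℤ) < T by omega)
    refine ⟨⟨?_, ?_⟩, by omega⟩
    · rw [Int.le_ediv_iff_mul_le (by omega)]
      linarith [ha.1]
    · rw [Int.ediv_lt_iff_lt_mul (by omega)]
      exact ha.2
  · rintro ⟨q, r⟩ hp
    simp only [mem_product, mem_Ico, mem_range] at hp ⊢
    obtain ⟨⟨h1, h2⟩, h3⟩ := hp
    have h3' : (r : ℤ) < T := by exact_mod_cast h3
    have h4 : (0 : ℤ) ≤ r := by positivity
    constructor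
    · nlinarith
    · have : (q + 1) * (T : ℤ) ≤ A * T := by
        apply mul_le_mul_of_nonneg_right (by omega) (by omega)
      nlinarith
  · intro a ha
    have h1 := Int.emod_nonneg a (show (T : ℤ) ≠ 0 by omega)
    simp only
    rw [Int.toNat_of_nonneg h1]
    have := Int.mul_ediv_add_emod a T
    linarith
  · rintro ⟨q, r⟩ hp
    simp only [mem_product, mem_Ico, mem_range] at hp
    obtain ⟨⟨h1, h2⟩, h3⟩ := hp
    have h3' : (r : ℤ) < T := by exact_mod_cast h3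
    have h4 : (0 : ℤ) ≤ r := by positivity
    have h5 : (q * T + r) / (T : ℤ) = q := by
      rw [add_comm, Int.add_mul_ediv_right _ _ (by omega), Int.ediv_eq_zero_of_lt h4 h3', zero_add]
    have h6 : (q * T + r) % (T : ℤ) = r := by
      rw [add_comm, Int.add_mul_emod_self_right, Int.emod_eq_of_lt h4 h3']
    simp only [h5, h6]
    simp
  · intro a ha
    have h1 := Int.emod_nonneg a (show (T : ℤ) ≠ 0 by omega)
    simp only
    rw [Int.toNat_of_nonneg h1]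
    congr 1
    have := Int.mul_ediv_add_emod a T
    linarith

lemma w_comp (T : ℕ) (hT : 1 ≤ T) (q : ℤ) (r : ℕ) (hr : r < T) :
    1 + (q : ℝ) ^ 2 ≤ 3 * (1 + ((((q * T + r : ℤ)) : ℝ) / T) ^ 2) := by
  have hT0 : (0 : ℝ) < T := by exact_mod_cast hT
  have h1 : (((q * T + r : ℤ)) : ℝ) / T = q + r / T := by
    push_cast
    field_simp
  rw [h1]
  have h2 : (r : ℝ) / T ≤ 1 := by
    rw [div_le_one hT0]
    exact_mod_cast hr.le
  have h3 : 0 ≤ (r : ℝ) / T := by positivity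
  nlinarith [sq_nonneg (q + r / T + (q : ℝ)), sq_nonneg ((q : ℝ) + r / T - 0), sq_nonneg ((q : ℝ) + 2 * (r / T))]

/-- Parseval and Cauchy's inequality over the blocks -/
lemma cs_blocks (T : ℕ) (hT : 1 ≤ T) (A : ℕ) (c : ℤ → ℂ) :
    ∑ i ∈ range T, ‖∑ a ∈ Ico (-((A : ℤ) * T)) ((A : ℤ) * T), c a * e (-((a : ℝ) * i / T))‖ ^ 2 ≤
      3 * Cw * T * ∑ a ∈ Ico (-((A : ℤ) * T)) ((A : ℤ) * T), (1 + ((a : ℝ) / T) ^ 2) * ‖c a‖ ^ 2 := by
  have hT0 : (0 : ℝ) < T := by exact_mod_cast hT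
  set W : ℤ → ℝ := fun q => 1 + (q : ℝ) ^ 2 with hW
  have hWp : ∀ q, 0 < W q := fun q => by simp only [hW]; positivity
  set B : ℤ → ℕ → ℂ := fun q i => ∑ r ∈ range T, c (q * T + r) * e ((i : ℝ) * (((-(r : ℤ) : ℤ) : ℝ) / T)) with hB
  have h1 : ∀ i : ℕ, ∑ a ∈ Ico (-((A : ℤ) * T)) ((A : ℤ) * T), c a * e (-((a : ℝ) * i / T)) =
      ∑ q ∈ Ico (-(A : ℤ)) (A : ℤ), B q i := by
    intro i
    rw [sum_blocks T hT]
    refine sum_congr rfl fun q _ => sum_congr rfl fun r _ => ?_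
    congr 1
    have h2 : -((((q * T + r : ℤ) : ℝ)) * i / T) = (i : ℝ) * (((-(r : ℤ) : ℤ) : ℝ) / T) + (((-(q * i) : ℤ)) : ℝ) := by
      push_cast
      field_simp
      ring
    rw [h2, e_add, e_int, mul_one]
  have h3 : ∀ i : ℕ, ‖∑ q ∈ Ico (-(A : ℤ)) (A : ℤ), B q i‖ ^ 2 ≤
      Cw * ∑ q ∈ Ico (-(A : ℤ)) (A : ℤ), W q * ‖B q i‖ ^ 2 := by
    intro i
    have h4 : ‖∑ q ∈ Ico (-(A : ℤ)) (A : ℤ), B q i‖ ≤ ∑ q ∈ Ico (-(A : ℤ)) (A : ℤ), ‖B q i‖ := norm_sum_le _ _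
    have h5 : (∑ q ∈ Ico (-(A : ℤ)) (A : ℤ), ‖B q i‖) ^ 2 ≤
        (∑ q ∈ Ico (-(A : ℤ)) (A : ℤ), 1 / W q) * ∑ q ∈ Ico (-(A : ℤ)) (A : ℤ), W q * ‖B q i‖ ^ 2 := by
      refine Finset.sum_sq_le_sum_mul_sum_of_sq_le_mul _ (fun q _ => ?_) (fun q _ => ?_) (fun q _ => le_of_eq ?_)
      · exact (one_div_pos.2 (hWp q)).le
      · exact mul_nonneg (hWp q).le (sq_nonneg _)
      · have := (hWp q).ne'
        field_simp
    calc _ ≤ (∑ q ∈ Ico (-(A : ℤ)) (A : ℤ), ‖B q i‖) ^ 2 := pow_le_pow_left₀ (norm_nonneg _) h4 2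
      _ ≤ _ := h5
      _ ≤ _ := by
        refine mul_le_mul_of_nonneg_right (sum_w_le _) (sum_nonneg fun q _ => mul_nonneg (hWp q).le (sq_nonneg _))
  have h6 : ∀ q : ℤ, ∑ i ∈ range T, ‖B q i‖ ^ 2 = T * ∑ r ∈ range T, ‖c (q * T + r)‖ ^ 2 := by
    intro q
    refine pars T (range T) (fun r => -(r : ℤ)) ?_ (fun r => c (q * T + r))
    intro b hb b' hb' hne
    rw [mem_range] at hb hb'
    constructor
    · omega
    · rw [abs_lt]
      omega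
  calc _ = ∑ i ∈ range T, ‖∑ q ∈ Ico (-(A : ℤ)) (A : ℤ), B q i‖ ^ 2 := by
        refine sum_congr rfl fun i _ => ?_
        rw [h1]
    _ ≤ ∑ i ∈ range T, Cw * ∑ q ∈ Ico (-(A : ℤ)) (A : ℤ), W q * ‖B q i‖ ^ 2 := sum_le_sum fun i _ => h3 i
    _ = Cw * ∑ q ∈ Ico (-(A : ℤ)) (A : ℤ), W q * (T * ∑ r ∈ range T, ‖c (q * T + r)‖ ^ 2) := by
        rw [← mul_sum, sum_comm]
        congr 1
        refine sum_congr rfl fun q _ => ?_
        rw [← mul_sum, h6]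
    _ = Cw * T * ∑ q ∈ Ico (-(A : ℤ)) (A : ℤ), ∑ r ∈ range T, W q * ‖c (q * T + r)‖ ^ 2 := by
        simp_rw [mul_sum]
        refine sum_congr rfl fun q _ => sum_congr rfl fun r _ => ?_
        ring
    _ ≤ Cw * T * ∑ q ∈ Ico (-(A : ℤ)) (A : ℤ), ∑ r ∈ range T,
        3 * ((1 + ((((q * T + r : ℤ)) : ℝ) / T) ^ 2) * ‖c (q * T + r)‖ ^ 2) := by
        refine mul_le_mul_of_nonneg_left (sum_le_sum fun q _ => sum_le_sum fun r hr => ?_)
          (mul_nonneg Cw_pos.le hT0.le)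
        rw [← mul_assoc]
        exact mul_le_mul_of_nonneg_right (w_comp T hT q r (mem_range.1 hr)) (sq_nonneg _)
    _ = 3 * Cw * T * ∑ a ∈ Ico (-((A : ℤ) * T)) ((A : ℤ) * T), (1 + ((a : ℝ) / T) ^ 2) * ‖c a‖ ^ 2 := by
        rw [sum_blocks T hT A (fun a => (1 + ((a : ℝ) / T) ^ 2) * ‖c a‖ ^ 2)]
        simp_rw [mul_sum]
        refine sum_congr rfl fun q _ => sum_congr rfl fun r _ => ?_
        ring

/-- the exponential sum of a finite set -/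
noncomputable def Dh (𝒟 : Finset ℕ) (Q : ℕ) (a : ℤ) : ℂ := ∑ b ∈ 𝒟, e ((a : ℝ) * b / Q)

lemma Dh_le (𝒟 : Finset ℕ) (Q : ℕ) (a : ℤ) : ‖Dh 𝒟 Q a‖ ≤ 𝒟.card := by
  unfold Dh
  refine (norm_sum_le _ _).trans ?_
  simp [norm_e]

lemma Dh_blocks (𝒟 : Finset ℕ) (Q H T : ℕ) (hQ : 1 ≤ Q) (hH : 1 ≤ H) (hTQ : T = H * Q)
    (h𝒟 : ∀ b ∈ 𝒟, b < Q) (A : ℕ) :
    ∑ a ∈ Ico (-((A : ℤ) * (T : ℤ))) ((A : ℤ) * (T : ℤ)),
      ‖Dh 𝒟 Q a‖ ^ 2 / (1 + ((a : ℝ) / T) ^ 2) ≤ 3 * Cw * ((T : ℝ) * (𝒟.card : ℝ)) := by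
  have hT : 1 ≤ T := by
    rw [hTQ]
    exact Nat.mul_pos hH hQ
  have hQ0 : (Q : ℝ) ≠ 0 := by exact_mod_cast (by omega : Q ≠ 0)
  have hH0 : (H : ℝ) ≠ 0 := by exact_mod_cast (by omega : H ≠ 0)
  have hTr : (T : ℝ) = H * Q := by rw [hTQ]; push_cast; ring
  rw [sum_blocks T hT]
  have h1 : ∀ q : ℤ, ∑ r ∈ range T, ‖Dh 𝒟 Q (q * (T : ℤ) + r)‖ ^ 2 = (T : ℝ) * (𝒟.card : ℝ) := by
    intro q
    have h2 := pars T 𝒟 (fun b => ((H * b : ℕ) : ℤ)) ?_ (fun _ => 1)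
    · simp only [norm_one, one_pow, sum_const, nsmul_eq_mul, mul_one, one_mul] at h2
      rw [← h2]
      refine sum_congr rfl fun r _ => ?_
      unfold Dh
      congr 2
      refine sum_congr rfl fun b _ => ?_
      have h3 : (((q * (T : ℤ) + r : ℤ)) : ℝ) * b / Q =
          (r : ℝ) * ((((H * b : ℕ) : ℤ) : ℝ) / T) + ((q * H * b : ℤ) : ℝ) := by
        push_cast
        rw [hTr]
        field_simp
        ring
      rw [h3, e_add, e_int, mul_one]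
    · intro b hb b' hb' hne
      have hb1 := h𝒟 b hb
      have hb2 := h𝒟 b' hb'
      have hH' : (1 : ℤ) ≤ H := by exact_mod_cast hH
      have e1 : (((H * b : ℕ) : ℤ)) - ((H * b' : ℕ) : ℤ) = H * ((b : ℤ) - b') := by
        push_cast
        ring
      rw [e1]
      constructor
      · exact mul_ne_zero (by omega) (by omega)
      · rw [abs_mul, abs_of_nonneg (by omega : (0 : ℤ) ≤ H), hTQ]
        push_cast
        refine mul_lt_mul_of_pos_left ?_ (by omega)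
        rw [abs_lt]
        omega
  have hstep : ∀ q ∈ Ico (-(A : ℤ)) (A : ℤ), ∀ r ∈ range T,
      ‖Dh 𝒟 Q (q * (T : ℤ) + r)‖ ^ 2 / (1 + ((((q * (T : ℤ) + r : ℤ)) : ℝ) / T) ^ 2) ≤
      3 * (1 / (1 + (q : ℝ) ^ 2)) * ‖Dh 𝒟 Q (q * (T : ℤ) + r)‖ ^ 2 := by
    intro q _ r hr
    have h4 := w_comp T hT q r (mem_range.1 hr)
    have h5 : (0 : ℝ) < 1 + (q : ℝ) ^ 2 := by positivity
    have h6 : 1 / (1 + ((((q * (T : ℤ) + r : ℤ)) : ℝ) / T) ^ 2) ≤ 3 * (1 / (1 + (q : ℝ) ^ 2)) := by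
      rw [div_le_iff₀ (by positivity)]
      calc (1 : ℝ) = (1 / (1 + (q : ℝ) ^ 2)) * (1 + (q : ℝ) ^ 2) := by field_simp
        _ ≤ (1 / (1 + (q : ℝ) ^ 2)) * (3 * (1 + ((((q * (T : ℤ) + r : ℤ)) : ℝ) / T) ^ 2)) :=
          mul_le_mul_of_nonneg_left h4 (by positivity)
        _ = _ := by ring
    rw [div_eq_mul_one_div, mul_comm]
    exact mul_le_mul_of_nonneg_right h6 (sq_nonneg _)
  refine (sum_le_sum fun q hq => sum_le_sum fun r hr => hstep q hq r hr).trans ?_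
  have h7 : ∑ q ∈ Ico (-(A : ℤ)) (A : ℤ), ∑ r ∈ range T,
      3 * (1 / (1 + (q : ℝ) ^ 2)) * ‖Dh 𝒟 Q (q * (T : ℤ) + r)‖ ^ 2 =
      3 * (∑ q ∈ Ico (-(A : ℤ)) (A : ℤ), 1 / (1 + (q : ℝ) ^ 2)) * ((T : ℝ) * (𝒟.card : ℝ)) := by
    rw [mul_sum, sum_mul]
    refine sum_congr rfl fun q _ => ?_
    rw [← mul_sum, h1]
  rw [h7]
  refine mul_le_mul_of_nonneg_right ?_ (by positivity)
  linarith [sum_w_le (Ico (-(A : ℤ)) (A : ℤ))]

/-- tails of `∑ 1/|a|^m` over the integers -/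
lemma tail_int (m R : ℕ) (hm : 2 ≤ m) (hR : 1 ≤ R) (s : Finset ℤ) (hs : ∀ a ∈ s, (R : ℤ) < |a|) :
    ∑ a ∈ s, 1 / |(a : ℝ)| ^ m ≤ 2 / (R : ℝ) ^ (m - 1) := by
  have hR0 : (1 : ℝ) ≤ R := by exact_mod_cast hR
  obtain ⟨N, hRN, hN⟩ : ∃ N : ℕ, R ≤ N ∧ ∀ a ∈ s, a.natAbs ≤ N := by
    refine ⟨max R (s.sup Int.natAbs), le_max_left _ _, fun a ha => ?_⟩
    exact (Finset.le_sup (f := Int.natAbs) ha).trans (le_max_right _ _)
  set s1 : Finset ℤ := (Ioc R N).image (fun n : ℕ => (n : ℤ)) with hs1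
  set s2 : Finset ℤ := (Ioc R N).image (fun n : ℕ => -(n : ℤ)) with hs2
  have hsub : s ⊆ s1 ∪ s2 := by
    intro a ha
    have h1 := hs a ha
    have h2 := hN a ha
    rw [mem_union, hs1, hs2, mem_image, mem_image]
    rcases le_or_gt 0 a with h | h
    · left
      rw [abs_of_nonneg h] at h1
      exact ⟨a.natAbs, mem_Ioc.2 ⟨by omega, h2⟩, by omega⟩
    · right
      rw [abs_of_neg h] at h1
      exact ⟨a.natAbs, mem_Ioc.2 ⟨by omega, h2⟩, by omega⟩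
  have hu : ∑ a ∈ s1 ∪ s2, 1 / |(a : ℝ)| ^ m ≤ ∑ a ∈ s1, 1 / |(a : ℝ)| ^ m + ∑ a ∈ s2, 1 / |(a : ℝ)| ^ m := by
    rw [← Finset.sum_union_inter]
    have : 0 ≤ ∑ a ∈ s1 ∩ s2, 1 / |(a : ℝ)| ^ m := sum_nonneg fun a _ => by positivity
    linarith
  have hbase : ∑ n ∈ Ioc R N, 1 / (n : ℝ) ^ m ≤ 1 / (R : ℝ) ^ (m - 1) := by
    have h1 : ∀ n ∈ Ioc R N, 1 / (n : ℝ) ^ m ≤ (1 / (R : ℝ) ^ (m - 2)) * ((n : ℝ) ^ 2)⁻¹ := by
      intro n hn
      have hn1 : (R : ℝ) ≤ n := by exact_mod_cast (mem_Ioc.1 hn).1.le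
      have h2 : (n : ℝ) ^ m = (n : ℝ) ^ (m - 2) * (n : ℝ) ^ 2 := by
        rw [← pow_add]
        congr 1
        omega
      rw [h2, one_div, mul_inv, one_div]
      refine mul_le_mul_of_nonneg_right ?_ (by positivity)
      exact inv_anti₀ (by positivity) (pow_le_pow_left₀ (by linarith) hn1 _)
    refine (sum_le_sum h1).trans ?_
    rw [← mul_sum]
    have h3 := sum_Ioc_inv_sq_le_sub (α := ℝ) (k := R) (n := N) (by omega) hRN
    have h4 : ∑ i ∈ Ioc R N, ((i : ℝ) ^ 2)⁻¹ ≤ (R : ℝ)⁻¹ := by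
      have : (0 : ℝ) ≤ (N : ℝ)⁻¹ := by positivity
      linarith
    calc _ ≤ (1 / (R : ℝ) ^ (m - 2)) * (R : ℝ)⁻¹ := mul_le_mul_of_nonneg_left h4 (by positivity)
      _ = 1 / (R : ℝ) ^ (m - 1) := by
        have h5 : (R : ℝ) ^ (m - 1) = (R : ℝ) ^ (m - 2) * R := by
          rw [← pow_succ]
          congr 1
          omega
        rw [h5]
        field_simp
  have hi1 : ∑ a ∈ s1, 1 / |(a : ℝ)| ^ m = ∑ n ∈ Ioc R N, 1 / (n : ℝ) ^ m := by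
    rw [hs1, sum_image (by intro a _ b _ h; simpa using h)]
    refine sum_congr rfl fun n _ => ?_
    simp
  have hi2 : ∑ a ∈ s2, 1 / |(a : ℝ)| ^ m = ∑ n ∈ Ioc R N, 1 / (n : ℝ) ^ m := by
    rw [hs2, sum_image (by intro a _ b _ h; simpa using h)]
    refine sum_congr rfl fun n _ => ?_
    simp
  calc _ ≤ ∑ a ∈ s1 ∪ s2, 1 / |(a : ℝ)| ^ m :=
        sum_le_sum_of_subset_of_nonneg hsub fun a _ _ => by positivity
    _ ≤ _ := hu
    _ ≤ 1 / (R : ℝ) ^ (m - 1) + 1 / (R : ℝ) ^ (m - 1) := by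
        rw [hi1, hi2]
        linarith
    _ = _ := by ring

end Pool.Agent.D0H17.MW
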